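import Pool.Agent.Lib.MP_a1e562_co.OT.Stm

/-!
# Piece [OT A1]: a pencil and a line
-/

set_option autoImplicit false

namespace Pool.Agent.TP3

open Configuration

theorem s_OTA1 : S_OTA1 := by
  intro P L _ _ A l hA
  have hgl : ∀ g : {g : L // A ∈ g}, (g : L) ≠ l := by
    intro g h
    exact hA (h ▸ g.2)
  have hAX : ∀ X : {X : P // X ∈ l}, A ≠ (X : P) := by
    intro X h
    exact hA (h ▸ X.2)
  refine ⟨{
    toFun := fun g => ⟨HasPoints.mkPoint (hgl g), (HasPoints.mkPoint_ax (hgl g)).2⟩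
    invFun := fun X => ⟨HasLines.mkLine (hAX X), (HasLines.mkLine_ax (hAX X)).1⟩
    left_inv := ?_
    right_inv := ?_ }, ?_⟩
  · intro g
    apply Subtype.ext
    have h1 := HasPoints.mkPoint_ax (P := P) (hgl g)
    have hne : A ≠ (HasPoints.mkPoint (hgl g) : P) := by
      intro h
      exact hA (h ▸ h1.2)
    have h2 := HasLines.mkLine_ax (L := L) (hAX ⟨HasPoints.mkPoint (hgl g), h1.2⟩)
    exact (Nondegenerate.eq_or_eq h2.1 h2.2 g.2 h1.1).resolve_left hne
  · intro X
    apply Subtype.ext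
    have h1 := HasLines.mkLine_ax (L := L) (hAX X)
    have hne : (HasLines.mkLine (hAX X) : L) ≠ l := by
      intro h
      exact hA (h ▸ h1.1)
    have h2 := HasPoints.mkPoint_ax (P := P) (hgl ⟨HasLines.mkLine (hAX X), h1.1⟩)
    exact (Nondegenerate.eq_or_eq h2.1 h1.2 h2.2 X.2).resolve_right hne
  · intro g
    exact (HasPoints.mkPoint_ax (hgl g)).1

end Pool.Agent.TP3
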