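import Pool.Agent.Lib.MP_a1e562_co.OT.Stm

/-!
# [OT A2] Signs of perspectivities
-/

set_option autoImplicit false

namespace Pool.Agent.TP3

open Configuration

/-- an involution of `Fin N`, `4 ∣ N`, with exactly two fixed points is odd -/
private theorem a2_sgn {N : ℕ} (g : Equiv.Perm (Fin N)) (h2 : g * g = 1) (U V : Fin N)
    (hUV : U ≠ V) (hfix : ∀ x, g x = x ↔ x = U ∨ x = V) (hN : N % 4 = 0) :
    Equiv.Perm.sign g = -1 := by
  have h1 : g ^ 2 = 1 := by rw [pow_two]; exact h2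
  have : Fact (Nat.Prime 2) := ⟨Nat.prime_two⟩
  have h3 := Equiv.Perm.pow_prime_eq_one_iff.1 h1
  have h4 : g.cycleType = Multiset.replicate (Multiset.card g.cycleType) 2 :=
    Multiset.eq_replicate.2 ⟨rfl, h3⟩
  have h5 : g.cycleType.sum = g.support.card := g.sum_cycleType
  have h6 : g.support = ({U, V} : Finset (Fin N))ᶜ := by
    ext x
    rw [Equiv.Perm.mem_support, Finset.mem_compl, Finset.mem_insert, Finset.mem_singleton,
      ← hfix x]
  have h7 : g.support.card + 2 = N := by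
    have h8 := Finset.card_add_card_compl ({U, V} : Finset (Fin N))
    rw [← h6, Finset.card_pair hUV, Fintype.card_fin] at h8
    omega
  have h8 : g.cycleType.sum = Multiset.card g.cycleType * 2 := by
    conv_lhs => rw [h4]
    rw [Multiset.sum_replicate, smul_eq_mul]
  have h9 : Odd (g.cycleType.sum + Multiset.card g.cycleType) := by
    rw [Nat.odd_iff]
    omega
  rw [Equiv.Perm.sign_of_cycleType, h9.neg_one_pow]

theorem s_OTA2 : S_OTA2 := by
  intro h1 P L _ _ _ _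
  classical
  -- coordinates
  have hl : ∀ l : L, Nonempty ({X : P // X ∈ l} ≃ Fin (ProjectivePlane.order P L + 1)) := by
    intro l
    have h2 := ProjectivePlane.pointCount_eq P l
    rw [pointCount] at h2
    exact ⟨Finite.equivFinOfCardEq h2⟩
  have hA : ∀ A : P, Nonempty ({g : L // A ∈ g} ≃ Fin (ProjectivePlane.order P L + 1)) := by
    intro A
    have h2 := ProjectivePlane.lineCount_eq L A
    rw [lineCount] at h2
    exact ⟨Finite.equivFinOfCardEq h2⟩
  let e := fun l => Classical.choice (hl l)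
  let e' := fun A => Classical.choice (hA A)
  have hσ : ∀ (A : P) (l : L), ∃ σ : Equiv.Perm (Fin (ProjectivePlane.order P L + 1)),
      A ∉ l → ∀ (g : {g : L // A ∈ g}) (X : {X : P // X ∈ l}), (X : P) ∈ (g : L) →
        σ (e' A g) = e l X := by
    intro A l
    by_cases h : A ∈ l
    · exact ⟨1, fun h' => absurd h h'⟩
    · obtain ⟨f, hf⟩ := h1 P L A l h
      refine ⟨(e' A).symm.trans (f.trans (e l)), fun _ g X hX => ?_⟩
      have h3 : f g = X := by
        rcases Nondegenerate.eq_or_eq (hf g) hX (f g).2 X.2 with h4 | h4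
        · exact Subtype.ext h4
        · exact absurd (h4 ▸ g.2) h
      rw [Equiv.trans_apply, Equiv.trans_apply, Equiv.symm_apply_apply, h3]
  choose σ hσ using hσ
  -- perspectivities
  have K : ∀ (A : P) (l m : L) (X : {X : P // X ∈ l}) (Y : {X : P // X ∈ m}), A ∉ l → A ∉ m →
      Al P L A X Y → (σ A m) ((σ A l)⁻¹ (e l X)) = e m Y := by
    intro A l m X Y hAl hAm hal
    obtain ⟨g, hAg, hX, hY⟩ := hal
    have h3 := hσ A l hAl ⟨g, hAg⟩ X hX
    have h4 := hσ A m hAm ⟨g, hAg⟩ Y hY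
    have h5 : (σ A l)⁻¹ (σ A l (e' A ⟨g, hAg⟩)) = e' A ⟨g, hAg⟩ :=
      (σ A l).symm_apply_apply _
    rw [← h3, h5, h4]
  refine ⟨fun A l => ((Equiv.Perm.sign (σ A l) : ℤˣ) : ℤ), ?_, ?_, ?_⟩
  · intro A l
    rcases Int.units_eq_one_or (Equiv.Perm.sign (σ A l)) with h | h
    · left
      show ((Equiv.Perm.sign (σ A l) : ℤˣ) : ℤ) = 1
      rw [h]
      rfl
    · right
      show ((Equiv.Perm.sign (σ A l) : ℤˣ) : ℤ) = -1
      rw [h]
      rfl
  · intro A B l m g hAl hAm hBl hBm hg hg3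
    have h3 : ∀ X, (σ B l * (σ B m)⁻¹ * σ A m * (σ A l)⁻¹) (e l X) = e l (g X) := by
      intro X
      obtain ⟨Y, hYm, hXY, hYX⟩ := hg X
      have h5 := K A l m X ⟨Y, hYm⟩ hAl hAm hXY
      have h6 := K B m l ⟨Y, hYm⟩ (g X) hBm hBl hYX
      rw [Equiv.Perm.mul_apply, Equiv.Perm.mul_apply, Equiv.Perm.mul_apply, h5, h6]
    have h4 : (σ B l * (σ B m)⁻¹ * σ A m * (σ A l)⁻¹) * (σ B l * (σ B m)⁻¹ * σ A m * (σ A l)⁻¹) *
        (σ B l * (σ B m)⁻¹ * σ A m * (σ A l)⁻¹) = 1 := by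
      apply Equiv.ext
      intro x
      obtain ⟨X, rfl⟩ := (e l).surjective x
      rw [Equiv.Perm.mul_apply, Equiv.Perm.mul_apply, h3, h3, h3, Equiv.Perm.one_apply]
      have h5 : (g * g * g) X = X := by rw [hg3, Equiv.Perm.one_apply]
      rw [Equiv.Perm.mul_apply, Equiv.Perm.mul_apply] at h5
      rw [h5]
    have h5 := congrArg Equiv.Perm.sign h4
    rw [map_mul, map_mul, map_one] at h5
    have h6 : Equiv.Perm.sign (σ B l * (σ B m)⁻¹ * σ A m * (σ A l)⁻¹) = 1 := by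
      rcases Int.units_eq_one_or
        (Equiv.Perm.sign (σ B l * (σ B m)⁻¹ * σ A m * (σ A l)⁻¹)) with h | h
      · exact h
      · rw [h] at h5
        exact absurd h5 (by decide)
    rw [map_mul, map_mul, map_mul, Equiv.Perm.sign_inv, Equiv.Perm.sign_inv] at h6
    have h7 := congrArg (fun u : ℤˣ => (u : ℤ)) h6
    simp only [Units.val_mul, Units.val_one] at h7
    show ((Equiv.Perm.sign (σ A l) : ℤˣ) : ℤ) * ((Equiv.Perm.sign (σ A m) : ℤˣ) : ℤ) *
      ((Equiv.Perm.sign (σ B m) : ℤˣ) : ℤ) * ((Equiv.Perm.sign (σ B l) : ℤˣ) : ℤ) = 1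
    rw [← h7]
    ring
  · intro A B C a b c g hAb hAc hBa hBc hCa hCb hg hg2 hfix hord
    obtain ⟨U, V, hUV, hfix⟩ := hfix
    have h3 : ∀ X, (σ B c * (σ B a)⁻¹ * σ C a * (σ C b)⁻¹ * σ A b * (σ A c)⁻¹) (e c X) =
        e c (g X) := by
      intro X
      obtain ⟨Y, W, hYb, hWa, hXY, hYW, hWX⟩ := hg X
      have h5 := K A c b X ⟨Y, hYb⟩ hAc hAb hXY
      have h6 := K C b a ⟨Y, hYb⟩ ⟨W, hWa⟩ hCb hCa hYW
      have h7 := K B a c ⟨W, hWa⟩ (g X) hBa hBc hWX
      rw [Equiv.Perm.mul_apply, Equiv.Perm.mul_apply, Equiv.Perm.mul_apply, Equiv.Perm.mul_apply,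
        Equiv.Perm.mul_apply, h5, h6, h7]
    have h4 : (σ B c * (σ B a)⁻¹ * σ C a * (σ C b)⁻¹ * σ A b * (σ A c)⁻¹) *
        (σ B c * (σ B a)⁻¹ * σ C a * (σ C b)⁻¹ * σ A b * (σ A c)⁻¹) = 1 := by
      apply Equiv.ext
      intro x
      obtain ⟨X, rfl⟩ := (e c).surjective x
      rw [Equiv.Perm.mul_apply, h3, h3, Equiv.Perm.one_apply]
      have h5 : (g * g) X = X := by rw [hg2, Equiv.Perm.one_apply]
      rw [Equiv.Perm.mul_apply] at h5
      rw [h5]
    have h6 : Equiv.Perm.sign (σ B c * (σ B a)⁻¹ * σ C a * (σ C b)⁻¹ * σ A b * (σ A c)⁻¹) =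
        -1 := by
      apply a2_sgn _ h4 (e c U) (e c V) (fun h => hUV ((e c).injective h))
      · intro x
        obtain ⟨X, rfl⟩ := (e c).surjective x
        rw [h3, (e c).injective.eq_iff, (e c).injective.eq_iff, (e c).injective.eq_iff]
        exact hfix X
      · omega
    rw [map_mul, map_mul, map_mul, map_mul, map_mul, Equiv.Perm.sign_inv, Equiv.Perm.sign_inv,
      Equiv.Perm.sign_inv] at h6
    have h7 := congrArg (fun u : ℤˣ => (u : ℤ)) h6
    simp only [Units.val_mul, Units.val_neg, Units.val_one] at h7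
    show ((Equiv.Perm.sign (σ A c) : ℤˣ) : ℤ) * ((Equiv.Perm.sign (σ A b) : ℤˣ) : ℤ) *
      ((Equiv.Perm.sign (σ C b) : ℤˣ) : ℤ) * ((Equiv.Perm.sign (σ C a) : ℤˣ) : ℤ) *
      ((Equiv.Perm.sign (σ B a) : ℤˣ) : ℤ) * ((Equiv.Perm.sign (σ B c) : ℤˣ) : ℤ) = -1
    rw [← h7]
    ring

end Pool.Agent.TP3
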