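import Pool.Agent.Lib.MP_a1e562_co.OT.Stm

/-! # [OT A3] The projectivity of order 3 -/

set_option autoImplicit false

namespace Pool.Agent.TP3

open Configuration

namespace OTA3

variable {P L : Type} [Membership P L] [ProjectivePlane P L]

theorem ln {p q : P} {l m : L} (h : p ≠ q) (h1 : p ∈ l) (h2 : q ∈ l) (h3 : p ∈ m)
    (h4 : q ∈ m) : l = m :=
  (Nondegenerate.eq_or_eq h1 h2 h3 h4).resolve_left h

theorem pt {p q : P} {l m : L} (h : l ≠ m) (h1 : p ∈ l) (h2 : q ∈ l) (h3 : p ∈ m)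
    (h4 : q ∈ m) : p = q :=
  (Nondegenerate.eq_or_eq h1 h2 h3 h4).resolve_right h

theorem persp (h1 : S_OTA1) (A : P) (l m : L) (hl : A ∉ l) (hm : A ∉ m) :
    ∃ φ : {X : P // X ∈ l} ≃ {X : P // X ∈ m}, ∀ X : {X : P // X ∈ l}, Al P L A (X : P) (φ X : P) := by
  obtain ⟨f, hf⟩ := h1 P L A l hl
  obtain ⟨f', hf'⟩ := h1 P L A m hm
  refine ⟨f.symm.trans f', fun X => ⟨(f.symm X : {g : L // A ∈ g}), (f.symm X).2, ?_, hf' _⟩⟩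
  have := hf (f.symm X)
  rwa [Equiv.apply_symm_apply] at this

/-- a line through `A` and `X ∈ l` meets `m` in one point -/
theorem uniq {A : P} {l m : L} (hl : A ∉ l) (hm : A ∉ m) {X Y Y' : P} (hX : X ∈ l)
    (hY : Y ∈ m) (hY' : Y' ∈ m) (h : Al P L A X Y) (h' : Al P L A X Y') : Y = Y' := by
  obtain ⟨u, Au, Xu, Yu⟩ := h
  obtain ⟨v, Av, Xv, Yv⟩ := h'
  have AX : A ≠ X := fun h => hl (h ▸ hX)
  have huv : u = v := ln AX Au Xu Av Xv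
  subst huv
  have um : u ≠ m := fun h => hm (h ▸ Au)
  exact pt um Yu Yv hY hY'

theorem exMeet (u v : L) (A : P) (hA : A ∈ u) : ∃ p : P, p ∈ u ∧ p ∈ v := by
  by_cases h : u = v
  · exact ⟨A, hA, h ▸ hA⟩
  · exact ⟨HasPoints.mkPoint h, (HasPoints.mkPoint_ax h).1, (HasPoints.mkPoint_ax h).2⟩

end OTA3

open OTA3

theorem s_OTA3 : S_OTA3 := by
  intro h1 P L _ _ hInc A B Z l m k AB lm Al' Am Bl Bm Zl Zm Ak Bk Zk
  obtain ⟨φ, hφ⟩ := persp h1 A l m Al' Am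
  obtain ⟨ψ, hψ⟩ := persp h1 B m l Bm Bl
  have kl : k ≠ l := fun h => Al' (h ▸ Ak)
  have km : k ≠ m := fun h => Am (h ▸ Ak)
  have BZ : B ≠ Z := fun h => Bl (h ▸ Zl)
  have AZ : A ≠ Z := fun h => Al' (h ▸ Zl)
  -- Z is fixed
  have hZφ : φ ⟨Z, Zl⟩ = ⟨Z, Zm⟩ :=
    Subtype.ext (uniq Al' Am Zl (φ ⟨Z, Zl⟩).2 Zm (hφ ⟨Z, Zl⟩) ⟨k, Ak, Zk, Zk⟩)
  have hZψ : ψ ⟨Z, Zm⟩ = ⟨Z, Zl⟩ :=
    Subtype.ext (uniq Bm Bl Zm (ψ ⟨Z, Zm⟩).2 Zl (hψ ⟨Z, Zm⟩) ⟨k, Bk, Zk, Zk⟩)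
  have hgZ : ∀ X : {X : P // X ∈ l}, (X : P) = Z → ψ (φ X) = X := by
    intro X hX
    have hX' : X = ⟨Z, Zl⟩ := Subtype.ext hX
    rw [hX', hZφ, hZψ]
  refine ⟨φ.trans ψ, ?_, ?_, ?_⟩
  · intro X
    exact ⟨(φ X : P), (φ X).2, hφ X, hψ (φ X)⟩
  · -- the cube
    apply Equiv.ext
    intro X
    have hgoal : ψ (φ (ψ (φ (ψ (φ X))))) = X := by
      by_cases hX : (X : P) = Z
      · rw [hgZ X hX, hgZ X hX, hgZ X hX]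
      · have BX : B ≠ (X : P) := fun h => Bl (h ▸ X.2)
        obtain ⟨x0, Bx0, Xx0⟩ : ∃ x0 : L, B ∈ x0 ∧ (X : P) ∈ x0 :=
          ⟨HasLines.mkLine BX, (HasLines.mkLine_ax BX).1, (HasLines.mkLine_ax BX).2⟩
        obtain ⟨B0, B0x, B0m⟩ := exMeet (P := P) x0 m B Bx0
        have x0k : x0 ≠ k := by
          intro h
          have hk : (X : P) ∈ k := h ▸ Xx0
          exact hX (pt kl hk Zk X.2 Zl)
        obtain ⟨y0, Ay0, A0y0, B1y0⟩ := hφ X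
        obtain ⟨x1, Bx1, B1x1, A1x1⟩ := hψ (φ X)
        obtain ⟨y1, Ay1, A1y1, B2y1⟩ := hφ (ψ (φ X))
        obtain ⟨x2, Bx2, B2x2, A2x2⟩ := hψ (φ (ψ (φ X)))
        obtain ⟨y2, Ay2, A2y2, B3y2⟩ := hφ (ψ (φ (ψ (φ X))))
        obtain ⟨D0, D0x, D0y⟩ := exMeet (P := P) x0 y1 B Bx0
        obtain ⟨D1, D1x, D1y⟩ := exMeet (P := P) x1 y2 B Bx1
        obtain ⟨D2, D2x, D2y⟩ := exMeet (P := P) x2 y0 B Bx2
        have key := hInc Z B A (X : P) (ψ (φ X) : P) (ψ (φ (ψ (φ X))) : P) B0 (φ X : P)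
          (φ (ψ (φ X)) : P) D0 D1 D2 k l m x0 x1 x2 y0 y1 y2 kl km lm Zk Zl Zm Bk Ak AB.symm BZ AZ
          Bx0 Bx1 Bx2 Ay0 Ay1 Ay2 x0k Xx0 X.2 A0y0 B1y0 (φ X).2 B1x1 A1x1 (ψ (φ X)).2 A1y1
          B2y1 (φ (ψ (φ X))).2 B2x2 A2x2 (ψ (φ (ψ (φ X)))).2 A2y2 B0x B0m D0x D0y D1x D1y D2x D2y
        have hB0 : φ (ψ (φ (ψ (φ X)))) = ⟨B0, B0m⟩ :=
          Subtype.ext (uniq Al' Am (ψ (φ (ψ (φ X)))).2 (φ (ψ (φ (ψ (φ X))))).2 B0m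
            (hφ _) ⟨y2, Ay2, A2y2, key.1⟩)
        rw [hB0]
        exact Subtype.ext (uniq Bm Bl B0m (ψ ⟨B0, B0m⟩).2 X.2 (hψ ⟨B0, B0m⟩) ⟨x0, Bx0, B0x, Xx0⟩)
    simpa [Equiv.Perm.mul_apply] using hgoal
  · intro X
    constructor
    · intro hX
      have hX' : ψ (φ X) = X := hX
      by_contra hXZ
      obtain ⟨u, Au, Xu, Yu⟩ := hφ X
      obtain ⟨v, Bv, Yv, Xv⟩ := hψ (φ X)
      rw [hX'] at Xv
      have uv : u ≠ v := by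
        intro h
        subst h
        have huk : u = k := ln AB Au Bv Ak Bk
        exact hXZ (pt kl (huk ▸ Xu) Zk X.2 Zl)
      have hXY : (X : P) = (φ X : P) := pt uv Xu Yu Xv Yv
      have Xm : (X : P) ∈ m := hXY ▸ (φ X).2
      exact hXZ (pt lm X.2 Zl Xm Zm)
    · intro hX
      exact hgZ X hX

end Pool.Agent.TP3
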