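import Pool.Agent.Lib.MP_a1e562_co.OT.Stm

/-! # [OT A4] The diagonal points of a quadrangle of a subplane of order 3 are not collinear -/

set_option autoImplicit false

namespace Pool.Agent.TP3

open Configuration

namespace OTA4

variable {P L : Type} [Membership P L] [ProjectivePlane P L]

theorem ln {p q : P} {l m : L} (h : p ≠ q) (h1 : p ∈ l) (h2 : q ∈ l) (h3 : p ∈ m)
    (h4 : q ∈ m) : l = m :=
  (Nondegenerate.eq_or_eq h1 h2 h3 h4).resolve_left h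

theorem pt {p q : P} {l m : L} (h : l ≠ m) (h1 : p ∈ l) (h2 : q ∈ l) (h3 : p ∈ m)
    (h4 : q ∈ m) : p = q :=
  (Nondegenerate.eq_or_eq h1 h2 h3 h4).resolve_right h

theorem exLine (p q : P) : ∃ l : L, p ∈ l ∧ q ∈ l := by
  by_cases h : p = q
  · subst h
    obtain ⟨l, hl⟩ : ∃ l : L, p ∈ l := by
      obtain ⟨p1, p2, p3, l1, l2, l3, h12, h13, h21, h22, h23, h31, h32, h33⟩ :=
        @ProjectivePlane.exists_config P L _ _
      by_cases h1 : p = p1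
      · by_cases h2 : p = p2
        · by_cases h3 : p = p3
          · exfalso
            exact h12 (by rw [← h1, h2]; assumption)
          · exact ⟨HasLines.mkLine h3, (HasLines.mkLine_ax h3).1⟩
        · exact ⟨HasLines.mkLine h2, (HasLines.mkLine_ax h2).1⟩
      · exact ⟨HasLines.mkLine h1, (HasLines.mkLine_ax h1).1⟩
    exact ⟨l, hl, hl⟩
  · exact ⟨HasLines.mkLine h, (HasLines.mkLine_ax h).1, (HasLines.mkLine_ax h).2⟩

theorem exPt {u v : L} (h : u ≠ v) : ∃ p : P, p ∈ u ∧ p ∈ v :=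
  ⟨HasPoints.mkPoint h, (HasPoints.mkPoint_ax h).1, (HasPoints.mkPoint_ax h).2⟩

theorem card5 {S : Set P} {a b c d e : P} (hS : S.ncard = 4) (ha : a ∈ S) (hb : b ∈ S)
    (hc : c ∈ S) (hd : d ∈ S) (he : e ∈ S) (ab : a ≠ b) (ac : a ≠ c) (ad : a ≠ d) (ae : a ≠ e)
    (bc : b ≠ c) (bd : b ≠ d) (be : b ≠ e) (cd : c ≠ d) (ce : c ≠ e) (de : d ≠ e) : False := by
  classical
  have hfin : S.Finite := Set.finite_of_ncard_pos (by omega)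
  have hsub : (({a, b, c, d, e} : Finset P) : Set P) ⊆ S := by
    intro x hx
    simp only [Finset.coe_insert, Finset.coe_singleton, Set.mem_insert_iff,
      Set.mem_singleton_iff] at hx
    rcases hx with h | h | h | h | h <;> rw [h] <;> assumption
  have h1 := Set.ncard_le_ncard hsub hfin
  rw [Set.ncard_coe_finset, hS] at h1
  have h2 : ({a, b, c, d, e} : Finset P).card = 5 := by
    rw [Finset.card_insert_of_notMem, Finset.card_insert_of_notMem,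
      Finset.card_insert_of_notMem, Finset.card_insert_of_notMem, Finset.card_singleton]
    · simpa using de
    · simpa using ⟨cd, ce⟩
    · simpa using ⟨bc, bd, be⟩
    · simpa using ⟨ab, ac, ad, ae⟩
  omega

theorem fourth {S : Set P} {a b c : P} (hS : S.ncard = 4) :
    ∃ p ∈ S, p ≠ a ∧ p ≠ b ∧ p ≠ c := by
  classical
  by_contra hcon
  push Not at hcon
  have hsub : S ⊆ (({a, b, c} : Finset P) : Set P) := by
    intro x hx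
    simp only [Finset.coe_insert, Finset.coe_singleton, Set.mem_insert_iff,
      Set.mem_singleton_iff]
    by_cases h1 : x = a
    · exact Or.inl h1
    · by_cases h2 : x = b
      · exact Or.inr (Or.inl h2)
      · exact Or.inr (Or.inr (hcon x hx h1 h2))
  have h1 := Set.ncard_le_ncard hsub (Finset.finite_toSet _)
  rw [Set.ncard_coe_finset, hS] at h1
  have h2 : ({a, b, c} : Finset P).card ≤ 3 := Finset.card_le_three
  omega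

end OTA4

open OTA4

theorem s_OTA4 : S_OTA4 := by
  intro P L _ _ D hD A B Q X C Y W g AD BD QD XD hABQ hABX hAQX hBQX
    ⟨lAB, A1, B1, C1⟩ ⟨lQX, Q2, X2, C2⟩ ⟨lAX, A3, X3, Y3⟩ ⟨lBQ, B4, Q4, Y4⟩
    ⟨lAQ, A5, Q5, W5⟩ ⟨lBX, B6, X6, W6⟩ Cg Yg Wg
  -- distinct points
  have AB : A ≠ B := by
    rintro rfl
    obtain ⟨l, h1, h2⟩ := exLine (L := L) A Q
    exact hABQ ⟨l, h1, h1, h2⟩
  have AQ : A ≠ Q := by
    rintro rfl
    exact hABQ ⟨lAB, A1, B1, A1⟩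
  have AX : A ≠ X := by
    rintro rfl
    exact hABX ⟨lAB, A1, B1, A1⟩
  have BQ : B ≠ Q := by
    rintro rfl
    exact hABQ ⟨lAB, A1, B1, B1⟩
  have BX : B ≠ X := by
    rintro rfl
    exact hABX ⟨lAB, A1, B1, B1⟩
  have QX : Q ≠ X := by
    rintro rfl
    exact hAQX ⟨lAQ, A5, Q5, Q5⟩
  -- points off lines
  have QnAB : Q ∉ lAB := fun h => hABQ ⟨lAB, A1, B1, h⟩
  have XnAB : X ∉ lAB := fun h => hABX ⟨lAB, A1, B1, h⟩
  have AnQX : A ∉ lQX := fun h => hAQX ⟨lQX, h, Q2, X2⟩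
  have BnQX : B ∉ lQX := fun h => hBQX ⟨lQX, h, Q2, X2⟩
  have BnAX : B ∉ lAX := fun h => hABX ⟨lAX, A3, h, X3⟩
  have QnAX : Q ∉ lAX := fun h => hAQX ⟨lAX, A3, h, X3⟩
  have AnBQ : A ∉ lBQ := fun h => hABQ ⟨lBQ, h, B4, Q4⟩
  have XnBQ : X ∉ lBQ := fun h => hBQX ⟨lBQ, B4, Q4, h⟩
  have BnAQ : B ∉ lAQ := fun h => hABQ ⟨lAQ, A5, h, Q5⟩
  have XnAQ : X ∉ lAQ := fun h => hAQX ⟨lAQ, A5, Q5, h⟩
  have AnBX : A ∉ lBX := fun h => hABX ⟨lBX, h, B6, X6⟩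
  have QnBX : Q ∉ lBX := fun h => hBQX ⟨lBX, B6, h, X6⟩
  -- lines are different
  have e12 : lAB ≠ lQX := fun h => AnQX (h ▸ A1)
  have e34 : lAX ≠ lBQ := fun h => AnBQ (h ▸ A3)
  have e56 : lAQ ≠ lBX := fun h => AnBX (h ▸ A5)
  have e13 : lAB ≠ lAX := fun h => BnAX (h ▸ B1)
  have e14 : lAB ≠ lBQ := fun h => AnBQ (h ▸ A1)
  have e15 : lAB ≠ lAQ := fun h => BnAQ (h ▸ B1)
  have e16 : lAB ≠ lBX := fun h => AnBX (h ▸ A1)
  have e35 : lAX ≠ lAQ := fun h => XnAQ (h ▸ X3)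
  have e36 : lAX ≠ lBX := fun h => AnBX (h ▸ A3)
  have e45 : lBQ ≠ lAQ := fun h => BnAQ (h ▸ B4)
  have e46 : lBQ ≠ lBX := fun h => QnBX (h ▸ Q4)
  -- C off four lines
  have CnAX : C ∉ lAX := fun h => AnQX ((pt e13 C1 A1 h A3) ▸ C2)
  have CnAQ : C ∉ lAQ := fun h => AnQX ((pt e15 C1 A1 h A5) ▸ C2)
  have CnBQ : C ∉ lBQ := fun h => BnQX ((pt e14 C1 B1 h B4) ▸ C2)
  have CnBX : C ∉ lBX := fun h => BnQX ((pt e16 C1 B1 h B6) ▸ C2)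
  have YA : Y ≠ A := fun h => AnBQ (h ▸ Y4)
  have YX : Y ≠ X := fun h => XnBQ (h ▸ Y4)
  -- members of D
  have CD : C ∈ D := hD.meet A AD B BD AB Q QD X XD QX lAB lQX e12 A1 B1 Q2 X2 C C1 C2
  have YD : Y ∈ D := hD.meet A AD X XD AX B BD Q QD BQ lAX lBQ e34 A3 X3 B4 Q4 Y Y3 Y4
  -- fourth point
  obtain ⟨p, hp, pA, pX, pY⟩ := fourth (a := A) (b := X) (c := Y)
    (hD.four A AD X XD AX lAX A3 X3)
  obtain ⟨pD, p3⟩ := hp
  have Cp : C ≠ p := fun h => CnAX (h ▸ p3)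
  obtain ⟨n, Cn, pn⟩ := exLine (L := L) C p
  have nAX : n ≠ lAX := fun h => CnAX (h ▸ Cn)
  have Ann : A ∉ n := fun h => pA (pt nAX pn h p3 A3)
  have Xnn : X ∉ n := fun h => pX (pt nAX pn h p3 X3)
  have Ynn : Y ∉ n := fun h => pY (pt nAX pn h p3 Y3)
  have nAB : n ≠ lAB := fun h => Ann (h ▸ A1)
  have nQX : n ≠ lQX := fun h => Xnn (h ▸ X2)
  have ng : n ≠ g := fun h => Ynn (h ▸ Yg)
  have Bnn : B ∉ n := fun h => BnQX ((pt nAB h Cn B1 C1) ▸ C2)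
  have Qnn : Q ∉ n := fun h => QnAB ((pt nQX h Cn Q2 C2) ▸ C1)
  have Wnn : W ∉ n := fun h => CnAQ ((pt ng h Cn Wg Cg) ▸ W5)
  have nAQ : n ≠ lAQ := fun h => Ann (h ▸ A5)
  have nBX : n ≠ lBX := fun h => Bnn (h ▸ B6)
  have nBQ : n ≠ lBQ := fun h => Bnn (h ▸ B4)
  obtain ⟨p2, p2n, p2l⟩ := exPt (P := P) nAQ
  obtain ⟨p3', p3n, p3l⟩ := exPt (P := P) nBX
  obtain ⟨p4, p4n, p4l⟩ := exPt (P := P) nBQ
  have p2D : p2 ∈ D := hD.meet C CD p pD Cp A AD Q QD AQ n lAQ nAQ Cn pn A5 Q5 p2 p2n p2l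
  have p3D : p3' ∈ D := hD.meet C CD p pD Cp B BD X XD BX n lBX nBX Cn pn B6 X6 p3' p3n p3l
  have p4D : p4 ∈ D := hD.meet C CD p pD Cp B BD Q QD BQ n lBQ nBQ Cn pn B4 Q4 p4 p4n p4l
  have Cp2 : C ≠ p2 := fun h => CnAQ (h ▸ p2l)
  have Cp3 : C ≠ p3' := fun h => CnBX (h ▸ p3l)
  have Cp4 : C ≠ p4 := fun h => CnBQ (h ▸ p4l)
  have pp2 : p ≠ p2 := fun h => pA (pt e35 p3 A3 (h ▸ p2l) A5)
  have pp3 : p ≠ p3' := fun h => pX (pt e36 p3 X3 (h ▸ p3l) X6)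
  have pp4 : p ≠ p4 := fun h => pY (pt e34 p3 Y3 (h ▸ p4l) Y4)
  have p23 : p2 ≠ p3' := fun h => Wnn ((pt e56 p2l W5 (h ▸ p3l) W6) ▸ p2n)
  have p24 : p2 ≠ p4 := fun h => Qnn ((pt e45.symm p2l Q5 (h ▸ p4l) Q4) ▸ p2n)
  have p34 : p3' ≠ p4 := fun h => Bnn ((pt e46.symm p3l B6 (h ▸ p4l) B4) ▸ p3n)
  exact card5 (hD.four C CD p pD Cp n Cn pn) ⟨CD, Cn⟩ ⟨pD, pn⟩ ⟨p2D, p2n⟩ ⟨p3D, p3n⟩
    ⟨p4D, p4n⟩ Cp Cp2 Cp3 Cp4 pp2 pp3 pp4 p23 p24 p34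

end Pool.Agent.TP3
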