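import Pool.Agent.Lib.MP_a1e562_co.OT.Stm

/-! # [OT A6] The order is divisible by 3 -/

set_option autoImplicit false

namespace Pool.Agent.TP3

open Configuration

theorem s_OTA6 : S_OTA6 := by
  intro h3 P L _ _ _ _ hI
  classical
  have : Fintype P := Fintype.ofFinite P
  have : Fintype L := Fintype.ofFinite L
  -- a point `Z`, three lines through it
  obtain ⟨Z, -⟩ := @ProjectivePlane.exists_config P L _ _
  have hl := ProjectivePlane.two_lt_lineCount L Z
  have hl' : 2 < Fintype.card {l : L // Z ∈ l} := by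
    rw [← Nat.card_eq_fintype_card]
    exact hl
  obtain ⟨k, l, m, hkl, hkm, hlm⟩ := Fintype.two_lt_card_iff.1 hl'
  have hp := ProjectivePlane.two_lt_pointCount P (k : L)
  have hp' : 2 < Fintype.card {X : P // X ∈ (k : L)} := by
    rw [← Nat.card_eq_fintype_card]
    exact hp
  have hAB : ∃ A B : {X : P // X ∈ (k : L)}, (A : P) ≠ B ∧ (A : P) ≠ Z ∧ (B : P) ≠ Z := by
    obtain ⟨A, B, C, hAB, hAC, hBC⟩ := Fintype.two_lt_card_iff.1 hp'
    have hAB' : (A : P) ≠ B := fun h => hAB (Subtype.ext h)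
    have hAC' : (A : P) ≠ C := fun h => hAC (Subtype.ext h)
    have hBC' : (B : P) ≠ C := fun h => hBC (Subtype.ext h)
    by_cases hA : (A : P) = Z
    · exact ⟨B, C, hBC', fun h => hAB' (hA.trans h.symm), fun h => hAC' (hA.trans h.symm)⟩
    · by_cases hB : (B : P) = Z
      · exact ⟨A, C, hAC', hA, fun h => hBC' (hB.trans h.symm)⟩
      · exact ⟨A, B, hAB', hA, hB⟩
  obtain ⟨A, B, hAB, hAZ, hBZ⟩ := hAB
  have hkl' : (k : L) ≠ l := fun h => hkl (Subtype.ext h)
  have hkm' : (k : L) ≠ m := fun h => hkm (Subtype.ext h)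
  have hlm' : (l : L) ≠ m := fun h => hlm (Subtype.ext h)
  have off : ∀ (X : P) (l' : L), X ∈ (k : L) → X ≠ Z → Z ∈ l' → (k : L) ≠ l' → X ∉ l' :=
    fun X l' hX hXZ hZ hk h =>
      (Nondegenerate.eq_or_eq hX k.2 h hZ).elim hXZ hk
  obtain ⟨g, -, hg3, hfix⟩ := h3 P L hI A B Z l m k hAB hlm' (off A l A.2 hAZ l.2 hkl')
    (off A m A.2 hAZ m.2 hkm') (off B l B.2 hBZ l.2 hkl') (off B m B.2 hBZ m.2 hkm') l.2 m.2
    A.2 B.2 k.2
  have : Fact (Nat.Prime 3) := ⟨Nat.prime_three⟩
  have hpow : g ^ 3 ^ 1 = 1 := by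
    rw [pow_one, pow_succ, pow_two]
    exact hg3
  have hmod := Equiv.Perm.card_compl_support_modEq (p := 3) (n := 1) hpow
  have hsupp : (g.support)ᶜ = {(⟨Z, l.2⟩ : {X : P // X ∈ (l : L)})} := by
    ext X
    rw [Finset.mem_compl, Equiv.Perm.notMem_support, hfix, Finset.mem_singleton]
    constructor
    · intro h
      exact Subtype.ext h
    · intro h
      rw [h]
  rw [hsupp, Finset.card_singleton] at hmod
  have hcard : Fintype.card {X : P // X ∈ (l : L)} = ProjectivePlane.order P L + 1 := by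
    rw [← Nat.card_eq_fintype_card]
    exact ProjectivePlane.pointCount_eq P (l : L)
  rw [hcard] at hmod
  have h2 : 0 ≡ ProjectivePlane.order P L [MOD 3] := by
    apply Nat.ModEq.add_right_cancel' 1
    rw [Nat.zero_add]
    exact hmod
  exact (Nat.modEq_zero_iff_dvd.1 h2.symm)

end Pool.Agent.TP3
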