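import Pool.Agent.Lib.MP_a1e562_co.OT.Stm

/-!
# Piece [OT B1]: perspectivities of flags
-/

set_option autoImplicit false

namespace Pool.Agent.TP3

open Configuration

/-- one direction of the perspectivity -/
theorem otb1_ex {P L : Type} [Membership P L] [ProjectivePlane P L] {Q Z Z' : P} {m x : L}
    (hm : Q ∉ m) (hx : Q ∉ x) (hZ : Z ∈ m) (hZ' : Z' ∈ x) (hA : Al P L Q Z Z')
    (X : Aff P L Z m) : ∃ Y : Aff P L Z' x, Al P L Q (X : P) (Y : P) := by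
  have hQX : Q ≠ (X : P) := fun h => hm (h ▸ X.2.1)
  have h1 := HasLines.mkLine_ax (L := L) hQX
  have hlx : (HasLines.mkLine hQX : L) ≠ x := fun h => hx (h ▸ h1.1)
  have h2 := HasPoints.mkPoint_ax (P := P) hlx
  refine ⟨⟨HasPoints.mkPoint hlx, h2.2, ?_⟩, ⟨HasLines.mkLine hQX, h1.1, h1.2, h2.1⟩⟩
  intro h
  obtain ⟨g, gQ, gZ, gZ'⟩ := hA
  have hQZ' : Q ≠ Z' := fun h => hx (h ▸ hZ')
  have h3 : Z' ∈ (HasLines.mkLine hQX : L) := h ▸ h2.1
  have h4 : (HasLines.mkLine hQX : L) = g := by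
    rcases Nondegenerate.eq_or_eq h1.1 h3 gQ gZ' with h5 | h5
    · exact absurd h5 hQZ'
    · exact h5
  have h6 : (X : P) ∈ g := h4 ▸ h1.2
  rcases Nondegenerate.eq_or_eq X.2.1 hZ h6 gZ with h7 | h7
  · exact X.2.2 h7
  · exact hm (h7 ▸ gQ)

/-- uniqueness of the image -/
theorem otb1_uq {P L : Type} [Membership P L] [ProjectivePlane P L] {Q A B C : P} {x : L}
    (hx : Q ∉ x) (hQA : Q ≠ A) (hB : B ∈ x) (hC : C ∈ x) (h1 : Al P L Q A B)
    (h2 : Al P L Q A C) : B = C := by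
  obtain ⟨g, gQ, gA, gB⟩ := h1
  obtain ⟨g', gQ', gA', gC⟩ := h2
  have h3 : g = g' := by
    rcases Nondegenerate.eq_or_eq gQ gA gQ' gA' with h | h
    · exact absurd h hQA
    · exact h
  subst h3
  rcases Nondegenerate.eq_or_eq hB hC gB gC with h | h
  · exact h
  · exact absurd (h ▸ gQ) hx

theorem otb1_symm {P L : Type} [Membership P L] {Q A B : P} (h : Al P L Q A B) :
    Al P L Q B A := by
  obtain ⟨g, gQ, gA, gB⟩ := h
  exact ⟨g, gQ, gB, gA⟩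

theorem s_OTB1 : S_OTB1 := by
  intro P L _ _ Q Z Z' m x hm hx hZ hZ' hA
  choose f hf using otb1_ex hm hx hZ hZ' hA
  choose g hg using otb1_ex hx hm hZ' hZ (otb1_symm hA)
  have ne : ∀ {y : L}, Q ∉ y → ∀ X : P, X ∈ y → Q ≠ X := by
    intro y hy X hX h
    exact hy (h ▸ hX)
  refine ⟨⟨f, g, ?_, ?_⟩, hf⟩
  · intro X
    apply Subtype.ext
    exact otb1_uq hm (ne hx _ (f X).2.1) (g (f X)).2.1 X.2.1 (hg (f X)) (otb1_symm (hf X))
  · intro Y
    apply Subtype.ext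
    exact otb1_uq hx (ne hm _ (g Y).2.1) (f (g Y)).2.1 Y.2.1 (hf (g Y)) (otb1_symm (hg Y))

end Pool.Agent.TP3
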