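import Pool.Agent.Lib.MP_a1e562_co.OT.Stm

/-!
# Piece [OT B2]: existence of the tournament of a flag
-/

set_option autoImplicit false

namespace Pool.Agent.TP3

open Configuration

/-- the product law for signs -/
theorem otb2_sw {a b c d : ℤ} (ha : b * b = 1) (hb : c * c = 1) (h : a * b = c * d) :
    b * d = a * c := by
  have h1 : b * d = (b * d) * (c * c) := by rw [hb, mul_one]
  rw [h1]
  have h2 : b * d * (c * c) = (b * c) * (c * d) := by ring
  rw [h2, ← h]
  have h3 : b * c * (a * b) = a * c * (b * b) := by ring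
  rw [h3, ha, mul_one]

theorem s_OTB2 : S_OTB2 := by
  classical
  intro P L _ _ s hs Z m hZ
  obtain ⟨Q, hQ⟩ := Nondegenerate.exists_point (P := P) m
  obtain ⟨g0, hg0⟩ := Nondegenerate.exists_line (L := L) Z
  have hmg : m ≠ g0 := by
    intro h
    exact hg0 (h ▸ hZ)
  obtain ⟨O, hOm, hOZ⟩ : ∃ O : P, O ∈ m ∧ O ≠ Z := by
    have h1 := HasPoints.mkPoint_ax (P := P) hmg
    refine ⟨HasPoints.mkPoint hmg, h1.1, ?_⟩
    intro h
    exact hg0 (h ▸ h1.2)
  have hln : ∀ X : P, ∃ g : L, X ∈ m → Q ∈ g ∧ X ∈ g := by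
    intro X
    by_cases hX : X ∈ m
    · have hQX : Q ≠ X := by
        intro h
        exact hQ (h ▸ hX)
      exact ⟨HasLines.mkLine hQX, fun _ => HasLines.mkLine_ax hQX⟩
    · exact ⟨m, fun h => absurd h hX⟩
  choose ln hln using hln
  have hlnm : ∀ X : P, X ∈ m → ln X ≠ m := by
    intro X hX h
    exact hQ (h ▸ (hln X hX).1)
  have sq : ∀ A l, s A l * s A l = 1 := by
    intro A l
    rcases hs.val A l with h | h <;> rw [h] <;> norm_num
  -- the auxiliary functions
  obtain ⟨u, hu⟩ : ∃ u : P → P → ℤ, ∀ A C, u A C = s A (ln C) * s A (ln Z) := ⟨_, fun _ _ => rfl⟩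
  have usq : ∀ A C, u A C * u A C = 1 := by
    intro A C
    rw [hu]
    have : s A (ln C) * s A (ln Z) * (s A (ln C) * s A (ln Z)) =
      (s A (ln C) * s A (ln C)) * (s A (ln Z) * s A (ln Z)) := by ring
    rw [this, sq, sq, one_mul]
  have hw : ∀ A B C : P, A ∈ m → B ∈ m → C ∈ m → A ≠ B → B ≠ C → A ≠ C →
      (u A B * u B A) * (u B C * u C B) * (u A C * u C A) = -1 := by
    intro A B C hA hB hC hAB hBC hAC
    have h := hs.s2 A B C Q m (ln A) (ln B) (ln C) hAB hBC hAC hA hB hC hQ (hln A hA).1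
      (hln A hA).2 (hln B hB).1 (hln B hB).2 (hln C hC).1 (hln C hC).2
    simp only [hu]
    have h2 : s A (ln B) * s A (ln Z) * (s B (ln A) * s B (ln Z)) *
      (s B (ln C) * s B (ln Z) * (s C (ln B) * s C (ln Z))) *
      (s A (ln C) * s A (ln Z) * (s C (ln A) * s C (ln Z))) =
      (s A (ln B) * s A (ln C) * s B (ln A) * s B (ln C) * s C (ln A) * s C (ln B)) *
      (s A (ln Z) * s A (ln Z)) * (s B (ln Z) * s B (ln Z)) * (s C (ln Z) * s C (ln Z)) := by ring
    rw [h2, h, sq, sq, sq]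
    norm_num
  obtain ⟨f, hfO, hfN⟩ : ∃ f : P → ℤ, f O = 1 ∧ ∀ A, A ≠ O → f A = -(u O A * u A O) := by
    refine ⟨fun A => if A = O then 1 else -(u O A * u A O), ?_, ?_⟩
    · simp
    · intro A hA
      simp [hA]
  have fsq : ∀ A, f A * f A = 1 := by
    intro A
    by_cases h : A = O
    · rw [h, hfO, one_mul]
    · rw [hfN A h]
      have : -(u O A * u A O) * -(u O A * u A O) = (u O A * u O A) * (u A O * u A O) := by ring
      rw [this, usq, usq, one_mul]
  have key : ∀ A B : P, A ∈ m → B ∈ m → A ≠ B → (u A B * f B) * (u B A * f A) = -1 := by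
    intro A B hA hB hAB
    by_cases h1 : A = O
    · subst h1
      rw [hfO, hfN B (Ne.symm hAB)]
      have : u A B * -(u A B * u B A) * (u B A * 1) =
        -((u A B * u A B) * (u B A * u B A)) := by ring
      rw [this, usq, usq, one_mul]
    · by_cases h2 : B = O
      · subst h2
        rw [hfO, hfN A h1]
        have : u A B * 1 * (u B A * -(u B A * u A B)) =
          -((u A B * u A B) * (u B A * u B A)) := by ring
        rw [this, usq, usq, one_mul]
      · rw [hfN A h1, hfN B h2]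
        have h3 := hw O A B hOm hA hB (Ne.symm h1) hAB (Ne.symm h2)
        rw [← h3]
        ring
  refine ⟨fun A C => if A = C then 0 else u A C * f C, ⟨?_, ?_⟩, ?_⟩
  · -- antisymmetric
    intro A B
    by_cases hAB : A = B
    · subst hAB
      simp
    · have hAB' : (A : P) ≠ B := fun h => hAB (Subtype.ext h)
      have h1 := key A B A.2.1 B.2.1 hAB'
      simp only [hAB, Ne.symm hAB, if_false]
      have h2 : u A B * f B * (u A B * f B) = 1 := by
        have : u A B * f B * (u A B * f B) = (u A B * u A B) * (f B * f B) := by ring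
        rw [this, usq, fsq, one_mul]
      have h3 : u B A * f A = (u A B * f B * (u A B * f B)) * (u B A * f A) := by
        rw [h2, one_mul]
      rw [h3, mul_assoc, h1]
      ring
  · -- values
    intro A B hAB
    have h2 : u A B * f B * (u A B * f B) = 1 := by
      have : u A B * f B * (u A B * f B) = (u A B * u A B) * (f B * f B) := by ring
      rw [this, usq, fsq, one_mul]
    simp only [hAB, if_false]
    exact mul_self_eq_one_iff.1 h2
  · -- products
    intro A B C hAC hBC l z hCl hlm hZz hzm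
    simp only [hAC, hBC, if_false]
    have nin : ∀ X Y : P, X ∈ m → Y ∈ m → X ≠ Y → ∀ g : L, Y ∈ g → g ≠ m → X ∉ g := by
      intro X Y hX hY hXY g hYg hgm hXg
      rcases Nondegenerate.eq_or_eq hX hY hXg hYg with h | h
      · exact hXY h
      · exact hgm h.symm
    have hAC' : (A : P) ≠ C := fun h => hAC (Subtype.ext h)
    have hBC' : (B : P) ≠ C := fun h => hBC (Subtype.ext h)
    have e1 := hs.s1 A B C l (ln C) m (nin A C A.2.1 C.2.1 hAC' l hCl hlm)
      (nin A C A.2.1 C.2.1 hAC' _ (hln C C.2.1).2 (hlnm C C.2.1))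
      (nin B C B.2.1 C.2.1 hBC' l hCl hlm)
      (nin B C B.2.1 C.2.1 hBC' _ (hln C C.2.1).2 (hlnm C C.2.1))
      hCl (hln C C.2.1).2 A.2.1 B.2.1 C.2.1
    have e2 := hs.s1 A B Z z (ln Z) m (nin A Z A.2.1 hZ A.2.2 z hZz hzm)
      (nin A Z A.2.1 hZ A.2.2 _ (hln Z hZ).2 (hlnm Z hZ))
      (nin B Z B.2.1 hZ B.2.2 z hZz hzm)
      (nin B Z B.2.1 hZ B.2.2 _ (hln Z hZ).2 (hlnm Z hZ))
      hZz (hln Z hZ).2 A.2.1 B.2.1 hZ
    have f1 := otb2_sw (sq _ _) (sq _ _) e1
    have f2 := otb2_sw (sq _ _) (sq _ _) e2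
    rw [hu, hu]
    have h2 : s A (ln C) * s A (ln Z) * f C * (s B (ln C) * s B (ln Z) * f C) =
      (s A (ln C) * s B (ln C)) * (s A (ln Z) * s B (ln Z)) * (f C * f C) := by ring
    rw [h2, f1, f2, fsq]
    ring

end Pool.Agent.TP3
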