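import Pool.Agent.Lib.MP_a1e562_co.OT.Stm

/-!
# Piece [OT B3]: perspectivities preserve the tournaments of flags up to the sign
-/

set_option autoImplicit false

namespace Pool.Agent.TP3

open Configuration

private theorem otb3_nin {P L : Type} [Membership P L] [ProjectivePlane P L] {m : L} {X Y : P}
    (hX : X ∈ m) (hY : Y ∈ m) (hXY : X ≠ Y) {g : L} (hYg : Y ∈ g) (hgm : g ≠ m) : X ∉ g := by
  intro hXg
  rcases Nondegenerate.eq_or_eq hX hY hXg hYg with h | h
  · exact hXY h
  · exact hgm h.symm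

private theorem otb3_pm {a b : ℤ} (ha : a = 1 ∨ a = -1) (hb : b = 1 ∨ b = -1) (h : a * b = 1) :
    a = b := by
  rcases ha with rfl | rfl <;> rcases hb with rfl | rfl <;> omega

private theorem otb3_mul {a b : ℤ} (ha : a = 1 ∨ a = -1) (hb : b = 1 ∨ b = -1) :
    a * b = 1 ∨ a * b = -1 := by
  rcases ha with rfl | rfl <;> rcases hb with rfl | rfl <;> simp

private theorem otb3_sq {a : ℤ} (ha : a = 1 ∨ a = -1) : a * a = 1 := by
  rcases ha with rfl | rfl <;> norm_num

/-- a function of pairs which is symmetric and does not depend on the first argument is constant -/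
private theorem otb3_const {X : Type} (r : X → X → ℤ)
    (h1 : ∀ A B C, A ≠ C → B ≠ C → r A C = r B C) (h2 : ∀ A C, A ≠ C → r A C = r C A)
    (A C A1 C1 : X) (hAC : A ≠ C) (hAC1 : A1 ≠ C1) : r A C = r A1 C1 := by
  by_cases h : C = C1
  · subst h
    exact h1 A A1 C hAC hAC1
  · rw [h1 A C1 C hAC (Ne.symm h), h2 C1 C (Ne.symm h), h1 C A1 C1 h hAC1]

theorem s_OTB3 : S_OTB3 := by
  classical
  intro P L _ _ s hs Q Z Z' m x hQm hQx hZ hZ' hQZ f hf χ χ' hχ hχ'
  obtain ⟨hT, hp⟩ := hχ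
  obtain ⟨hT', hp'⟩ := hχ'
  have hzero : ∀ A, χ A A = 0 := by
    intro A
    have := hT.anti A A
    omega
  have hzero' : ∀ A, χ' A A = 0 := by
    intro A
    have := hT'.anti A A
    omega
  -- equality of products
  have key : ∀ A B C : Aff P L Z m, A ≠ C → B ≠ C →
      χ A C * χ B C = χ' (f A) (f C) * χ' (f B) (f C) := by
    intro A B C hAC hBC
    obtain ⟨l, hQl, hCl, hC'l⟩ := hf C
    obtain ⟨z, hQz, hZz, hZ'z⟩ := hQZ
    have hlm : l ≠ m := fun h => hQm (h ▸ hQl)
    have hlx : l ≠ x := fun h => hQx (h ▸ hQl)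
    have hzm : z ≠ m := fun h => hQm (h ▸ hQz)
    have hzx : z ≠ x := fun h => hQx (h ▸ hQz)
    have aux : ∀ D : Aff P L Z m, D ≠ C →
        s (D : P) l * s (D : P) z = s (f D : P) l * s (f D : P) z := by
      intro D hDC
      obtain ⟨k, hQk, hDk, hD'k⟩ := hf D
      have hDC' : (D : P) ≠ C := fun h => hDC (Subtype.ext h)
      have hfDC : (f D : P) ≠ f C := fun h => hDC (f.injective (Subtype.ext h))
      exact hs.s1 D (f D) Q l z k (otb3_nin D.2.1 C.2.1 hDC' hCl hlm)
        (otb3_nin D.2.1 hZ D.2.2 hZz hzm)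
        (otb3_nin (f D).2.1 (f C).2.1 hfDC hC'l hlx)
        (otb3_nin (f D).2.1 hZ' (f D).2.2 hZ'z hzx) hQl hQz hDk hD'k hQk
    have hfAC : f A ≠ f C := fun h => hAC (f.injective h)
    have hfBC : f B ≠ f C := fun h => hBC (f.injective h)
    rw [hp A B C hAC hBC l z hCl hlm hZz hzm,
      hp' (f A) (f B) (f C) hfAC hfBC l z hC'l hlx hZ'z hzx]
    have e1 := aux A hAC
    have e2 := aux B hBC
    have e3 : s (A : P) l * s (B : P) l * s (A : P) z * s (B : P) z =
        (s (A : P) l * s (A : P) z) * (s (B : P) l * s (B : P) z) := by ring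
    have e4 : s (f A : P) l * s (f B : P) l * s (f A : P) z * s (f B : P) z =
        (s (f A : P) l * s (f A : P) z) * (s (f B : P) l * s (f B : P) z) := by ring
    rw [e3, e4, e1, e2]
  have hval' : ∀ A C : Aff P L Z m, A ≠ C →
      χ' (f A) (f C) = 1 ∨ χ' (f A) (f C) = -1 := by
    intro A C hAC
    exact hT'.val _ _ fun h => hAC (f.injective h)
  have hr1 : ∀ A B C : Aff P L Z m, A ≠ C → B ≠ C →
      χ A C * χ' (f A) (f C) = χ B C * χ' (f B) (f C) := by
    intro A B C hAC hBC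
    apply otb3_pm (otb3_mul (hT.val _ _ hAC) (hval' _ _ hAC))
      (otb3_mul (hT.val _ _ hBC) (hval' _ _ hBC))
    have h1 : χ A C * χ' (f A) (f C) * (χ B C * χ' (f B) (f C)) =
        (χ A C * χ B C) * (χ' (f A) (f C) * χ' (f B) (f C)) := by ring
    rw [h1, ← key A B C hAC hBC]
    exact otb3_sq (otb3_mul (hT.val _ _ hAC) (hT.val _ _ hBC))
  have hr2 : ∀ A C : Aff P L Z m, A ≠ C →
      χ A C * χ' (f A) (f C) = χ C A * χ' (f C) (f A) := by
    intro A C _
    rw [hT.anti A C, hT'.anti (f A) (f C)]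
    ring
  have hr : ∀ A C A1 C1 : Aff P L Z m, A ≠ C → A1 ≠ C1 →
      χ A C * χ' (f A) (f C) = χ A1 C1 * χ' (f A1) (f C1) :=
    fun A C A1 C1 hAC hAC1 =>
      otb3_const (fun A C => χ A C * χ' (f A) (f C)) hr1 hr2 A C A1 C1 hAC hAC1
  by_cases h : ∃ A C : Aff P L Z m, A ≠ C ∧ χ' (f A) (f C) = -χ A C
  · right
    obtain ⟨A0, C0, hne, h0⟩ := h
    intro A C
    by_cases hAC : A = C
    · subst hAC
      rw [hzero, hzero', neg_zero]
    · have h1 := hr A C A0 C0 hAC hne
      rw [h0] at h1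
      have h2 := otb3_sq (hT.val _ _ hne)
      have h3 := otb3_sq (hT.val _ _ hAC)
      have h4 : χ A C * χ' (f A) (f C) = -1 := by
        rw [h1]
        have : χ A0 C0 * -χ A0 C0 = -(χ A0 C0 * χ A0 C0) := by ring
        rw [this, h2]
      have h5 : χ' (f A) (f C) = (χ A C * χ A C) * χ' (f A) (f C) := by rw [h3, one_mul]
      rw [h5, mul_assoc, h4]
      ring
  · left
    intro A C
    by_cases hAC : A = C
    · subst hAC
      rw [hzero, hzero']
    · have h1 : χ' (f A) (f C) ≠ -χ A C := fun h2 => h ⟨A, C, hAC, h2⟩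
      rcases hT.val _ _ hAC with h2 | h2
      · rcases hval' _ _ hAC with h3 | h3
        · rw [h2, h3]
        · exact absurd (by rw [h2, h3]) h1
      · rcases hval' _ _ hAC with h3 | h3
        · exact absurd (by rw [h2, h3]; norm_num) h1
        · rw [h2, h3]

end Pool.Agent.TP3
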