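import Pool.Agent.Lib.MP_a1e562_co.OT.Stm

/-! # [OT B4] 2-transitivity -/

set_option autoImplicit false

namespace Pool.Agent.TP3

open Configuration

namespace OTB4

variable {P L : Type} [Membership P L] [ProjectivePlane P L]

theorem ln {p q : P} {l m : L} (h : p ≠ q) (h1 : p ∈ l) (h2 : q ∈ l) (h3 : p ∈ m)
    (h4 : q ∈ m) : l = m :=
  (Nondegenerate.eq_or_eq h1 h2 h3 h4).resolve_left h

theorem pt {p q : P} {l m : L} (h : l ≠ m) (h1 : p ∈ l) (h2 : q ∈ l) (h3 : p ∈ m)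
    (h4 : q ∈ m) : p = q :=
  (Nondegenerate.eq_or_eq h1 h2 h3 h4).resolve_right h

theorem exLine {p q : P} (h : p ≠ q) : ∃ l : L, p ∈ l ∧ q ∈ l :=
  ⟨HasLines.mkLine h, (HasLines.mkLine_ax h).1, (HasLines.mkLine_ax h).2⟩

theorem exPt {u v : L} (h : u ≠ v) : ∃ p : P, p ∈ u ∧ p ∈ v :=
  ⟨HasPoints.mkPoint h, (HasPoints.mkPoint_ax h).1, (HasPoints.mkPoint_ax h).2⟩

/-- two points off a line -/
theorem exTwo (m : L) : ∃ p q : P, p ≠ q ∧ p ∉ m ∧ q ∉ m := by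
  obtain ⟨p, hp⟩ : ∃ p : P, p ∉ m := Nondegenerate.exists_point m
  by_contra hcon
  push Not at hcon
  -- all points other than `p` are on `m`
  have hall : ∀ q : P, q ≠ p → q ∈ m := fun q hq => hcon p q (Ne.symm hq) hp
  obtain ⟨p1, p2, p3, l1, l2, l3, h12, h13, h21, h22, h23, h31, h32, h33⟩ :=
    ProjectivePlane.exists_config (P := P) (L := L)
  have n12 : p1 ≠ p2 := fun e => h12 (e ▸ h22)
  have n13 : p1 ≠ p3 := fun e => h12 (e ▸ h32)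
  have n23 : p2 ≠ p3 := fun e => h33 (e ▸ h23)
  by_cases e1 : p1 = p
  · have i2 : p2 ∈ m := hall _ (fun e => n12 (e1.trans e.symm))
    have i3 : p3 ∈ m := hall _ (fun e => n13 (e1.trans e.symm))
    have hl3 : l3 ≠ m := fun e => h33 (e ▸ i3)
    have hl : l3 ≠ l1 := fun e => h21 (e ▸ h23)
    obtain ⟨x, hx3, hx1⟩ := exPt (P := P) hl
    have hxo : x ≠ p := fun e => h13 (by rw [e1, ← e]; exact hx3)
    have hx : x = p2 := pt hl3 hx3 h23 (hall x hxo) i2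
    exact h21 (hx ▸ hx1)
  · have i1 : p1 ∈ m := hall _ e1
    have hl2 : l2 ≠ m := fun e => h12 (e ▸ i1)
    have hl : l1 ≠ l2 := fun e => h21 (e ▸ h22)
    obtain ⟨x, hx1, hx2⟩ := exPt (P := P) hl
    by_cases e2 : p2 = p
    · have i3 : p3 ∈ m := hall _ (fun e => n23 (e2.trans e.symm))
      have hxo : x ≠ p := fun e => h21 (by rw [e2, ← e]; exact hx1)
      have hx : x = p3 := pt hl2 hx2 h32 (hall x hxo) i3
      exact h31 (hx ▸ hx1)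
    · have i2 : p2 ∈ m := hall _ e2
      have e3 : p3 = p := by
        by_contra e3
        exact hl2 (ln n23 h22 h32 i2 (hall _ e3))
      have hxo : x ≠ p := fun e => h31 (by rw [e3, ← e]; exact hx1)
      have hx : x = p2 := pt hl2 hx2 h22 (hall x hxo) i2
      exact h21 (hx ▸ hx1)

/-- a line of the pencil with two more points -/
theorem exX (h1 : S_OTB1) {Z : P} {m : L} (hZ : Z ∈ m) {a b : Aff P L Z m} (hab : a ≠ b) :
    ∃ (x : L) (X Y : Aff P L Z x), Z ∈ x ∧ x ≠ m ∧ X ≠ Y := by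
  obtain ⟨p, q, hpq, hp, hq⟩ := exTwo (P := P) m
  have hpZ : p ≠ Z := fun e => hp (e ▸ hZ)
  have hqZ : q ≠ Z := fun e => hq (e ▸ hZ)
  obtain ⟨x, hpx, hZx⟩ := exLine (L := L) hpZ
  have hxm : x ≠ m := fun e => hp (e ▸ hpx)
  by_cases hqx : q ∈ x
  · exact ⟨x, ⟨p, hpx, hpZ⟩, ⟨q, hqx, hqZ⟩, hZx, hxm, fun e => hpq (congrArg Subtype.val e)⟩
  · obtain ⟨g, hg1, hg2⟩ := exLine (L := L) hqZ
    obtain ⟨f, -⟩ := h1 P L q Z Z m x hq hqx hZ hZx ⟨g, hg1, hg2, hg2⟩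
    exact ⟨x, f a, f b, hZx, hxm, fun e => hab (f.injective e)⟩

/-- a perspectivity with given values at two points -/
theorem exQ (h1 : S_OTB1) {Z : P} {m x : L} (hZ : Z ∈ m) (hZx : Z ∈ x) (hxm : x ≠ m)
    {a b : Aff P L Z m} (hab : a ≠ b) {X Y : Aff P L Z x} (hXY : X ≠ Y) :
    ∃ Q : P, Q ∉ m ∧ Q ∉ x ∧ Al P L Q Z Z ∧ ∃ f : Aff P L Z m ≃ Aff P L Z x,
      (∀ A : Aff P L Z m, Al P L Q A (f A)) ∧ f a = X ∧ f b = Y := by
  obtain ⟨a, ham, haZ⟩ := a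
  obtain ⟨b, hbm, hbZ⟩ := b
  obtain ⟨X, hXx, hXZ⟩ := X
  obtain ⟨Y, hYx, hYZ⟩ := Y
  have hab' : a ≠ b := fun e => hab (Subtype.ext e)
  have hXY' : X ≠ Y := fun e => hXY (Subtype.ext e)
  have hax : a ∉ x := fun h => haZ (pt hxm h hZx ham hZ)
  have hbx : b ∉ x := fun h => hbZ (pt hxm h hZx hbm hZ)
  have hXm : X ∉ m := fun h => hXZ (pt hxm hXx hZx h hZ)
  have hYm : Y ∉ m := fun h => hYZ (pt hxm hYx hZx h hZ)
  obtain ⟨g1, hag, hXg⟩ := exLine (L := L) (fun e => hXm (e ▸ ham) : a ≠ X)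
  obtain ⟨g2, hbg, hYg⟩ := exLine (L := L) (fun e => hYm (e ▸ hbm) : b ≠ Y)
  have hg1m : g1 ≠ m := fun e => hXm (e ▸ hXg)
  have hg2m : g2 ≠ m := fun e => hYm (e ▸ hYg)
  have hg1x : g1 ≠ x := fun e => hax (e ▸ hag)
  have hg2x : g2 ≠ x := fun e => hbx (e ▸ hbg)
  have hg : g1 ≠ g2 := by
    intro e
    exact hg1m (ln hab' hag (e ▸ hbg) ham hbm)
  obtain ⟨Q, hQ1, hQ2⟩ := exPt (P := P) hg
  have hQm : Q ∉ m := by
    intro h
    have e1 : Q = a := pt hg1m hQ1 hag h ham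
    have e2 : Q = b := pt hg2m hQ2 hbg h hbm
    exact hab' (e1.symm.trans e2)
  have hQx : Q ∉ x := by
    intro h
    have e1 : Q = X := pt hg1x hQ1 hXg h hXx
    have e2 : Q = Y := pt hg2x hQ2 hYg h hYx
    exact hXY' (e1.symm.trans e2)
  obtain ⟨g, hgQ, hgZ⟩ := exLine (L := L) (fun e => hQm (e ▸ hZ) : Q ≠ Z)
  have hal : Al P L Q Z Z := ⟨g, hgQ, hgZ, hgZ⟩
  obtain ⟨f, hf⟩ := h1 P L Q Z Z m x hQm hQx hZ hZx hal
  refine ⟨Q, hQm, hQx, hal, f, hf, ?_, ?_⟩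
  · apply Subtype.ext
    obtain ⟨l, hl1, hl2, hl3⟩ := hf ⟨a, ham, haZ⟩
    have e : l = g1 := ln (fun e => hQm (e ▸ ham) : Q ≠ a) hl1 hl2 hQ1 hag
    rw [e] at hl3
    exact pt hg1x hl3 hXg (f ⟨a, ham, haZ⟩).2.1 hXx
  · apply Subtype.ext
    obtain ⟨l, hl1, hl2, hl3⟩ := hf ⟨b, hbm, hbZ⟩
    have e : l = g2 := ln (fun e => hQm (e ▸ hbm) : Q ≠ b) hl1 hl2 hQ2 hbg
    rw [e] at hl3
    exact pt hg2x hl3 hYg (f ⟨b, hbm, hbZ⟩).2.1 hYx

end OTB4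

theorem s_OTB4 : S_OTB4 := by
  intro h1 h2 h3 P L _ _ s hs Z m hZ χ hχ a b c d hab hcd
  obtain ⟨x, X, Y, hZx, hxm, hXY⟩ := OTB4.exX h1 hZ hab
  obtain ⟨Q1, hQ1m, hQ1x, hal1, f1, hf1, hf1a, hf1b⟩ := OTB4.exQ h1 hZ hZx hxm hab hXY
  obtain ⟨Q2, hQ2m, hQ2x, hal2, f2, hf2, hf2c, hf2d⟩ := OTB4.exQ h1 hZ hZx hxm hcd hXY
  obtain ⟨χ', hχ'⟩ := h2 P L s hs Z x hZx
  have k1 := h3 P L s hs Q1 Z Z m x hQ1m hQ1x hZ hZx hal1 f1 hf1 χ χ' hχ hχ'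
  have k2 := h3 P L s hs Q2 Z Z m x hQ2m hQ2x hZ hZx hal2 f2 hf2 χ χ' hχ hχ'
  refine ⟨f1.trans f2.symm, ?_, ?_, ?_⟩
  · rcases k1 with k1 | k1 <;> rcases k2 with k2 | k2
    · left
      intro u v
      rw [← k2, ← k1]
      simp
    · right
      intro u v
      have := k2 (f2.symm (f1 u)) (f2.symm (f1 v))
      rw [Equiv.apply_symm_apply, Equiv.apply_symm_apply, k1] at this
      rw [this, neg_neg]
      rfl
    · right
      intro u v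
      have := k2 (f2.symm (f1 u)) (f2.symm (f1 v))
      rw [Equiv.apply_symm_apply, Equiv.apply_symm_apply, k1] at this
      rw [this]
      rfl
    · left
      intro u v
      have := k2 (f2.symm (f1 u)) (f2.symm (f1 v))
      rw [Equiv.apply_symm_apply, Equiv.apply_symm_apply, k1] at this
      rw [neg_inj.1 this]
      rfl
  · rw [Equiv.trans_apply, hf1a, ← hf2c, Equiv.symm_apply_apply]
  · rw [Equiv.trans_apply, hf1b, ← hf2d, Equiv.symm_apply_apply]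

end Pool.Agent.TP3
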