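import Pool.Agent.Lib.MP_a1e562_co.OT.Stm

/-!
# [OT B5] The number of points of a line other than `Z`
-/

set_option autoImplicit false

namespace Pool.Agent.TP3

open Configuration

theorem s_OTB5 : S_OTB5 := by
  intro P L _ _ _ _ Z m hZ
  have h1 : Nat.card {X : P // X ∈ m} = ProjectivePlane.order P L + 1 :=
    ProjectivePlane.pointCount_eq P m
  have e : Aff P L Z m ≃ {X : {X : P // X ∈ m} // X ≠ ⟨Z, hZ⟩} :=
    { toFun := fun X => ⟨⟨X.1, X.2.1⟩, fun h => X.2.2 (congrArg Subtype.val h)⟩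
      invFun := fun X => ⟨X.1.1, X.1.2, fun h => X.2 (Subtype.ext h)⟩
      left_inv := fun _ => rfl
      right_inv := fun _ => rfl }
  have e2 : Option {X : {X : P // X ∈ m} // X ≠ ⟨Z, hZ⟩} ≃ {X : P // X ∈ m} := by
    classical
    exact Equiv.optionSubtypeNe _
  have h2 : Nat.card (Option {X : {X : P // X ∈ m} // X ≠ ⟨Z, hZ⟩}) =
      Nat.card {X : {X : P // X ∈ m} // X ≠ ⟨Z, hZ⟩} + 1 := Finite.card_option
  have h3 := Nat.card_congr e2
  have h4 := Nat.card_congr e
  omega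

end Pool.Agent.TP3
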