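import Pool.Agent.Lib.MP_a1e562_co.OT.Stm

set_option autoImplicit false

namespace Pool.Agent.TP3

theorem s_OTB6 : S_OTB6 := by
  intro X χ O hm h3 htr hfix
  have h1 : (1 : Equiv.Perm X) ∈ Trn χ := by
    obtain ⟨g, hg, hgO⟩ := htr O O
    rwa [hfix g hg O hgO] at hg
  have hinv : ∀ g ∈ Trn χ, g⁻¹ ∈ Trn χ := by
    intro g hg
    have h : g⁻¹ = g * g := by
      rw [inv_eq_iff_mul_eq_one]
      rw [← mul_assoc]
      exact h3 g hg
    rw [h]
    exact (hm g hg g hg).1
  let T : Subgroup (Equiv.Perm X) :=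
    { carrier := Trn χ
      one_mem' := h1
      mul_mem' := fun {a b} ha hb => (hm a ha b hb).1
      inv_mem' := fun {a} ha => hinv a ha }
  have hT : ∀ g, g ∈ T ↔ g ∈ Trn χ := fun g => Iff.rfl
  let cg : CommGroup T :=
    { (inferInstance : Group T) with
      mul_comm := by
        intro a b
        apply Subtype.ext
        exact (hm a.1 a.2 b.1 b.2).2 }
  have huniq : ∀ g ∈ Trn χ, ∀ h ∈ Trn χ, g O = h O → g = h := by
    intro g hg h hh hgh
    have h2 : g⁻¹ * h ∈ Trn χ := (hm _ (hinv g hg) h hh).1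
    have h4 : (g⁻¹ * h) O = O := by
      rw [Equiv.Perm.mul_apply, ← hgh, Equiv.Perm.inv_eq_iff_eq]
    have h5 := hfix _ h2 O h4
    exact (inv_mul_eq_one.mp h5)
  choose f hf1 hf2 using fun A => htr O A
  let e : X ≃ T :=
    { toFun := fun A => ⟨f A, hf1 A⟩
      invFun := fun t => t.1 O
      left_inv := fun A => hf2 A
      right_inv := fun t => Subtype.ext (huniq _ (hf1 _) _ t.2 (hf2 _)) }
  refine ⟨Additive T, @Additive.addCommGroup T cg, e.trans Additive.ofMul, ?_, ?_⟩
  · intro v
    apply Additive.toMul.injective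
    apply Subtype.ext
    exact h3 _ v.toMul.2
  · intro A B C
    have key : ((e.trans Additive.ofMul) A + (e.trans Additive.ofMul) B
        + (e.trans Additive.ofMul) C = (0 : Additive T)) ↔ f A * f B * f C = 1 := by
      constructor
      · intro h
        have := congrArg (fun v => ((Additive.toMul v : T) : Equiv.Perm X)) h
        exact this
      · intro h
        apply Additive.toMul.injective
        apply Subtype.ext
        exact h
    refine Iff.trans ?_ key.symm
    constructor
    · rintro ⟨t, ht, hAB, hBC⟩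
      have hB : f B = t * f A := by
        apply huniq _ (hf1 B) _ (hm t ht _ (hf1 A)).1
        rw [hf2, Equiv.Perm.mul_apply, hf2, hAB]
      have hC : f C = t * f B := by
        apply huniq _ (hf1 C) _ (hm t ht _ (hf1 B)).1
        rw [hf2, Equiv.Perm.mul_apply, hf2, hBC]
      have hc : f A * t = t * f A := (hm _ (hf1 A) t ht).2
      rw [hC, hB]
      calc f A * (t * f A) * (t * (t * f A)) = (f A * t) * (f A * t) * (t * f A) := by group
        _ = (t * f A) * (t * f A) * (t * f A) := by rw [hc]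
        _ = 1 := h3 _ (hm t ht _ (hf1 A)).1
    · intro h
      refine ⟨f B * (f A)⁻¹, (hm _ (hf1 B) _ (hinv _ (hf1 A))).1, ?_, ?_⟩
      · rw [Equiv.Perm.mul_apply]
        have : (f A)⁻¹ A = O := by
          rw [Equiv.Perm.inv_eq_iff_eq, hf2]
        rw [this, hf2]
      · have hcB : f B * (f A)⁻¹ = (f A)⁻¹ * f B := (hm _ (hf1 B) _ (hinv _ (hf1 A))).2
        have hcBB : f A * f B = f B * f A := (hm _ (hf1 A) _ (hf1 B)).2
        have hC : f C = f B * (f A)⁻¹ * f B := by
          have h6 : f C = (f A * f B)⁻¹ := (inv_eq_of_mul_eq_one_right h).symm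
          have h7 : f B * f B = (f B)⁻¹ := (inv_eq_of_mul_eq_one_left (h3 _ (hf1 B))).symm
          rw [h6, hcB, mul_assoc, h7, hcBB, mul_inv_rev]
        have h9 : (f B * (f A)⁻¹ * f B) O = (f B * (f A)⁻¹) (f B O) := rfl
        rw [← hf2 C, hC, h9, hf2]

end Pool.Agent.TP3
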