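import Pool.Agent.Lib.MP_a1e562_co.OT.Stm

/-! [OT B7] The affine structures. -/

set_option autoImplicit false

namespace Pool.Agent.TP3

open Configuration

theorem otb7_transport {X Y : Type} {χ : X → X → ℤ} {χ' : Y → Y → ℤ} (f : X ≃ Y)
    (h : (∀ A C, χ' (f A) (f C) = χ A C) ∨ ∀ A C, χ' (f A) (f C) = -χ A C)
    {t : Equiv.Perm X} (ht : t ∈ Trn χ) :
    (f.symm.trans (t.trans f) : Equiv.Perm Y) ∈ Trn χ' := by
  obtain ⟨hp, hi⟩ := ht
  refine ⟨?_, ?_⟩
  · intro a b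
    obtain ⟨a, rfl⟩ := f.surjective a
    obtain ⟨b, rfl⟩ := f.surjective b
    simp only [Equiv.trans_apply, Equiv.symm_apply_apply]
    rcases h with h | h
    · rw [h, h, hp]
    · rw [h, h, hp]
  · intro τ hτ hrev
    have hττ : ∀ y, τ (τ y) = y := fun y => by
      rw [← Equiv.Perm.mul_apply, hτ, Equiv.Perm.one_apply]
    have h1 := hi (f.trans (τ.trans f.symm)) (by
      ext x
      simp [hττ]) (by
      intro a b
      have h2 := hrev (f a) (f b)
      have e1 : τ (f a) = f (f.symm (τ (f a))) := by simp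
      have e2 : τ (f b) = f (f.symm (τ (f b))) := by simp
      rcases h with h | h
      · rw [e1, e2, h, h] at h2
        simpa using h2
      · rw [e1, e2, h, h] at h2
        simp only [Equiv.trans_apply]
        omega)
    ext y
    have h3 := Equiv.ext_iff.1 h1 (f.symm y)
    simp only [Equiv.Perm.mul_apply, Equiv.trans_apply, Equiv.apply_symm_apply] at h3
    simp only [Equiv.Perm.mul_apply, Equiv.trans_apply]
    rw [← f.apply_symm_apply (τ (f (t (f.symm (τ y))))), h3]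
    symm
    rw [Equiv.Perm.inv_def]
    apply (Equiv.symm_apply_eq _).2
    simp

theorem otb7_al_refl {P L : Type} [Membership P L] [ProjectivePlane P L] {Q : P} {m : L} (hQ : Q ∉ m)
    {A : P} (hA : A ∈ m) : Al P L Q A A := by
  have hne : Q ≠ A := fun e => hQ (e ▸ hA)
  exact ⟨HasLines.mkLine hne, (HasLines.mkLine_ax hne).1, (HasLines.mkLine_ax hne).2,
    (HasLines.mkLine_ax hne).2⟩

theorem otb7_al_unique {P L : Type} [Membership P L] [ProjectivePlane P L] {Q A B C : P} {m x : L}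
    (hQm : Q ∉ m) (hQx : Q ∉ x) (hA : A ∈ m) (hB : B ∈ x) (hC : C ∈ x) (h1 : Al P L Q A B)
    (h2 : Al P L Q A C) : B = C := by
  obtain ⟨g, g1, g2, g3⟩ := h1
  obtain ⟨g', g1', g2', g3'⟩ := h2
  rcases Nondegenerate.eq_or_eq g1 g2 g1' g2' with e | e
  · exact absurd (e ▸ hA) hQm
  · subst e
    rcases Nondegenerate.eq_or_eq g3 g3' hB hC with e | e
    · exact e
    · exact absurd (e ▸ g1) hQx

theorem s_OTB7 : S_OTB7 := by
  intro h1 h2 h3 h4 h5 h6 hT P L _ _ _ _ s hs hq4 hq3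
  refine ⟨fun Z m A B C => ∃ χ, IsT s Z m χ ∧ ∃ t ∈ Trn χ, t A = B ∧ t B = C, ?_, ?_⟩
  · intro Z m hZm
    obtain ⟨χ0, hχ0⟩ := h2 P L s hs Z m hZm
    have hcard : Nat.card (Aff P L Z m) = ProjectivePlane.order P L := h5 P L Z m hZm
    obtain ⟨c1, c2, c3, c4⟩ := hT (Aff P L Z m) χ0 hχ0.1 (h4 h1 h2 h3 P L s hs Z m hZm χ0 hχ0)
      (by rw [hcard]; exact hq4) (by rw [hcard]; exact hq3)
    have hne : Nonempty (Aff P L Z m) := by
      have hpos : 0 < Nat.card (Aff P L Z m) := by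
        rw [hcard]; omega
      exact (Nat.card_pos_iff.1 hpos).1
    obtain ⟨X0⟩ := hne
    obtain ⟨V, iV, e, hV, he⟩ := h6 (Aff P L Z m) χ0 X0 c1 c2 c3 c4
    refine ⟨V, iV, e, hV, fun A B C => ?_⟩
    rw [← he]
    constructor
    · rintro ⟨χ, hχ, t, ht, htA, htB⟩
      obtain ⟨Q, hQ⟩ := Nondegenerate.exists_point (P := P) m
      have h7 := h3 P L s hs Q Z Z m m hQ hQ hZm hZm (otb7_al_refl hQ hZm) (Equiv.refl _)
        (fun A => otb7_al_refl hQ A.2.1) χ χ0 hχ hχ0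
      have h8 := otb7_transport (Equiv.refl (Aff P L Z m)) h7 ht
      exact ⟨t, h8, htA, htB⟩
    · rintro ⟨t, ht, htA, htB⟩
      exact ⟨χ0, hχ0, t, ht, htA, htB⟩
  · intro Q Z Z' m x hQm hQx hZ hZ' hal A B C A' B' C' hA hB hC hR
    obtain ⟨χ, hχ, t, ht, htA, htB⟩ := hR
    obtain ⟨f, hf⟩ := h1 P L Q Z Z' m x hQm hQx hZ hZ' hal
    have hu : ∀ (X : Aff P L Z m) (X' : Aff P L Z' x), Al P L Q X X' → f X = X' := by
      intro X X' h
      exact Subtype.ext (otb7_al_unique hQm hQx X.2.1 (f X).2.1 X'.2.1 (hf X) h)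
    obtain ⟨χ', hχ'⟩ := h2 P L s hs Z' x hZ'
    have h7 := h3 P L s hs Q Z Z' m x hQm hQx hZ hZ' hal f hf χ χ' hχ hχ'
    refine ⟨χ', hχ', _, otb7_transport f h7 ht, ?_, ?_⟩
    · rw [← hu A A' hA, ← hu B B' hB, ← htA]
      simp
    · rw [← hu B B' hB, ← hu C C' hC, ← htB]
      simp

end Pool.Agent.TP3
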