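import Pool.Agent.Lib.MP_a1e562_co.OT.Stm

set_option autoImplicit false

namespace Pool.Agent.TP3

open Configuration

theorem s_OTD1 : S_OTD1 := by
  intro P L _ _ Z E O inf m h hF
  obtain ⟨Zi, Zm, Ei, Eh, Om, Oh, im, EZ, OZ⟩ := hF
  have ln : ∀ {p q : P}, p ≠ q → ∃ l : L, p ∈ l ∧ q ∈ l :=
    fun hne => ⟨HasLines.mkLine hne, HasLines.mkLine_ax hne⟩
  have pt : ∀ {l k : L}, l ≠ k → ∃ p : P, p ∈ l ∧ p ∈ k :=
    fun hne => ⟨HasPoints.mkPoint hne, HasPoints.mkPoint_ax hne⟩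
  have le : ∀ {p q : P} {l k : L}, p ≠ q → p ∈ l → q ∈ l → p ∈ k → q ∈ k → l = k := by
    intro p q l k hne h1 h2 h3 h4
    exact (Nondegenerate.eq_or_eq h1 h2 h3 h4).resolve_left hne
  have pe : ∀ {p q : P} {l k : L}, l ≠ k → p ∈ l → p ∈ k → q ∈ l → q ∈ k → p = q := by
    intro p q l k hne h1 h2 h3 h4
    exact (Nondegenerate.eq_or_eq h1 h3 h2 h4).resolve_right hne
  have Zh : Z ∉ h := by
    intro hz
    apply im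
    rw [← le EZ Eh hz Ei Zi, le OZ Oh hz Om Zm]
  have Em : E ∉ m := fun he => im (le EZ Ei Zi he Zm)
  have Oi : O ∉ inf := fun ho => im (le OZ ho Zi Om Zm)
  have hm : h ≠ m := fun e => Zh (e ▸ Zm)
  have hi : h ≠ inf := fun e => Zh (e ▸ Zi)
  have cm : ∀ c : P, c ∈ h → c ≠ O → c ∉ m := fun c hc hcO hcm => hcO (pe hm hc hcm Oh Om)
  have bi : ∀ b : P, b ∈ m → b ≠ Z → b ∉ inf := fun b hb hbZ hbi => hbZ (pe im hbi hb Zi Zm)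
  have key : ∀ c A b : P, c ∈ h → c ≠ E → A ∈ inf → A ≠ Z → b ∈ m → b ≠ Z →
      ∃ (v g : L) (X : P), Z ∈ v ∧ c ∈ v ∧ A ∈ g ∧ b ∈ g ∧ v ≠ g ∧ X ∈ v ∧ X ∈ g ∧ X ∉ inf := by
    intro c A b hc hcE hA hAZ hb hbZ
    have hZc : Z ≠ c := fun e => Zh (e ▸ hc)
    have hAb : A ≠ b := fun e => bi b hb hbZ (e ▸ hA)
    obtain ⟨v, hv1, hv2⟩ := ln hZc
    obtain ⟨g, hg1, hg2⟩ := ln hAb
    have Zg : Z ∉ g := by
      intro hz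
      have : g = inf := le hAZ hg1 hz hA Zi
      exact bi b hb hbZ (this ▸ hg2)
    have vg : v ≠ g := fun e => Zg (e ▸ hv1)
    obtain ⟨X, hX1, hX2⟩ := pt vg
    refine ⟨v, g, X, hv1, hv2, hg1, hg2, vg, hX1, hX2, ?_⟩
    intro hXi
    have vi : v ≠ inf := by
      intro e
      exact hcE (pe hi hc (e ▸ hv2) Eh Ei)
    have : X = Z := pe vi hX1 hXi hv1 Zi
    exact Zg (this ▸ hX2)
  have main : ∀ (c : Aff P L E h) (A : Aff P L Z inf) (b : Aff P L Z m),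
      ∃ y : Aff P L Z m, ∀ y' : Aff P L Z m,
        Tern (L := L) Z E (c : P) (A : P) (b : P) (y' : P) ↔ y' = y := by
    rintro ⟨c, hc, hcE⟩ ⟨A, hA, hAZ⟩ ⟨b, hb, hbZ⟩
    obtain ⟨v, g, X, Zv, cv, Ag, bg, vg, Xv, Xg, Xi⟩ := key c A b hc hcE hA hAZ hb hbZ
    have EX : E ≠ X := fun e => Xi (e ▸ Ei)
    obtain ⟨e, Ee, Xe⟩ := ln EX
    have em : e ≠ m := fun e' => Em (e' ▸ Ee)
    obtain ⟨y, ye, ym⟩ := pt em
    have yZ : y ≠ Z := by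
      intro hy
      have : e = inf := le EZ Ee (hy ▸ ye) Ei Zi
      exact Xi (this ▸ Xe)
    refine ⟨⟨y, ym, yZ⟩, ?_⟩
    rintro ⟨y', hy', hy'Z⟩
    constructor
    · rintro ⟨X', ⟨v', a1, a2, a3⟩, ⟨g', b1, b2, b3⟩, ⟨e', c1, c2, c3⟩⟩
      have hZc : Z ≠ c := fun e => Zh (e ▸ hc)
      have hAb : A ≠ b := fun e => bi b hb hbZ (e ▸ hA)
      have hv : v' = v := le hZc a1 a2 Zv cv
      have hg : g' = g := le hAb b1 b2 Ag bg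
      have hX : X' = X := pe vg (hv ▸ a3) (hg ▸ b3) Xv Xg
      have he : e' = e := le EX c1 (hX ▸ c2) Ee Xe
      exact Subtype.ext (pe em (he ▸ c3) hy' ye ym)
    · intro h1
      have h2 : y' = y := congrArg Subtype.val h1
      subst h2
      exact ⟨X, ⟨v, Zv, cv, Xv⟩, ⟨g, Ag, bg, Xg⟩, ⟨e, Ee, Xe, ye⟩⟩
  choose F hF using main
  refine ⟨F, hF, ?_, ?_, ?_⟩
  · rintro ⟨c, hc, hcE⟩ ⟨A, hA, hAZ⟩ ⟨b, hb, hbZ⟩ hcO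
    change c = O at hcO
    symm
    rw [← hF]
    have hAb : A ≠ b := fun e => bi b hb hbZ (e ▸ hA)
    have hEb : E ≠ b := fun e => Em (e ▸ hb)
    obtain ⟨g, hg1, hg2⟩ := ln hAb
    obtain ⟨e, he1, he2⟩ := ln hEb
    exact ⟨b, ⟨m, Zm, hcO ▸ Om, hb⟩, ⟨g, hg1, hg2, hg2⟩, ⟨e, he1, he2, he2⟩⟩
  · rintro ⟨c, hc, hcE⟩ ⟨A, hA, hAZ⟩ ⟨b, hb, hbZ⟩ hAE
    change A = E at hAE
    symm
    rw [← hF]
    obtain ⟨v, g, X, Zv, cv, Ag, bg, vg, Xv, Xg, Xi⟩ := key c A b hc hcE hA hAZ hb hbZ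
    exact ⟨X, ⟨v, Zv, cv, Xv⟩, ⟨g, Ag, bg, Xg⟩, ⟨g, hAE ▸ Ag, Xg, bg⟩⟩
  · rintro ⟨c, hc, hcE⟩ hcO ⟨b, hb, hbZ⟩ ⟨y, hy, hyZ⟩ hbO
    change c ≠ O at hcO
    change b = O at hbO
    have hZc : Z ≠ c := fun e => Zh (e ▸ hc)
    have hEy : E ≠ y := fun e => Em (e ▸ hy)
    obtain ⟨u, Eu, yu⟩ := ln hEy
    obtain ⟨v, Zv, cv⟩ := ln hZc
    have Zu : Z ∉ u := by
      intro hz
      have : u = inf := le EZ Eu hz Ei Zi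
      exact bi y hy hyZ (this ▸ yu)
    have vu : v ≠ u := fun e => Zu (e ▸ Zv)
    have vm : v ≠ m := fun e => cm c hc hcO (e ▸ cv)
    obtain ⟨X, Xv, Xu⟩ := pt vu
    have XO : O ≠ X := by
      intro e
      exact vm (le OZ (e ▸ Xv) Zv Om Zm)
    obtain ⟨w, Ow, Xw⟩ := ln XO
    have wi : w ≠ inf := fun e => Oi (e ▸ Ow)
    obtain ⟨A, Aw, Ai⟩ := pt wi
    have AZ : A ≠ Z := by
      intro e
      have hw : w = m := le OZ Ow (e ▸ Aw) Om Zm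
      have hX : X = Z := pe vm Xv (hw ▸ Xw) Zv Zm
      exact Zu (hX ▸ Xu)
    refine ⟨⟨A, Ai, AZ⟩, ?_⟩
    symm
    rw [← hF]
    exact ⟨X, ⟨v, Zv, cv, Xv⟩, ⟨w, Aw, hbO ▸ Ow, Xw⟩, ⟨u, Eu, Xu, yu⟩⟩

end Pool.Agent.TP3
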