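import Pool.Agent.Lib.MP_a1e562_co.OT.Stm

/-!
# MP_a1e562_co, project OT: piece D2
-/

set_option autoImplicit false

namespace Pool.Agent.TP3

open Configuration

private theorem otd2_li {P L : Type} [Membership P L] [ProjectivePlane P L] {p q : P} {l m : L}
    (hne : p ≠ q) (h1 : p ∈ l) (h2 : q ∈ l) (h3 : p ∈ m) (h4 : q ∈ m) : l = m :=
  (Nondegenerate.eq_or_eq h1 h2 h3 h4).resolve_left hne

section

variable {P L : Type} [Membership P L] [ProjectivePlane P L] {Z E O : P} {inf m h : L}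

private theorem otd2_Zh (hf : Frm P L Z E O inf m h) : Z ∉ h := by
  intro hz
  have h1 : inf = h := otd2_li hf.EZ hf.Ei hf.Zi hf.Eh hz
  have h2 : O ∈ inf := by rw [h1]; exact hf.Oh
  exact hf.im (otd2_li hf.OZ h2 hf.Zi hf.Om hf.Zm)

private theorem otd2_Am (hf : Frm P L Z E O inf m h) {A : P} (h1 : A ∈ inf) (h2 : A ≠ Z) :
    A ∉ m := by
  intro h3
  exact hf.im (otd2_li h2 h1 hf.Zi h3 hf.Zm)

private theorem otd2_binf (hf : Frm P L Z E O inf m h) {b : P} (h1 : b ∈ m) (h2 : b ≠ Z) :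
    b ∉ inf := by
  intro h3
  exact hf.im (otd2_li h2 h3 hf.Zi h1 hf.Zm)

private theorem otd2_cinf (hf : Frm P L Z E O inf m h) {c : P} (h1 : c ∈ h) (h2 : c ≠ E) :
    c ∉ inf := by
  intro h3
  have h4 : inf = h := otd2_li h2 h3 hf.Ei h1 hf.Eh
  have h5 : Z ∈ h := by rw [← h4]; exact hf.Zi
  exact otd2_Zh hf h5

/-- the points of `Tern` -/
private theorem otd2_X (hf : Frm P L Z E O inf m h) {v : L} {c A b y : P} (hZv : Z ∈ v)
    (hcv : c ∈ v) (hcZ : c ≠ Z) (hA : A ∈ inf) (hAZ : A ≠ Z) (hb : b ∉ inf)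
    (ht : Tern (L := L) Z E c A b y) :
    ∃ X : Aff P L Z v, Al P L A b X ∧ Al P L E X y := by
  obtain ⟨X, ⟨g, hg1, hg2, hg3⟩, ⟨k, hk1, hk2, hk3⟩, h3⟩ := ht
  have hgv : g = v := otd2_li hcZ hg2 hg1 hcv hZv
  refine ⟨⟨X, ?_, ?_⟩, ⟨k, hk1, hk2, hk3⟩, h3⟩
  · rw [← hgv]
    exact hg3
  · intro hXZ
    rw [hXZ] at hk3
    have h4 : k = inf := otd2_li hAZ hk1 hk3 hA hf.Zi
    rw [h4] at hk2
    exact hb hk2

end

theorem s_OTD2 : S_OTD2 := by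
  intro P L _ _ R hH Z E O inf m h hf F hF hO
  have hZh := otd2_Zh hf
  have hEm : E ∉ m := otd2_Am hf hf.Ei hf.EZ
  have key : ∀ c : Aff P L E h, ∃ v : L, Z ∈ v ∧ (c : P) ∈ v ∧ (c : P) ≠ Z ∧
      ∀ A : P, A ∈ inf → A ≠ Z → A ∉ v := by
    intro c
    have hcZ : (c : P) ≠ Z := by
      intro h1
      exact hZh (by rw [← h1]; exact c.2.1)
    refine ⟨HasLines.mkLine hcZ, (HasLines.mkLine_ax hcZ).2, (HasLines.mkLine_ax hcZ).1, hcZ, ?_⟩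
    intro A hA hAZ hAv
    have h1 : HasLines.mkLine hcZ = inf :=
      otd2_li hAZ hAv (HasLines.mkLine_ax (L := L) hcZ).2 hA hf.Zi
    have h2 : (c : P) ∈ inf := by
      have h3 := (HasLines.mkLine_ax (L := L) hcZ).1
      rw [h1] at h3
      exact h3
    exact otd2_cinf hf c.2.1 c.2.2 h2
  constructor
  · intro c A b1 b2 b3 hR
    obtain ⟨v, hZv, hcv, hcZ, hv⟩ := key c
    have hA : (A : P) ∈ inf := A.2.1
    have hAZ : (A : P) ≠ Z := A.2.2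
    have hX : ∀ b : Aff P L Z m, ∃ X : Aff P L Z v, Al P L (A : P) (b : P) X ∧
        Al P L E X (F c A b : P) := fun b =>
      otd2_X hf hZv hcv hcZ hA hAZ (otd2_binf hf b.2.1 b.2.2) ((hF c A b (F c A b)).2 rfl)
    obtain ⟨X1, h1, k1⟩ := hX b1
    obtain ⟨X2, h2, k2⟩ := hX b2
    obtain ⟨X3, h3, k3⟩ := hX b3
    have hR' : R Z v X1 X2 X3 :=
      hH.persp (A : P) Z Z m v (otd2_Am hf hA hAZ) (hv _ hA hAZ) hf.Zm hZv
        ⟨inf, hA, hf.Zi, hf.Zi⟩ b1 b2 b3 X1 X2 X3 h1 h2 h3 hR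
    exact hH.persp E Z Z v m (hv _ hf.Ei hf.EZ) hEm hZv hf.Zm ⟨inf, hf.Ei, hf.Zi, hf.Zi⟩
      X1 X2 X3 (F c A b1) (F c A b2) (F c A b3) k1 k2 k3 hR'
  · intro c b A1 A2 A3 hR
    by_cases hcO : (c : P) = O
    · rw [hO c A1 b hcO, hO c A2 b hcO, hO c A3 b hcO]
      obtain ⟨V, _, e, he, hRe⟩ := hH.grp Z m hf.Zm
      exact (hRe b b b).2 (he (e b))
    · obtain ⟨v, hZv, hcv, hcZ, hv⟩ := key c
      have hvm : v ≠ m := by
        intro h1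
        rw [h1] at hcv
        have h2 : m = h := otd2_li hcO hcv hf.Om c.2.1 hf.Oh
        exact hEm (by rw [h2]; exact hf.Eh)
      have hbv : (b : P) ∉ v := by
        intro h1
        exact hvm (otd2_li b.2.2 h1 hZv b.2.1 hf.Zm)
      have hbi : (b : P) ∉ inf := otd2_binf hf b.2.1 b.2.2
      have hX : ∀ A : Aff P L Z inf, ∃ X : Aff P L Z v, Al P L (b : P) (A : P) X ∧
          Al P L E X (F c A b : P) := by
        intro A
        obtain ⟨X, ⟨g, hg1, hg2, hg3⟩, hX2⟩ :=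
          otd2_X hf hZv hcv hcZ A.2.1 A.2.2 hbi ((hF c A b (F c A b)).2 rfl)
        exact ⟨X, ⟨g, hg2, hg1, hg3⟩, hX2⟩
      obtain ⟨X1, h1, k1⟩ := hX A1
      obtain ⟨X2, h2, k2⟩ := hX A2
      obtain ⟨X3, h3, k3⟩ := hX A3
      have hR' : R Z v X1 X2 X3 :=
        hH.persp (b : P) Z Z inf v hbi hbv hf.Zi hZv ⟨m, b.2.1, hf.Zm, hf.Zm⟩
          A1 A2 A3 X1 X2 X3 h1 h2 h3 hR
      exact hH.persp E Z Z v m (hv _ hf.Ei hf.EZ) hEm hZv hf.Zm ⟨inf, hf.Ei, hf.Zi, hf.Zi⟩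
        X1 X2 X3 (F c A1 b) (F c A2 b) (F c A3 b) k1 k2 k3 hR'

end Pool.Agent.TP3
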