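import Pool.Agent.Lib.MP_a1e562_co.OT.Stm

/-!
# Project OT, piece D3: the ternary operation is affine in the abscissa
-/

set_option autoImplicit false

namespace Pool.Agent.TP3

open Configuration

/-- facts on a frame: a line through a point `A` of `inf`, `A ≠ Z`, and a point `b` of `m`, `b ≠ Z`,
does not contain `Z`, nor another point of `inf` -/
private theorem otd3_line {P L : Type} [Membership P L] [ProjectivePlane P L] {Z E O : P}
    {inf m h : L} (f : Frm P L Z E O inf m h) {A b C : P} {g : L} (Ai : A ∈ inf) (bm : b ∈ m)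
    (bZ : b ≠ Z) (Ag : A ∈ g) (bg : b ∈ g) (Ci : C ∈ inf) (CA : C ≠ A) : C ∉ g := by
  intro Cg
  rcases Nondegenerate.eq_or_eq Cg Ag Ci Ai with h1 | h1
  · exact CA h1
  · rw [h1] at bg
    rcases Nondegenerate.eq_or_eq bg f.Zi bm f.Zm with h2 | h2
    · exact bZ h2
    · exact f.im h2

/-- points of `Tern` -/
private theorem otd3_pt {P L : Type} [Membership P L] [ProjectivePlane P L] {Z E O : P}
    {inf m h : L} (f : Frm P L Z E O inf m h) {A b : P} {g : L} (Ai : A ∈ inf) (AZ : A ≠ Z)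
    (bm : b ∈ m) (bZ : b ≠ Z) (Ag : A ∈ g) (bg : b ∈ g) (c y : P) (ch : c ∈ h) (cE : c ≠ E)
    (t : Tern (L := L) Z E c A b y) :
    ∃ X : P, Al P L Z c X ∧ X ∈ g ∧ X ∉ inf ∧ Al P L E X y := by
  obtain ⟨X, ⟨v, Zv, cv, Xv⟩, ⟨g', Ag', bg', Xg'⟩, hEX⟩ := t
  have hA : A ≠ b := by
    intro e
    rw [← e] at bm
    rcases Nondegenerate.eq_or_eq Ai f.Zi bm f.Zm with h2 | h2
    · exact AZ h2
    · exact f.im h2
  have hg : g' = g := by
    rcases Nondegenerate.eq_or_eq Ag' bg' Ag bg with h2 | h2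
    · exact absurd h2 hA
    · exact h2
  rw [hg] at Xg'
  have hih : inf ≠ h := by
    intro e
    have Oi : O ∈ inf := by rw [e]; exact f.Oh
    rcases Nondegenerate.eq_or_eq Oi f.Zi f.Om f.Zm with h2 | h2
    · exact f.OZ h2
    · exact f.im h2
  have hci : c ∉ inf := by
    intro ci
    rcases Nondegenerate.eq_or_eq ci f.Ei ch f.Eh with h2 | h2
    · exact cE h2
    · exact hih h2
  refine ⟨X, ⟨v, Zv, cv, Xv⟩, Xg', ?_, hEX⟩
  intro Xi
  rcases Nondegenerate.eq_or_eq Xv Zv Xi f.Zi with h2 | h2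
  · rw [h2] at Xg'
    exact otd3_line f Ai bm bZ Ag bg f.Zi (Ne.symm AZ) Xg'
  · rw [h2] at cv
    exact hci cv

theorem s_OTD3 : S_OTD3 := by
  intro P L _ _ R hR Z E O inf m h f F hF hFE
  have hih : inf ≠ h := by
    intro e
    have Oi : O ∈ inf := by rw [e]; exact f.Oh
    rcases Nondegenerate.eq_or_eq Oi f.Zi f.Om f.Zm with h2 | h2
    · exact f.OZ h2
    · exact f.im h2
  have hZh : Z ∉ h := by
    intro Zh
    rcases Nondegenerate.eq_or_eq Zh f.Eh f.Zi f.Ei with h2 | h2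
    · exact f.EZ h2.symm
    · exact hih h2.symm
  have hEm : E ∉ m := by
    intro Em
    rcases Nondegenerate.eq_or_eq Em f.Zm f.Ei f.Zi with h2 | h2
    · exact f.EZ h2
    · exact f.im h2.symm
  have hAm : ∀ A : P, A ∈ inf → A ≠ Z → A ∉ m := by
    intro A Ai AZ Am
    rcases Nondegenerate.eq_or_eq Am f.Zm Ai f.Zi with h2 | h2
    · exact AZ h2
    · exact f.im h2.symm
  have hAb : ∀ A b : P, A ∈ inf → A ≠ Z → b ∈ m → A ≠ b := by
    intro A b Ai AZ bm e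
    rw [← e] at bm
    exact hAm A Ai AZ bm
  constructor
  · intro A b c1 c2 c3 hc
    by_cases hAE : (A : P) = E
    · rw [hFE c1 A b hAE, hFE c2 A b hAE, hFE c3 A b hAE]
      obtain ⟨V, iV, e, h3, hiff⟩ := hR.grp Z m f.Zm
      rw [hiff]
      exact h3 _
    · obtain ⟨g, Ag, bg⟩ : ∃ g : L, (A : P) ∈ g ∧ (b : P) ∈ g :=
        ⟨HasLines.mkLine (hAb A b A.2.1 A.2.2 b.2.1), HasLines.mkLine_ax _⟩
      have hZg : Z ∉ g := otd3_line f A.2.1 b.2.1 b.2.2 Ag bg f.Zi (Ne.symm A.2.2)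
      have hEg : E ∉ g := otd3_line f A.2.1 b.2.1 b.2.2 Ag bg f.Ei (fun e => hAE e.symm)
      have key : ∀ c : Aff P L E h, ∃ X : Aff P L (A : P) g, Al P L Z (c : P) (X : P) ∧
          Al P L E (X : P) ((F c A b : Aff P L Z m) : P) := by
        intro c
        obtain ⟨X, h1, h2, h3, h4⟩ := otd3_pt f A.2.1 A.2.2 b.2.1 b.2.2 Ag bg (c : P)
          ((F c A b : Aff P L Z m) : P) c.2.1 c.2.2 ((hF c A b (F c A b)).2 rfl)
        refine ⟨⟨X, h2, ?_⟩, h1, h4⟩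
        intro e
        rw [e] at h3
        exact h3 A.2.1
      obtain ⟨X1, a1, e1⟩ := key c1
      obtain ⟨X2, a2, e2⟩ := key c2
      obtain ⟨X3, a3, e3⟩ := key c3
      have r1 : R (A : P) g X1 X2 X3 :=
        hR.persp Z E (A : P) h g hZh hZg f.Eh Ag ⟨inf, f.Zi, f.Ei, A.2.1⟩ c1 c2 c3 X1 X2 X3
          a1 a2 a3 hc
      exact hR.persp E (A : P) Z g m hEg hEm Ag f.Zm ⟨inf, f.Ei, A.2.1, f.Zi⟩ X1 X2 X3 _ _ _
        e1 e2 e3 r1
  · intro A A' b' hAA' hb'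
    have hAA : (A : P) ≠ (A' : P) := fun e => hAA' (Subtype.ext e)
    obtain ⟨g, Ag, bg⟩ : ∃ g : L, (A' : P) ∈ g ∧ (b' : P) ∈ g :=
      ⟨HasLines.mkLine (hAb A' b' A'.2.1 A'.2.2 b'.2.1), HasLines.mkLine_ax _⟩
    have hZg : Z ∉ g := otd3_line f A'.2.1 b'.2.1 b'.2.2 Ag bg f.Zi (Ne.symm A'.2.2)
    have hAg : (A : P) ∉ g := otd3_line f A'.2.1 b'.2.1 b'.2.2 Ag bg A.2.1 hAA
    have key : ∀ c : Aff P L E h, ∃ (X : Aff P L (A' : P) g) (Y : Aff P L Z m),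
        Al P L Z (c : P) (X : P) ∧ Al P L (A : P) (X : P) (Y : P) ∧
        F c A Y = F c A' b' := by
      intro c
      obtain ⟨X, h1, h2, h3, h4⟩ := otd3_pt f A'.2.1 A'.2.2 b'.2.1 b'.2.2 Ag bg (c : P)
        ((F c A' b' : Aff P L Z m) : P) c.2.1 c.2.2 ((hF c A' b' (F c A' b')).2 rfl)
      have hAX : (A : P) ≠ X := by
        intro e
        rw [← e] at h3
        exact h3 A.2.1
      obtain ⟨l, Al', Xl⟩ : ∃ l : L, (A : P) ∈ l ∧ X ∈ l :=
        ⟨HasLines.mkLine hAX, HasLines.mkLine_ax _⟩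
      have hlm : l ≠ m := by
        intro e
        rw [e] at Al'
        exact hAm A A.2.1 A.2.2 Al'
      obtain ⟨Y, Yl, Ym⟩ : ∃ Y : P, Y ∈ l ∧ Y ∈ m :=
        ⟨HasPoints.mkPoint hlm, HasPoints.mkPoint_ax _⟩
      have hYZ : Y ≠ Z := by
        intro e
        rw [e] at Yl
        rcases Nondegenerate.eq_or_eq Yl Al' f.Zi A.2.1 with h5 | h5
        · exact A.2.2 h5.symm
        · rw [h5] at Xl
          exact h3 Xl
      refine ⟨⟨X, h2, ?_⟩, ⟨Y, Ym, hYZ⟩, h1, ⟨l, Al', Xl, Yl⟩, ?_⟩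
      · intro e
        rw [e] at h3
        exact h3 A'.2.1
      · exact ((hF c A ⟨Y, Ym, hYZ⟩ (F c A' b')).1 ⟨X, h1, ⟨l, Al', Yl, Xl⟩, h4⟩).symm
    choose X Y hX hXY hFY using key
    refine ⟨Y, hFY, ?_⟩
    intro c1 c2 c3 hc
    have r1 : R (A' : P) g (X c1) (X c2) (X c3) :=
      hR.persp Z E (A' : P) h g hZh hZg f.Eh Ag ⟨inf, f.Zi, f.Ei, A'.2.1⟩ c1 c2 c3 _ _ _
        (hX c1) (hX c2) (hX c3) hc
    exact hR.persp (A : P) (A' : P) Z g m hAg (hAm A A.2.1 A.2.2) Ag f.Zm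
      ⟨inf, A.2.1, A'.2.1, f.Zi⟩ _ _ _ _ _ _ (hXY c1) (hXY c2) (hXY c3) r1

end Pool.Agent.TP3
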