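import Pool.Agent.Lib.MP_a1e562_co.OT.Stm

/-!
# Project OT, piece D5: the plane is a semifield plane
-/

set_option autoImplicit false

namespace Pool.Agent.TP3

open Configuration

private theorem otd5_fin (P L : Type) [Membership P L] [ProjectivePlane P L] [Finite P] :
    Finite L := by
  have hinj : Function.Injective (fun l : L => {p : P | p ∈ l}) := by
    intro l m hlm
    have hlm' : ∀ p : P, p ∈ l ↔ p ∈ m := fun p => by
      have := congrArg (fun s : Set P => p ∈ s) hlm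
      simpa using this
    by_contra hne
    have hr := HasPoints.mkPoint_ax (P := P) (L := L) hne
    set r := HasPoints.mkPoint (P := P) hne with hrdef
    have huni : ∀ p : P, p ∈ l → p = r := by
      intro p hp
      by_contra hpr
      rcases Nondegenerate.eq_or_eq hp hr.1 ((hlm' p).1 hp) hr.2 with h | h
      · exact hpr h
      · exact hne h
    obtain ⟨k, hk⟩ := Nondegenerate.exists_line (P := P) (L := L) r
    have hkl : k ≠ l := by
      rintro rfl
      exact hk hr.1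
    have h2 := HasPoints.mkPoint_ax (P := P) (L := L) hkl
    apply hk
    rw [← huni _ h2.2]
    exact h2.1
  exact Finite.of_injective _ hinj

private theorem otd5_third {P L : Type} [Membership P L] [ProjectivePlane P L] [Finite P]
    (l : L) (a b : P) : ∃ x : P, x ∈ l ∧ x ≠ a ∧ x ≠ b := by
  classical
  have hL : Finite L := otd5_fin P L
  by_contra hcon
  have hcon' : ∀ x : P, x ∈ l → x ≠ a → x = b := by
    intro x hx hxa
    by_contra hxb
    exact hcon ⟨x, hx, hxa, hxb⟩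
  have h3 : 2 < pointCount P l := ProjectivePlane.two_lt_pointCount P l
  have hinj : Function.Injective (fun x : {x : P // x ∈ l} => decide ((x : P) = a)) := by
    intro x y hxy
    have hxy' : decide ((x : P) = a) = decide ((y : P) = a) := hxy
    rw [decide_eq_decide] at hxy'
    apply Subtype.ext
    by_cases hx : (x : P) = a
    · rw [hx, hxy'.1 hx]
    · have hy : (y : P) ≠ a := fun e => hx (hxy'.2 e)
      rw [hcon' x x.2 hx, hcon' y y.2 hy]
  have h2 : Nat.card {x : P // x ∈ l} ≤ Nat.card Bool := Nat.card_le_card_of_injective _ hinj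
  have h4 : Nat.card Bool = 2 := by simp
  have h5 : pointCount P l = Nat.card {x : P // x ∈ l} := rfl
  omega

private theorem otd5_uq {P L : Type} [Membership P L] [ProjectivePlane P L] {X Y : P} {g k : L}
    (hXY : X ≠ Y) (h1 : X ∈ g) (h2 : Y ∈ g) (h3 : X ∈ k) (h4 : Y ∈ k) : g = k := by
  rcases Nondegenerate.eq_or_eq h1 h2 h3 h4 with h | h
  · exact absurd h hXY
  · exact h

private theorem otd5_uqp {P L : Type} [Membership P L] [ProjectivePlane P L] {X Y : P} {g k : L}
    (hgk : g ≠ k) (h1 : X ∈ g) (h2 : Y ∈ g) (h3 : X ∈ k) (h4 : Y ∈ k) : X = Y := by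
  rcases Nondegenerate.eq_or_eq h1 h2 h3 h4 with h | h
  · exact h
  · exact absurd h hgk

private theorem otd5_ln {P L : Type} [Membership P L] [ProjectivePlane P L] {X Y : P}
    (hXY : X ≠ Y) : ∃ g : L, X ∈ g ∧ Y ∈ g :=
  ⟨HasLines.mkLine hXY, HasLines.mkLine_ax _⟩

private theorem otd5_pt {P L : Type} [Membership P L] [ProjectivePlane P L] {g k : L}
    (hgk : g ≠ k) : ∃ X : P, X ∈ g ∧ X ∈ k :=
  ⟨HasPoints.mkPoint hgk, HasPoints.mkPoint_ax _⟩

theorem s_OTD5 : S_OTD5 := by
  intro P L _ _ _ Z E O inf m h f F hF hsol C S Y _ _ _ eC eS eY M hC0 hS0 hY0 hM1 hM2 hM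
  have hih : inf ≠ h := by
    intro e
    have Oi : O ∈ inf := by rw [e]; exact f.Oh
    exact f.im (otd5_uq f.OZ Oi f.Zi f.Om f.Zm)
  have hZh : Z ∉ h := fun Zh => hih (otd5_uq f.EZ f.Ei f.Zi f.Eh Zh)
  have hEm : E ∉ m := fun Em => f.im (otd5_uq f.EZ f.Ei f.Zi Em f.Zm)
  have hmh : m ≠ h := by
    intro e
    apply hZh
    rw [← e]
    exact f.Zm
  have hci : ∀ c : P, c ∈ h → c ≠ E → c ∉ inf := fun c ch cE ci =>
    cE (otd5_uqp hih ci f.Ei ch f.Eh)
  have hbi : ∀ b : P, b ∈ m → b ≠ Z → b ∉ inf := fun b bm bZ bi =>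
    bZ (otd5_uqp f.im bi f.Zi bm f.Zm)
  have hZc : ∀ c : P, c ∈ h → Z ≠ c := by
    intro c ch e
    rw [← e] at ch
    exact hZh ch
  have hEy : ∀ y : P, y ∈ m → E ≠ y := by
    intro y ym e
    rw [← e] at ym
    exact hEm ym
  have hAb : ∀ A b : P, A ∈ inf → b ∈ m → b ≠ Z → A ≠ b := by
    intro A b Ai bm bZ e
    rw [e] at Ai
    exact hbi b bm bZ Ai
  -- coordinates
  have exc : ∀ X : P, X ∉ inf → ∃ c : Aff P L E h, Al P L Z (c : P) X := by
    intro X hX
    have hZX : Z ≠ X := by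
      intro e
      rw [← e] at hX
      exact hX f.Zi
    obtain ⟨v, Zv, Xv⟩ := otd5_ln (L := L) hZX
    have hvh : v ≠ h := by
      intro e
      rw [e] at Zv
      exact hZh Zv
    obtain ⟨c, cv, ch⟩ := otd5_pt (P := P) hvh
    refine ⟨⟨c, ch, ?_⟩, v, Zv, cv, Xv⟩
    intro e
    rw [e] at cv
    have : v = inf := otd5_uq f.EZ cv Zv f.Ei f.Zi
    rw [this] at Xv
    exact hX Xv
  have exy : ∀ X : P, X ∉ inf → ∃ y : Aff P L Z m, Al P L E X (y : P) := by
    intro X hX
    have hEX : E ≠ X := by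
      intro e
      rw [← e] at hX
      exact hX f.Ei
    obtain ⟨w, Ew, Xw⟩ := otd5_ln (L := L) hEX
    have hwm : w ≠ m := by
      intro e
      rw [e] at Ew
      exact hEm Ew
    obtain ⟨y, yw, ym⟩ := otd5_pt (P := P) hwm
    refine ⟨⟨y, ym, ?_⟩, w, Ew, Xw, yw⟩
    intro e
    rw [e] at yw
    have : w = inf := otd5_uq f.EZ Ew yw f.Ei f.Zi
    rw [this] at Xw
    exact hX Xw
  have uc : ∀ (X : P), X ∉ inf → ∀ c c' : Aff P L E h, Al P L Z (c : P) X → Al P L Z (c' : P) X →
      c = c' := by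
    intro X hX c c' ⟨g, Zg, cg, Xg⟩ ⟨g', Zg', cg', Xg'⟩
    have hZX : Z ≠ X := by
      intro e
      rw [← e] at hX
      exact hX f.Zi
    have e : g = g' := otd5_uq hZX Zg Xg Zg' Xg'
    rw [← e] at cg'
    have hgh : g ≠ h := by
      intro e
      rw [e] at Zg
      exact hZh Zg
    exact Subtype.ext (otd5_uqp hgh cg cg' c.2.1 c'.2.1)
  have uy : ∀ (X : P), X ∉ inf → ∀ y y' : Aff P L Z m, Al P L E X (y : P) → Al P L E X (y' : P) →
      y = y' := by
    intro X hX y y' ⟨g, Eg, Xg, yg⟩ ⟨g', Eg', Xg', yg'⟩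
    have hEX : E ≠ X := by
      intro e
      rw [← e] at hX
      exact hX f.Ei
    have e : g = g' := otd5_uq hEX Eg Xg Eg' Xg'
    rw [← e] at yg'
    have hgm : g ≠ m := by
      intro e
      rw [e] at Eg
      exact hEm Eg
    exact Subtype.ext (otd5_uqp hgm yg yg' y.2.1 y'.2.1)
  have uX : ∀ (X X' : P) (c : Aff P L E h) (y : Aff P L Z m), Al P L Z (c : P) X →
      Al P L E X (y : P) → Al P L Z (c : P) X' → Al P L E X' (y : P) → X = X' := by
    intro X X' c y ⟨g, Zg, cg, Xg⟩ ⟨k, Ek, Xk, yk⟩ ⟨g', Zg', cg', Xg'⟩ ⟨k', Ek', Xk', yk'⟩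
    have e1 : g' = g := otd5_uq (hZc c c.2.1) Zg' cg' Zg cg
    have e2 : k' = k := otd5_uq (hEy y y.2.1) Ek' yk' Ek yk
    rw [e1] at Xg'
    rw [e2] at Xk'
    have hgk : g ≠ k := by
      intro e
      rw [← e] at Ek
      have : g = inf := otd5_uq f.EZ Ek Zg f.Ei f.Zi
      rw [this] at cg
      exact hci c c.2.1 c.2.2 cg
    exact otd5_uqp hgk Xg Xg' Xk Xk'
  have exX : ∀ (c : Aff P L E h) (y : Aff P L Z m), ∃ X : P, X ∉ inf ∧ Al P L Z (c : P) X ∧
      Al P L E X (y : P) := by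
    intro c y
    obtain ⟨g, Zg, cg⟩ := otd5_ln (L := L) (hZc c c.2.1)
    obtain ⟨k, Ek, yk⟩ := otd5_ln (L := L) (hEy y y.2.1)
    have hgi : g ≠ inf := by
      intro e
      rw [e] at cg
      exact hci c c.2.1 c.2.2 cg
    have hgk : g ≠ k := by
      intro e
      rw [← e] at Ek
      exact hgi (otd5_uq f.EZ Ek Zg f.Ei f.Zi)
    obtain ⟨X, Xg, Xk⟩ := otd5_pt (P := P) hgk
    refine ⟨X, ?_, ⟨g, Zg, cg, Xg⟩, ⟨k, Ek, Xk, yk⟩⟩
    intro Xi
    have e : X = Z := otd5_uqp hgi Xg Zg Xi f.Zi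
    rw [e] at Xk
    have : k = inf := otd5_uq f.EZ Ek Xk f.Ei f.Zi
    rw [this] at yk
    exact hbi y y.2.1 y.2.2 yk
  -- lines in coordinates
  have hline : ∀ (A : Aff P L Z inf) (b : Aff P L Z m) (g : L), (A : P) ∈ g → (b : P) ∈ g →
      ∀ (X : P) (c : Aff P L E h) (y : Aff P L Z m), Al P L Z (c : P) X → Al P L E X (y : P) →
        (X ∈ g ↔ y = F c A b) := by
    intro A b g Ag bg X c y h1 h2
    rw [← hF]
    constructor
    · intro Xg
      exact ⟨X, h1, ⟨g, Ag, bg, Xg⟩, h2⟩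
    · rintro ⟨X', h1', ⟨g', Ag', bg', Xg'⟩, h2'⟩
      have e : X = X' := uX X X' c y h1 h2 h1' h2'
      have e' : g' = g := otd5_uq (hAb A b A.2.1 b.2.1 b.2.2) Ag' bg' Ag bg
      rw [e, ← e']
      exact Xg'
  -- the algebra
  have M0 : ∀ c, M c 0 = 0 := by
    intro c
    have := hM2 c 0 0
    rw [add_zero] at this
    simpa using this
  have M0' : ∀ A, M 0 A = 0 := by
    intro A
    have := hM1 0 0 A
    rw [add_zero] at this
    simpa using this
  let b0 : Aff P L Z m := ⟨O, f.Om, f.OZ⟩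
  have hb0 : eY b0 = 0 := hY0 b0 rfl
  have hker : ∀ (u : C) (a : S), M u a = 0 → u = 0 ∨ a = 0 := by
    intro u a hua
    by_contra hcon
    have hu : u ≠ 0 := fun e => hcon (Or.inl e)
    have ha : a ≠ 0 := fun e => hcon (Or.inr e)
    have hcO : ((eC.symm u : Aff P L E h) : P) ≠ O := by
      intro e
      apply hu
      have := hC0 _ e
      rwa [Equiv.apply_symm_apply] at this
    have hAE : ((eS.symm a : Aff P L Z inf) : P) ≠ E := by
      intro e
      apply ha
      have := hS0 _ e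
      rwa [Equiv.apply_symm_apply] at this
    generalize hc : eC.symm u = c at hcO
    generalize hA : eS.symm a = A at hAE
    have hcu : eC c = u := by rw [← hc, Equiv.apply_symm_apply]
    have hAa : eS A = a := by rw [← hA, Equiv.apply_symm_apply]
    have h1 : F c A b0 = b0 := by
      apply eY.injective
      rw [hM, hcu, hAa, hua, add_zero]
    obtain ⟨X, ⟨v, Zv, cv, Xv⟩, ⟨g, Ag, bg, Xg⟩, ⟨k, Ek, Xk, bk⟩⟩ := (hF c A b0 b0).2 h1.symm
    have hgk : g ≠ k := by
      intro e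
      rw [← e] at Ek
      have : g = inf := otd5_uq hAE Ag Ek A.2.1 f.Ei
      rw [this] at bg
      exact hbi b0 b0.2.1 b0.2.2 bg
    have hX : X = (b0 : P) := otd5_uqp hgk Xg bg Xk bk
    rw [hX] at Xv
    have hvm : v = m := otd5_uq (Ne.symm b0.2.2) Zv Xv f.Zm b0.2.1
    rw [hvm] at cv
    exact hcO (otd5_uqp hmh cv f.Om c.2.1 f.Oh)
  obtain ⟨c1, c1h, c1E, c1O⟩ := otd5_third h E O
  obtain ⟨A1, A1i, A1Z, A1E⟩ := otd5_third inf Z E
  let c1' : Aff P L E h := ⟨c1, c1h, c1E⟩
  let A1' : Aff P L Z inf := ⟨A1, A1i, A1Z⟩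
  have hc1 : eC c1' ≠ 0 := by
    intro e
    let o : Aff P L E h := ⟨O, f.Oh, by
      intro e
      have Oi : O ∈ inf := by rw [e]; exact f.Ei
      exact f.im (otd5_uq f.OZ Oi f.Zi f.Om f.Zm)⟩
    have ho : eC o = 0 := hC0 o rfl
    have : c1' = o := eC.injective (by rw [e, ho])
    exact c1O (congrArg Subtype.val this)
  have hA1 : eS A1' ≠ 0 := by
    intro e
    let o : Aff P L Z inf := ⟨E, f.Ei, f.EZ⟩
    have ho : eS o = 0 := hS0 o rfl
    have : A1' = o := eS.injective (by rw [e, ho])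
    exact A1E (congrArg Subtype.val this)
  let ψ : S →+ Y := AddMonoidHom.mk' (fun a => M (eC c1') a) (hM2 (eC c1'))
  let φ : C →+ Y := AddMonoidHom.mk' (fun u => M u (eS A1')) (fun u u' => hM1 u u' (eS A1'))
  have hψ : Function.Bijective ψ := by
    constructor
    · rw [injective_iff_map_eq_zero]
      intro a ha
      rcases hker (eC c1') a ha with h1 | h1
      · exact absurd h1 hc1
      · exact h1
    · intro y
      obtain ⟨A, hA⟩ := hsol c1' c1O b0 (eY.symm y) rfl
      refine ⟨eS A, ?_⟩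
      have := hM c1' A b0
      rw [hA, Equiv.apply_symm_apply, hb0, zero_add] at this
      exact this.symm
  have hφ : Function.Bijective φ := by
    constructor
    · rw [injective_iff_map_eq_zero]
      intro u hu
      rcases hker u (eS A1') hu with h1 | h1
      · exact h1
      · exact absurd h1 hA1
    · intro y
      obtain ⟨g, Ag, Og⟩ := otd5_ln (L := L) (hAb A1 O A1i f.Om f.OZ)
      obtain ⟨k, Ek, yk⟩ := otd5_ln (L := L)
        (hEy (eY.symm y : Aff P L Z m) (eY.symm y : Aff P L Z m).2.1)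
      have hgi : g ≠ inf := by
        intro e
        rw [e] at Og
        exact hbi O f.Om f.OZ Og
      have hki : k ≠ inf := by
        intro e
        rw [e] at yk
        exact hbi _ (eY.symm y : Aff P L Z m).2.1 (eY.symm y : Aff P L Z m).2.2 yk
      have hgk : g ≠ k := by
        intro e
        rw [← e] at Ek
        exact hgi (otd5_uq A1E Ag Ek A1i f.Ei)
      obtain ⟨X, Xg, Xk⟩ := otd5_pt (P := P) hgk
      have hX : X ∉ inf := by
        intro Xi
        have e1 : X = A1 := otd5_uqp hgi Xg Ag Xi A1i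
        have e2 : X = E := otd5_uqp hki Xk Ek Xi f.Ei
        exact A1E (e1.symm.trans e2)
      obtain ⟨c, hc⟩ := exc X hX
      have h1 : eY.symm y = F c A1' b0 :=
        (hF c A1' b0 (eY.symm y)).1 ⟨X, hc, ⟨g, Ag, Og, Xg⟩, ⟨k, Ek, Xk, yk⟩⟩
      refine ⟨eC c, ?_⟩
      have := hM c A1' b0
      rw [← h1, Equiv.apply_symm_apply, hb0, zero_add] at this
      exact this.symm
  let ψe : S ≃+ Y := AddEquiv.ofBijective ψ hψ
  let φe : C ≃+ Y := AddEquiv.ofBijective φ hφ
  choose cf hcf using exc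
  choose yf hyf using exy
  let Φ : {x : P // x ∉ inf} → Y × Y := fun X => (φe (eC (cf X X.2)), eY (yf X X.2))
  have hΦ : Function.Bijective Φ := by
    constructor
    · intro X X' hXX
      have e1 : φe (eC (cf X X.2)) = φe (eC (cf X' X'.2)) := congrArg Prod.fst hXX
      have e2 : eY (yf X X.2) = eY (yf X' X'.2) := congrArg Prod.snd hXX
      have e3 : cf X X.2 = cf X' X'.2 := eC.injective (φe.injective e1)
      have e4 : yf X X.2 = yf X' X'.2 := eY.injective e2
      apply Subtype.ext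
      apply uX X X' (cf X X.2) (yf X X.2) (hcf X X.2) (hyf X X.2)
      · rw [e3]
        exact hcf X' X'.2
      · rw [e4]
        exact hyf X' X'.2
    · rintro ⟨u, v⟩
      obtain ⟨X, hX, h1, h2⟩ := exX (eC.symm (φe.symm u)) (eY.symm v)
      refine ⟨⟨X, hX⟩, ?_⟩
      have e1 : cf X hX = eC.symm (φe.symm u) := uc X hX _ _ (hcf X hX) h1
      have e2 : yf X hX = eY.symm v := uy X hX _ _ (hyf X hX) h2
      change (φe (eC (cf X hX)), eY (yf X hX)) = (u, v)
      rw [e1, e2, Equiv.apply_symm_apply, Equiv.apply_symm_apply, AddEquiv.apply_symm_apply]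
  -- lines through `Z`
  have hlZ : ∀ (g : L) (c : Aff P L E h), Z ∈ g → (c : P) ∈ g →
      ∀ p : {x : P // x ∉ inf}, (p : P) ∈ g ↔ (Φ p).1 = φe (eC c) := by
    intro g c Zg cg p
    constructor
    · intro pg
      have e : cf p p.2 = c := uc p p.2 _ _ (hcf p p.2) ⟨g, Zg, cg, pg⟩
      change φe (eC (cf p p.2)) = φe (eC c)
      rw [e]
    · intro hp
      have hp' : φe (eC (cf p p.2)) = φe (eC c) := hp
      have e : cf p p.2 = c := eC.injective (φe.injective hp')
      obtain ⟨g', Zg', cg', pg'⟩ := hcf p p.2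
      rw [e] at cg'
      have : g' = g := otd5_uq (hZc c c.2.1) Zg' cg' Zg cg
      rw [← this]
      exact pg'
  have hlA : ∀ (g : L) (A : Aff P L Z inf) (b : Aff P L Z m), (A : P) ∈ g → (b : P) ∈ g →
      ∀ p : {x : P // x ∉ inf}, (p : P) ∈ g ↔
        (Φ p).2 = M (φe.symm (Φ p).1) (ψe.symm (ψe (eS A))) + eY b := by
    intro g A b Ag bg p
    rw [hline A b g Ag bg p (cf p p.2) (yf p p.2) (hcf p p.2) (hyf p p.2)]
    have h1 : (Φ p).2 = eY (yf p p.2) := rfl
    have h2 : (Φ p).1 = φe (eC (cf p p.2)) := rfl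
    rw [h1, h2, AddEquiv.symm_apply_apply, AddEquiv.symm_apply_apply]
    constructor
    · intro e
      rw [e, hM, add_comm]
    · intro e
      apply eY.injective
      rw [e, hM, add_comm]
  refine ⟨Y, inferInstance, fun x k => M (φe.symm x) (ψe.symm k), inf, Equiv.ofBijective Φ hΦ,
    ?_, ?_, ?_, ?_, ?_, ?_⟩
  · intro x y k
    beta_reduce
    rw [map_add, hM1]
  · intro x k l
    beta_reduce
    rw [map_add, hM2]
  · intro x k hxk
    rcases hker _ _ hxk with h1 | h1
    · left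
      exact (AddEquiv.map_eq_zero_iff φe.symm).1 h1
    · right
      exact (AddEquiv.map_eq_zero_iff ψe.symm).1 h1
  · intro g hg
    by_cases Zg : Z ∈ g
    · left
      have hgh : g ≠ h := by
        intro e
        rw [e] at Zg
        exact hZh Zg
      obtain ⟨c, cg, ch⟩ := otd5_pt (P := P) hgh
      have cE : c ≠ E := by
        intro e
        rw [e] at cg
        exact hg (otd5_uq f.EZ cg Zg f.Ei f.Zi)
      exact ⟨φe (eC ⟨c, ch, cE⟩), hlZ g ⟨c, ch, cE⟩ Zg cg⟩
    · right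
      have hgm : g ≠ m := by
        intro e
        rw [e] at Zg
        exact Zg f.Zm
      obtain ⟨A, Ag, Ai⟩ := otd5_pt (P := P) hg
      obtain ⟨b, bg, bm⟩ := otd5_pt (P := P) hgm
      have AZ : A ≠ Z := by
        intro e
        rw [e] at Ag
        exact Zg Ag
      have bZ : b ≠ Z := by
        intro e
        rw [e] at bg
        exact Zg bg
      exact ⟨ψe (eS ⟨A, Ai, AZ⟩), eY ⟨b, bm, bZ⟩, hlA g ⟨A, Ai, AZ⟩ ⟨b, bm, bZ⟩ Ag bg⟩
  · intro c
    obtain ⟨g, Zg, cg⟩ := otd5_ln (L := L)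
      (hZc (eC.symm (φe.symm c) : Aff P L E h) (eC.symm (φe.symm c) : Aff P L E h).2.1)
    refine ⟨g, ?_, ?_⟩
    · intro e
      rw [e] at cg
      exact hci _ (eC.symm (φe.symm c) : Aff P L E h).2.1
        (eC.symm (φe.symm c) : Aff P L E h).2.2 cg
    · intro p
      have := hlZ g (eC.symm (φe.symm c)) Zg cg p
      rw [Equiv.apply_symm_apply, AddEquiv.apply_symm_apply] at this
      exact this
  · intro k b
    obtain ⟨g, Ag, bg⟩ := otd5_ln (L := L)
      (hAb (eS.symm (ψe.symm k) : Aff P L Z inf) (eY.symm b : Aff P L Z m)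
        (eS.symm (ψe.symm k) : Aff P L Z inf).2.1 (eY.symm b : Aff P L Z m).2.1
        (eY.symm b : Aff P L Z m).2.2)
    refine ⟨g, ?_, ?_⟩
    · intro e
      rw [e] at bg
      exact hbi _ (eY.symm b : Aff P L Z m).2.1 (eY.symm b : Aff P L Z m).2.2 bg
    · intro p
      have := hlA g (eS.symm (ψe.symm k)) (eY.symm b) Ag bg p
      rw [Equiv.apply_symm_apply, Equiv.apply_symm_apply, AddEquiv.apply_symm_apply] at this
      exact this

end Pool.Agent.TP3
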