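import Pool.Agent.Lib.MP_a1e562_co.OT.Stm

/-!
# [OT D6] from `Harm` to the coordinates
-/

set_option autoImplicit false

namespace Pool.Agent.TP3

open Configuration

/-- a frame exists -/
theorem ot_d6_frame (P L : Type) [Membership P L] [ProjectivePlane P L] :
    ∃ (Z E O : P) (inf m h : L), Frm P L Z E O inf m h := by
  obtain ⟨p1, p2, p3, l1, l2, l3, h12, h13, h21, h22, h23, h31, h32, h33⟩ :=
    ProjectivePlane.exists_config (P := P) (L := L)
  have hEZ : p3 ≠ p2 := by
    rintro rfl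
    exact h33 h23
  have hOZ : p1 ≠ p2 := by
    rintro rfl
    exact h12 h22
  have hEO : p3 ≠ p1 := by
    rintro rfl
    exact h12 h32
  refine ⟨p2, p3, p1, l2, HasLines.mkLine hOZ, HasLines.mkLine hEO, ?_⟩
  have hm := HasLines.mkLine_ax (P := P) (L := L) hOZ
  have hh := HasLines.mkLine_ax (P := P) (L := L) hEO
  exact { Zi := h22, Zm := hm.2, Ei := h32, Eh := hh.1, Om := hm.1, Oh := hh.2,
          im := fun e => h12 (by rw [e]; exact hm.1), EZ := hEZ, OZ := hOZ }

theorem Frm.OE {P L : Type} [Membership P L] [ProjectivePlane P L] {Z E O : P} {inf m h : L}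
    (fr : Frm P L Z E O inf m h) : O ≠ E := by
  intro e
  have hO : O ∈ inf := by rw [e]; exact fr.Ei
  rcases Nondegenerate.eq_or_eq hO fr.Zi fr.Om fr.Zm with h1 | h1
  · exact fr.OZ h1
  · exact fr.im h1

/-- move the origin of the group -/
theorem ot_d6_norm {X : Type} (r : X → X → X → Prop) (x0 : X)
    (hg : ∃ (V : Type) (_ : AddCommGroup V) (e : X ≃ V),
      (∀ v : V, v + v + v = 0) ∧ ∀ A B C, r A B C ↔ e A + e B + e C = 0) :
    ∃ (V : Type) (_ : AddCommGroup V) (e : X ≃ V),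
      (∀ v : V, v + v + v = 0) ∧ (∀ A B C, r A B C ↔ e A + e B + e C = 0) ∧ e x0 = 0 := by
  obtain ⟨V, i, e, h3, hr⟩ := hg
  refine ⟨V, i, e.trans (Equiv.subRight (e x0)), h3, fun A B C => ?_, ?_⟩
  · rw [hr A B C]
    have h0 := h3 (e x0)
    have key : (e.trans (Equiv.subRight (e x0))) A + (e.trans (Equiv.subRight (e x0))) B +
        (e.trans (Equiv.subRight (e x0))) C = e A + e B + e C - (e x0 + e x0 + e x0) := by
      simp only [Equiv.trans_apply, Equiv.subRight_apply]
      abel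
    rw [key, h0, sub_zero]
  · simp only [Equiv.trans_apply, Equiv.subRight_apply, sub_self]

theorem s_OTD6 : S_OTD6 := by
  intro h1 h2 h3 h4 h5 P L _ _ _ R hR
  obtain ⟨Z, E, O, inf, m, h, fr⟩ := ot_d6_frame P L
  obtain ⟨F, hF, hF0, hFE, hsol⟩ := h1 P L Z E O inf m h fr
  obtain ⟨hFi, hFs⟩ := h2 P L R hR Z E O inf m h fr F hF hF0
  obtain ⟨hFc, hFG⟩ := h3 P L R hR Z E O inf m h fr F hF hFE
  let c0 : Aff P L E h := ⟨O, fr.Oh, fr.OE⟩
  let A0 : Aff P L Z inf := ⟨E, fr.Ei, fr.EZ⟩
  let b0 : Aff P L Z m := ⟨O, fr.Om, fr.OZ⟩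
  obtain ⟨C, iC, eC, hC3, hCR, hC0⟩ := ot_d6_norm (R E h) c0 (hR.grp E h fr.Eh)
  obtain ⟨S, iS, eS, hS3, hSR, hS0⟩ := ot_d6_norm (R Z inf) A0 (hR.grp Z inf fr.Zi)
  obtain ⟨Y, iY, eY, hY3, hYR, hY0⟩ := ot_d6_norm (R Z m) b0 (hR.grp Z m fr.Zm)
  have hCs : eC.symm 0 = c0 := by rw [← hC0, Equiv.symm_apply_apply]
  have hSs : eS.symm 0 = A0 := by rw [← hS0, Equiv.symm_apply_apply]
  have hYs : eY.symm 0 = b0 := by rw [← hY0, Equiv.symm_apply_apply]
  have ec : ∀ c : Aff P L E h, (c : P) = O → c = c0 := fun c hc => Subtype.ext hc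
  have eA : ∀ A : Aff P L Z inf, (A : P) = E → A = A0 := fun A hA => Subtype.ext hA
  have eb : ∀ b : Aff P L Z m, (b : P) = O → b = b0 := fun b hb => Subtype.ext hb
  obtain ⟨M, hM1, hM2, hM3⟩ := h4 C S Y
    (fun c A b => eY (F (eC.symm c) (eS.symm A) (eY.symm b))) hC3 hS3 hY3
    (by
      intro A b
      show eY (F (eC.symm 0) (eS.symm A) (eY.symm b)) = b
      rw [hF0 (eC.symm 0) (eS.symm A) (eY.symm b) (by rw [hCs]), Equiv.apply_symm_apply])
    (by
      intro c b
      show eY (F (eC.symm c) (eS.symm 0) (eY.symm b)) = b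
      rw [hFE (eC.symm c) (eS.symm 0) (eY.symm b) (by rw [hSs]), Equiv.apply_symm_apply])
    (by
      intro c hc y
      have hne : ((eC.symm c : Aff P L E h) : P) ≠ O := by
        intro e
        apply hc
        have e2 := ec _ e
        have e3 : eC (eC.symm c) = eC c0 := by rw [e2]
        rw [Equiv.apply_symm_apply, hC0] at e3
        exact e3
      obtain ⟨A, hA⟩ := hsol (eC.symm c) hne (eY.symm 0) (eY.symm y) (by rw [hYs])
      refine ⟨eS A, ?_⟩
      show eY (F (eC.symm c) (eS.symm (eS A)) (eY.symm 0)) = y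
      rw [Equiv.symm_apply_apply, hA, Equiv.apply_symm_apply])
    (by
      intro A b a1 a2 a3 hs
      apply (hYR _ _ _).1
      apply hFc
      apply (hCR _ _ _).2
      rw [Equiv.apply_symm_apply, Equiv.apply_symm_apply, Equiv.apply_symm_apply]
      exact hs)
    (by
      intro c b a1 a2 a3 hs
      apply (hYR _ _ _).1
      apply hFs
      apply (hSR _ _ _).2
      rw [Equiv.apply_symm_apply, Equiv.apply_symm_apply, Equiv.apply_symm_apply]
      exact hs)
    (by
      intro c A a1 a2 a3 hs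
      apply (hYR _ _ _).1
      apply hFi
      apply (hYR _ _ _).2
      rw [Equiv.apply_symm_apply, Equiv.apply_symm_apply, Equiv.apply_symm_apply]
      exact hs)
    (by
      intro A A' hne
      obtain ⟨G, hG1, hG2⟩ := hFG (eS.symm A) (eS.symm A') (eY.symm 0)
        (fun e => hne (eS.symm.injective e)) (by rw [hYs])
      refine ⟨fun c => eY (G (eC.symm c)), fun c => ?_, ?_⟩
      · show eY (F (eC.symm c) (eS.symm A) (eY.symm (eY (G (eC.symm c))))) =
          eY (F (eC.symm c) (eS.symm A') (eY.symm 0))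
        rw [Equiv.symm_apply_apply, hG1]
      · intro a1 a2 a3 hs
        apply (hYR _ _ _).1
        apply hG2
        apply (hCR _ _ _).2
        rw [Equiv.apply_symm_apply, Equiv.apply_symm_apply, Equiv.apply_symm_apply]
        exact hs)
  exact h5 P L Z E O inf m h fr F hF hsol C S Y eC eS eY M
    (fun c hc => by rw [ec c hc, hC0]) (fun A hA => by rw [eA A hA, hS0])
    (fun b hb => by rw [eb b hb, hY0]) hM1 hM2
    (fun c A b => by
      have e := hM3 (eC c) (eS A) (eY b)
      simp only [Equiv.symm_apply_apply] at e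
      exact e)

end Pool.Agent.TP3
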