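import Pool.Agent.Lib.MP_a1e562_co.OT.StmG

/-!
# [OT G1] of MP_a1e562_co: the tournament is doubly regular
-/

set_option autoImplicit false

namespace Pool.Agent.TP3

theorem s_OTG1 : S_OTG1 := by
  intro X _ χ hT hTr hcard
  classical
  -- diagonal
  have hd : ∀ a, χ a a = 0 := by
    intro a
    have h := hT.anti a a
    omega
  -- a permutation exchanging two points reverses
  have hneg : ∀ a b, a ≠ b → ∑ c, χ b c = -∑ c, χ a c := by
    intro a b hab
    obtain ⟨g, hg, ga, gb⟩ := hTr a b b a hab hab.symm
    have hR : Rev χ g := by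
      rcases hg with hg | hg
      · exfalso
        have h1 := hg a b
        rw [ga, gb] at h1
        have h2 := hT.anti a b
        rcases hT.val a b hab with h3 | h3 <;> omega
      · exact hg
    calc ∑ c, χ b c = ∑ c, χ b (g c) := (Equiv.sum_comp g (fun c => χ b c)).symm
      _ = ∑ c, -χ a c := by
          refine Finset.sum_congr rfl fun c _ => ?_
          have h := hR a c
          rw [ga] at h
          exact h
      _ = -∑ c, χ a c := Finset.sum_neg_distrib _
  have hz : ∀ a, ∑ c, χ a c = 0 := by
    obtain ⟨x, y, z, hxy, hxz, hyz⟩ := Fintype.two_lt_card_iff.1 hcard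
    have h1 := hneg x y hxy
    have h2 := hneg x z hxz
    have h3 := hneg y z hyz
    have hx : ∑ c, χ x c = 0 := by omega
    intro a
    by_cases hax : a = x
    · rw [hax]; exact hx
    · have h4 := hneg a x hax
      omega
  -- the second sums
  have hS : ∀ (g : Equiv.Perm X), (Pres χ g ∨ Rev χ g) → ∀ a b,
      ∑ c, χ (g a) c * χ c (g b) = ∑ c, χ a c * χ c b := by
    intro g hg a b
    calc ∑ c, χ (g a) c * χ c (g b) = ∑ c, χ (g a) (g c) * χ (g c) (g b) :=
          (Equiv.sum_comp g (fun c => χ (g a) c * χ c (g b))).symm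
      _ = ∑ c, χ a c * χ c b := by
          refine Finset.sum_congr rfl fun c _ => ?_
          rcases hg with hg | hg
          · rw [hg, hg]
          · rw [hg, hg]; ring
  have hconst : ∀ a b c d, a ≠ b → c ≠ d →
      ∑ e, χ a e * χ e b = ∑ e, χ c e * χ e d := by
    intro a b c d hab hcd
    obtain ⟨g, hg, ga, gb⟩ := hTr c d a b hcd hab
    rw [← hS g hg c d, ga, gb]
  have hdiag : ∀ a, ∑ c, χ a c * χ c a = -((Fintype.card X : ℤ) - 1) := by
    intro a
    have h1 : ∀ c, χ a c * χ c a = if c = a then (0 : ℤ) else -1 := by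
      intro c
      by_cases hca : c = a
      · rw [if_pos hca, hca, hd, mul_zero]
      · rw [if_neg hca, hT.anti a c]
        rcases hT.val c a hca with h | h <;> rw [h] <;> norm_num
    rw [Finset.sum_congr rfl (fun c _ => h1 c),
      ← Finset.add_sum_erase Finset.univ _ (Finset.mem_univ a), if_pos rfl, zero_add]
    have h2 : ∀ c ∈ Finset.univ.erase a, (if c = a then (0 : ℤ) else -1) = -1 := by
      intro c hc
      rw [if_neg (Finset.ne_of_mem_erase hc)]
    rw [Finset.sum_congr rfl h2, Finset.sum_const, Finset.card_erase_of_mem (Finset.mem_univ a),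
      Finset.card_univ, nsmul_eq_mul, Nat.cast_sub (by omega)]
    push_cast
    ring
  refine ⟨hz, ?_⟩
  intro a b hab
  have h0 : ∑ d, ∑ c, χ a c * χ c d = 0 := by
    rw [Finset.sum_comm]
    refine Finset.sum_eq_zero fun c _ => ?_
    rw [← Finset.mul_sum, hz, mul_zero]
  rw [← Finset.add_sum_erase Finset.univ _ (Finset.mem_univ a), hdiag] at h0
  have h3 : ∀ d ∈ Finset.univ.erase a, ∑ c, χ a c * χ c d = ∑ c, χ a c * χ c b := by
    intro d hd'
    exact hconst a d a b (Finset.ne_of_mem_erase hd').symm hab
  rw [Finset.sum_congr rfl h3, Finset.sum_const, Finset.card_erase_of_mem (Finset.mem_univ a),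
    Finset.card_univ, nsmul_eq_mul, Nat.cast_sub (by omega)] at h0
  have h4 : ((Fintype.card X : ℤ) - 1) * (∑ c, χ a c * χ c b - 1) = 0 := by
    push_cast at h0
    linarith
  have h5 : ((Fintype.card X : ℤ) - 1) ≠ 0 := by
    have : (3 : ℤ) ≤ Fintype.card X := by exact_mod_cast hcard
    omega
  have h6 := (mul_eq_zero.1 h4).resolve_left h5
  linarith

end Pool.Agent.TP3
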