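import Pool.Agent.Lib.MP_a1e562_co.OT.StmG

/-!
# MP_a1e562_co, project OT, piece G2: the trace lemma
-/

set_option autoImplicit false

namespace Pool.Agent.TP3

open Finset Matrix

section

variable {X : Type} [Fintype X] [DecidableEq X] {R : Type} [CommRing R]

/-- the matrix of a permutation -/
private def g2M (R : Type) [CommRing R] (g : Equiv.Perm X) : Matrix X X R :=
  Matrix.of fun a b => if g a = b then 1 else 0

private theorem g2M_apply (g : Equiv.Perm X) (a b : X) :
    g2M R g a b = if g a = b then 1 else 0 := rfl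

private theorem g2M_mul (g : Equiv.Perm X) (A : Matrix X X R) (a c : X) :
    (g2M R g * A) a c = A (g a) c := by
  rw [Matrix.mul_apply]
  simp only [g2M_apply, ite_mul, one_mul, zero_mul]
  rw [Finset.sum_ite_eq]
  simp

private theorem mul_g2M (g : Equiv.Perm X) (A : Matrix X X R) (a c : X) :
    (A * g2M R g) a (g c) = A a c := by
  rw [Matrix.mul_apply]
  simp only [g2M_apply, mul_ite, mul_one, mul_zero, EmbeddingLike.apply_eq_iff_eq]
  rw [Finset.sum_ite_eq']
  simp

private theorem g2M_mul_g2M (g h : Equiv.Perm X) : g2M R g * g2M R h = g2M R (h * g) := by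
  ext a c
  rw [g2M_mul, g2M_apply, g2M_apply, Equiv.Perm.mul_apply]

private theorem g2M_one : g2M R (1 : Equiv.Perm X) = 1 := by
  ext a c
  rw [g2M_apply, Matrix.one_apply]
  rfl

private theorem g2M_pow (g : Equiv.Perm X) (k : ℕ) : g2M R g ^ k = g2M R (g ^ k) := by
  induction k with
  | zero => rw [pow_zero, pow_zero, g2M_one]
  | succ k ih => rw [pow_succ, ih, g2M_mul_g2M, pow_succ']

end

theorem s_OTG2 : S_OTG2 := by
  intro X _ χ hχ hcard hR hS l hlp hlX hNR g hg hgl
  classical
  have : Fact l.Prime := ⟨hlp⟩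
  have hne : Nonempty X := Fintype.card_pos_iff.1 (by omega)
  have h3l : 3 < l := by omega
  have h0 : ∀ a, χ a a = 0 := fun a => by
    have := hχ.anti a a
    omega
  -- the matrices
  let A : Matrix X X (ZMod l) := Matrix.of fun a b => ((χ a b : ℤ) : ZMod l)
  have hAA : ∀ a b, (A * A) a b = ((∑ c, χ a c * χ c b : ℤ) : ZMod l) := by
    intro a b
    rw [Matrix.mul_apply, Int.cast_sum]
    refine Finset.sum_congr rfl fun c _ => ?_
    rw [Int.cast_mul]
    rfl
  have hdiag : ∀ a, (∑ c, χ a c * χ c a : ℤ) = 1 - Fintype.card X := by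
    intro a
    have h1 : ∀ c, χ a c * χ c a = (if c = a then 1 else 0) - 1 := by
      intro c
      by_cases h : c = a
      · subst h
        rw [if_pos rfl, h0]
        norm_num
      · rw [if_neg h]
        have h2 := hχ.anti a c
        rcases hχ.val c a h with h3 | h3 <;> rw [h3] at h2 ⊢ <;> rw [h2] <;> norm_num
    rw [Finset.sum_congr rfl fun c _ => h1 c, Finset.sum_sub_distrib]
    rw [Finset.sum_ite_eq']
    simp
  have hAA2 : A * A = Matrix.of (fun _ _ => (1 : ZMod l)) - (Fintype.card X : ZMod l) • (1 : Matrix X X (ZMod l)) := by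
    ext a b
    rw [hAA, Matrix.sub_apply, Matrix.smul_apply, Matrix.of_apply]
    by_cases h : a = b
    · subst h
      rw [hdiag, Matrix.one_apply_eq]
      push_cast
      rw [smul_eq_mul, mul_one]
    · rw [hS a b h, Matrix.one_apply_ne h]
      simp
  have hJA : Matrix.of (fun _ _ => (1 : ZMod l)) * A = 0 := by
    ext a b
    rw [Matrix.mul_apply]
    have h1 : ∀ c, (Matrix.of (fun _ _ => (1 : ZMod l)) : Matrix X X (ZMod l)) a c * A c b
        = -((χ b c : ℤ) : ZMod l) := by
      intro c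
      rw [Matrix.of_apply, one_mul]
      show ((χ c b : ℤ) : ZMod l) = _
      rw [hχ.anti c b, Int.cast_neg]
    rw [Finset.sum_congr rfl fun c _ => h1 c, Finset.sum_neg_distrib, ← Int.cast_sum, hR b]
    simp
  have hA3 : A * A * A = (-(Fintype.card X : ZMod l)) • A := by
    rw [hAA2, Matrix.sub_mul, hJA, zero_sub, Matrix.smul_mul, Matrix.one_mul, neg_smul]
  have hApow2 : ∀ k : ℕ, A ^ (2 * k + 1) = (-(Fintype.card X : ZMod l)) ^ k • A := by
    intro k
    induction k with
    | zero => simp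
    | succ k ih =>
      have h1 : 2 * (k + 1) + 1 = (2 * k + 1) + 2 := by ring
      rw [h1, pow_add, ih, pow_two, Matrix.smul_mul, ← Matrix.mul_assoc, hA3, smul_smul, pow_succ]
  have hodd : 2 * (l / 2) + 1 = l := by
    rcases hlp.eq_two_or_odd with h | h <;> omega
  have hApow : A ^ l = -A := by
    have h1 := hApow2 (l / 2)
    rw [hodd] at h1
    have h2 : (-(Fintype.card X : ZMod l)) ^ (l / 2) = -1 := hNR
    rw [h1, h2, neg_smul, one_smul]
  -- the automorphism
  let Q : Matrix X X (ZMod l) := g2M (ZMod l) g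
  have hQpow : Q ^ l = Q := by
    show g2M (ZMod l) g ^ l = g2M (ZMod l) g
    rw [g2M_pow, hgl]
  have hQA : Commute Q A := by
    show Q * A = A * Q
    ext a b
    obtain ⟨b, rfl⟩ := g.surjective b
    show (g2M (ZMod l) g * A) a (g b) = (A * g2M (ZMod l) g) a (g b)
    rw [g2M_mul, mul_g2M]
    show ((χ (g a) (g b) : ℤ) : ZMod l) = ((χ a b : ℤ) : ZMod l)
    rw [hg]
  have hN : (Q * A) ^ l = -(Q * A) := by
    rw [hQA.mul_pow, hQpow, hApow, mul_neg]
  have htr := ZMod.trace_pow_card (Q * A)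
  rw [hN, Matrix.trace_neg, ZMod.pow_card] at htr
  have htr2 : (2 : ZMod l) * Matrix.trace (Q * A) = 0 := by
    linear_combination -htr
  have h20 : (2 : ZMod l) ≠ 0 := by
    intro h
    have h1 : ((2 : ℕ) : ZMod l) = 0 := by exact_mod_cast h
    rw [ZMod.natCast_eq_zero_iff] at h1
    have := Nat.le_of_dvd (by norm_num) h1
    omega
  have htr3 := (mul_eq_zero.1 htr2).resolve_left h20
  -- the sum
  have hsum : ((∑ a, χ a (g a) : ℤ) : ZMod l) = 0 := by
    have h1 : Matrix.trace (Q * A) = -((∑ a, χ a (g a) : ℤ) : ZMod l) := by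
      rw [Matrix.trace, Int.cast_sum, ← Finset.sum_neg_distrib]
      refine Finset.sum_congr rfl fun a _ => ?_
      rw [Matrix.diag_apply]
      show (g2M (ZMod l) g * A) a a = _
      rw [g2M_mul]
      show ((χ (g a) a : ℤ) : ZMod l) = _
      rw [hχ.anti (g a) a, Int.cast_neg]
    rw [h1, neg_eq_zero] at htr3
    exact htr3
  have hdvd : (l : ℤ) ∣ ∑ a, χ a (g a) := (ZMod.intCast_zmod_eq_zero_iff_dvd _ l).1 hsum
  refine Int.eq_zero_of_abs_lt_dvd hdvd ?_
  have h1 : ∀ a, |χ a (g a)| ≤ 1 := by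
    intro a
    by_cases h : a = g a
    · rw [← h, h0]
      norm_num
    · rcases hχ.val a (g a) h with h2 | h2 <;> rw [h2] <;> norm_num
  calc |∑ a, χ a (g a)| ≤ ∑ a, |χ a (g a)| := Finset.abs_sum_le_sum_abs _ _
    _ ≤ ∑ _a : X, (1 : ℤ) := Finset.sum_le_sum fun a _ => h1 a
    _ = Fintype.card X := by simp
    _ < l := by exact_mod_cast hlX

end Pool.Agent.TP3
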