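import Pool.Agent.Lib.MP_a1e562_co.OT.StmG

/-! # [OT G4] of MP_a1e562_co: involutions that reverse a tournament -/

set_option autoImplicit false

namespace Pool.Agent.TP3

open Configuration

private theorem pg4_pres_mul {X : Type} {χ : X → X → ℤ} {g h : Equiv.Perm X} (hg : Pres χ g)
    (hh : Pres χ h) : Pres χ (g * h) := by
  intro a b
  rw [Equiv.Perm.mul_apply, Equiv.Perm.mul_apply, hg, hh]

private theorem pg4_pres_inv {X : Type} {χ : X → X → ℤ} {g : Equiv.Perm X} (hg : Pres χ g) :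
    Pres χ g⁻¹ := (PG χ).inv_mem hg

private theorem pg4_pres_rev {X : Type} {χ : X → X → ℤ} {g h : Equiv.Perm X} (hg : Pres χ g)
    (hh : Rev χ h) : Rev χ (g * h) := by
  intro a b
  rw [Equiv.Perm.mul_apply, Equiv.Perm.mul_apply, hg, hh]

private theorem pg4_rev_pres {X : Type} {χ : X → X → ℤ} {g h : Equiv.Perm X} (hg : Rev χ g)
    (hh : Pres χ h) : Rev χ (g * h) := by
  intro a b
  rw [Equiv.Perm.mul_apply, Equiv.Perm.mul_apply, hg, hh]

private theorem pg4_rev_rev {X : Type} {χ : X → X → ℤ} {g h : Equiv.Perm X} (hg : Rev χ g)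
    (hh : Rev χ h) : Pres χ (g * h) := by
  intro a b
  rw [Equiv.Perm.mul_apply, Equiv.Perm.mul_apply, hg, hh, neg_neg]

private theorem pg4_rev_inv {X : Type} {χ : X → X → ℤ} {g : Equiv.Perm X} (hg : Rev χ g) :
    Rev χ g⁻¹ := by
  intro a b
  have h := hg (g⁻¹ a) (g⁻¹ b)
  have h1 : ∀ c, g (g⁻¹ c) = c := fun c => by
    rw [← Equiv.Perm.mul_apply, mul_inv_cancel, Equiv.Perm.one_apply]
  rw [h1, h1] at h
  rw [h, neg_neg]

private theorem pg4_conj_rev {X : Type} {χ : X → X → ℤ} {h σ : Equiv.Perm X}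
    (hh : Pres χ h ∨ Rev χ h) (hσ : Rev χ σ) : Rev χ (h * σ * h⁻¹) := by
  rcases hh with hh | hh
  · exact pg4_rev_pres (pg4_pres_rev hh hσ) (pg4_pres_inv hh)
  · exact pg4_pres_rev (pg4_rev_rev hh hσ) (pg4_rev_inv hh)

private theorem pg4_conj_inv {G : Type} [Group G] {h σ : G} (hσ : σ * σ = 1) :
    (h * σ * h⁻¹) * (h * σ * h⁻¹) = 1 := by
  have : (h * σ * h⁻¹) * (h * σ * h⁻¹) = h * (σ * σ) * h⁻¹ := by group
  rw [this, hσ]
  group

/-- odd powers of a reversing permutation reverse -/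
private theorem pg4_rev_pow {X : Type} {χ : X → X → ℤ} {g : Equiv.Perm X} (hg : Rev χ g) :
    ∀ m : ℕ, Rev χ (g ^ (2 * m + 1)) := by
  intro m
  induction m with
  | zero => simpa using hg
  | succ k ih =>
    have : g ^ (2 * (k + 1) + 1) = (g * g) * g ^ (2 * k + 1) := by
      rw [show 2 * (k + 1) + 1 = 1 + 1 + (2 * k + 1) by ring, pow_add, pow_add, pow_one]
    rw [this]
    exact pg4_pres_rev (pg4_rev_rev hg hg) ih

theorem s_OTG4 : S_OTG4 := by
  intro hO X _ χ hT h2 hodd hcard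
  have := Fintype.ofFinite X
  -- two fixed points are equal
  have huniq : ∀ τ : Equiv.Perm X, Rev χ τ → ∀ a b, τ a = a → τ b = b → a = b := by
    intro τ hτ a b ha hb
    by_contra hne
    have h1 := hτ a b
    rw [ha, hb] at h1
    rcases hT.val a b hne with h3 | h3 <;> omega
  have c1 : ∀ τ : Equiv.Perm X, τ * τ = 1 → Rev χ τ → ∃! N, τ N = N := by
    intro τ hττ hτ
    have : Fact (Nat.Prime 2) := ⟨Nat.prime_two⟩
    have hnd : ¬ 2 ∣ Fintype.card X := by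
      rw [← Nat.card_eq_fintype_card]
      exact hodd.not_two_dvd_nat
    obtain ⟨N, hN⟩ := Equiv.Perm.exists_fixed_point_of_prime (p := 2) (n := 1) hnd
      (σ := τ) (by rw [pow_one, pow_two]; exact hττ)
    exact ⟨N, hN, fun M hM => huniq τ hτ M N hM hN⟩
  have c3 : ∀ g τ : Equiv.Perm X, (Pres χ g ∨ Rev χ g) → τ * τ = 1 → Rev χ τ →
      (g * τ * g⁻¹) * (g * τ * g⁻¹) = 1 ∧ Rev χ (g * τ * g⁻¹) :=
    fun g τ hg hττ hτ => ⟨pg4_conj_inv hττ, pg4_conj_rev hg hτ⟩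
  -- elements exchanging two points reverse
  have hex : ∀ a b : X, a ≠ b → ∃ g : Equiv.Perm X, Rev χ g ∧ g a = b ∧ g b = a := by
    intro a b hab
    obtain ⟨g, hg, ga, gb⟩ := h2 a b b a hab hab.symm
    rcases hg with hg | hg
    · exfalso
      have h1 := hg a b
      rw [ga, gb] at h1
      have h3 := hT.anti a b
      rcases hT.val a b hab with h4 | h4 <;> omega
    · exact ⟨g, hg, ga, gb⟩
  -- two different points
  have hnt : Nontrivial X := by
    rw [Nat.card_eq_fintype_card] at hcard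
    exact Fintype.one_lt_card_iff_nontrivial.1 hcard
  obtain ⟨a0, b0, hab0⟩ := exists_pair_ne X
  -- a reversing involution
  obtain ⟨τ0, hτ0τ0, hτ0⟩ : ∃ τ : Equiv.Perm X, τ * τ = 1 ∧ Rev χ τ := by
    obtain ⟨g, hg, -, -⟩ := hex a0 b0 hab0
    have hOG : Odd (Nat.card (PG χ)) := hO X χ hT (PG χ) (fun g hg a b => hg a b)
    have hgg : g * g ∈ PG χ := pg4_rev_rev hg hg
    obtain ⟨m, hm⟩ := hOG
    refine ⟨g ^ Nat.card (PG χ), ?_, ?_⟩
    · have h3 : (⟨g * g, hgg⟩ : PG χ) ^ Nat.card (PG χ) = 1 := pow_card_eq_one'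
      have h4 : (g * g) ^ Nat.card (PG χ) = 1 := congrArg Subtype.val h3
      rw [← (Commute.refl g).mul_pow]
      exact h4
    · rw [hm]
      exact pg4_rev_pow hg m
  have c2 : ∀ N : X, ∃ τ : Equiv.Perm X, τ * τ = 1 ∧ Rev χ τ ∧ τ N = N := by
    intro N
    obtain ⟨M, hM, -⟩ := c1 τ0 hτ0τ0 hτ0
    obtain ⟨h, hh, hMN⟩ : ∃ h : Equiv.Perm X, (Pres χ h ∨ Rev χ h) ∧ h M = N := by
      obtain ⟨M', hM'⟩ := exists_ne M
      obtain ⟨N', hN'⟩ := exists_ne N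
      obtain ⟨h, hh, h3, -⟩ := h2 M M' N N' hM'.symm hN'.symm
      exact ⟨h, hh, h3⟩
    obtain ⟨h4, h5⟩ := c3 h τ0 hh hτ0τ0 hτ0
    refine ⟨h * τ0 * h⁻¹, h4, h5, ?_⟩
    have h6 : h⁻¹ N = M := by rw [← hMN, ← Equiv.Perm.mul_apply, inv_mul_cancel,
      Equiv.Perm.one_apply]
    rw [Equiv.Perm.mul_apply, Equiv.Perm.mul_apply, h6, hM, hMN]
  refine ⟨c1, c2, c3, ?_⟩
  intro a b
  by_cases hab : a = b
  · exact ⟨1, (PG χ).one_mem, by rw [hab, Equiv.Perm.one_apply]⟩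
  · obtain ⟨g, hg, ga, -⟩ := hex a b hab
    obtain ⟨τ, -, hτ, hτb⟩ := c2 b
    exact ⟨τ * g, pg4_rev_rev hτ hg, by rw [Equiv.Perm.mul_apply, ga, hτb]⟩

end Pool.Agent.TP3
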