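import Pool.Agent.Lib.MP_a1e562_co.OT.StmG

/-! Piece OT G5: the number of points is a power of 3. -/

set_option autoImplicit false

namespace Pool.Agent.TP3

theorem otG5_core (hSYL : S_SFSYL) (hGO : S_IHGO) (hGB : S_IHGB) (hG1 : S_OTG1) (hG2 : S_OTG2)
    (hG3 : S_OTG3) (X : Type) [Finite X] (χ : X → X → ℤ) (hT : Tour X χ) (h2 : TwoTr χ)
    (hq : Nat.card X % 4 = 3) (s : ℕ) (hs : s.Prime)
    (hl : ∀ j : ℕ, ∃ ℓ : ℕ, ℓ.Prime ∧ Nat.card X < ℓ ∧ s ^ j ∣ ℓ - 1 ∧ NR (Nat.card X) ℓ)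
    (G : Subgroup (Equiv.Perm X)) (τ : Equiv.Perm X) (N : X) (hG : ∀ g ∈ G, Pres χ g)
    (hτ2 : τ * τ = 1) (hτ : Rev χ τ) (hτN : τ N = N) (hτG : ∀ g ∈ G, τ * g * τ ∈ G) :
    ¬ s ∣ Nat.card (MulAction.orbit G N) := by
  have : Fintype X := Fintype.ofFinite X
  have hc : Fintype.card X = Nat.card X := Nat.card_eq_fintype_card.symm
  have h3 : 3 ≤ Fintype.card X := by omega
  obtain ⟨hR, hS⟩ := hG1 X χ hT h2 h3
  refine hG3 hSYL hGO X χ hT G τ N s hG hτ2 hτ hτN hτG ?_ hs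
  rintro g hg ⟨j, hj⟩ hinv
  obtain ⟨ℓ, hp, hlt, hd, hn⟩ := hl j
  have hgl : g ^ ℓ = g := by
    obtain ⟨c, hcc⟩ := hd
    have h1 : ℓ = s ^ j * c + 1 := by
      have := hp.pos
      omega
    rw [h1, pow_succ, pow_mul, hj, one_pow, one_mul]
  have hsum := hG2 X χ hT h3 hR hS ℓ hp (by rw [hc]; exact hlt) (by rw [hc]; exact hn) g
    (hG g hg) hgl
  exact hGB X χ hT (Nat.odd_iff.2 (by omega)) τ g N hτ2 hτ hτN (hG g hg) hsum hinv

theorem s_OTG5 : S_OTG5 := by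
  intro hSYL hGO hGB hN1 hN2 hG1 hG2 hG3 hG4 X _ χ hT h2 hq h3q
  have core := otG5_core hSYL hGO hGB hG1 hG2 hG3 X χ hT h2 hq
  have hodd : Odd (Nat.card X) := Nat.odd_iff.2 (by omega)
  obtain ⟨-, hinvol, -, htrans⟩ := hG4 hGO X χ hT h2 hodd (by omega)
  have hne : Nonempty X := by
    have h0 : Nat.card X ≠ 0 := by omega
    exact (Nat.card_ne_zero.1 h0).1
  obtain ⟨N⟩ := hne
  obtain ⟨τ, hτ2, hτ, hτN⟩ := hinvol N
  have horb : Nat.card (MulAction.orbit (PG χ) N) = Nat.card X := by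
    have h1 : MulAction.orbit (PG χ) N = Set.univ := by
      apply Set.eq_univ_of_forall
      intro b
      obtain ⟨g, hg, hgb⟩ := htrans N b
      exact ⟨⟨g, hg⟩, hgb⟩
    rw [h1]
    exact Nat.card_congr (Equiv.Set.univ X)
  have hτG : ∀ g ∈ PG χ, τ * g * τ ∈ PG χ := by
    intro g hg a b
    show χ (τ (g (τ a))) (τ (g (τ b))) = χ a b
    rw [hτ, mem_PG.1 hg, hτ, neg_neg]
  have hk : ∃ k : ℕ, Nat.card X = 3 * k ^ 2 := by
    by_contra hno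
    have h4 := core 3 Nat.prime_three (hN1 (Nat.card X) hq h3q hno) (PG χ) τ N
      (fun g hg => mem_PG.1 hg) hτ2 hτ hτN hτG
    rw [horb] at h4
    exact h4 h3q
  obtain ⟨k, hk⟩ := hk
  have hk0 : k ≠ 0 := by
    rintro rfl
    rw [hk] at hq
    norm_num at hq
  have hl : ∀ s : ℕ, s.Prime → s ≠ 3 → ∀ j : ℕ, ∃ ℓ : ℕ, ℓ.Prime ∧ Nat.card X < ℓ ∧
      s ^ j ∣ ℓ - 1 ∧ NR (Nat.card X) ℓ := by
    intro s hs hs3 j
    have hcop : Nat.Coprime (s ^ j) 3 :=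
      Nat.Coprime.pow_left j ((Nat.coprime_primes hs Nat.prime_three).2 hs3)
    rw [hk]
    exact hN2 k hk0 (s ^ j) (pow_pos hs.pos j) hcop
  have last : ∀ (G : Subgroup (Equiv.Perm X)) (τ : Equiv.Perm X) (N : X) (s : ℕ),
      (∀ g ∈ G, Pres χ g) → τ * τ = 1 → Rev χ τ → τ N = N → (∀ g ∈ G, τ * g * τ ∈ G) →
      s.Prime → s ≠ 3 → ¬ s ∣ Nat.card (MulAction.orbit G N) := by
    intro G τ' N' s hG hτ2' hτ' hτN' hτG' hs hs3
    exact core s hs (hl s hs hs3) G τ' N' hG hτ2' hτ' hτN' hτG'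
  refine ⟨?_, last⟩
  refine ⟨_, Nat.eq_prime_pow_of_unique_prime_dvd (by omega) ?_⟩
  intro d hd hdd
  by_contra hd3
  have h5 := last (PG χ) τ N d (fun g hg => mem_PG.1 hg) hτ2 hτ hτN hτG hd hd3
  rw [horb] at h5
  exact h5 hdd

end Pool.Agent.TP3
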