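import Pool.Agent.Lib.MP_a1e562_co.OT.StmG

/-! Piece OT G7: the third point. -/

set_option autoImplicit false

namespace Pool.Agent.TP3

theorem s_OTG7 : S_OTG7 := by
  intro X _ χ hTo h5 τ o hτ2 hτα hτo ζ hζP hζ3 hζo hτζ h3 g hg hgo hgz
  have hζi : ζ⁻¹ * ζ⁻¹ = ζ := by
    have e : ζ * (ζ * ζ) = 1 := by rw [← mul_assoc, hζ3]
    rw [← mul_inv_rev]
    exact inv_eq_of_mul_eq_one_left e
  have hζiP : Pres χ ζ⁻¹ := (PG χ).inv_mem (mem_PG.2 hζP)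
  have hττ : ∀ a, τ (τ a) = a := by
    intro a
    rw [← Equiv.Perm.mul_apply, hτ2, Equiv.Perm.one_apply]
  have hswap : ∀ a, τ (ζ a) = ζ⁻¹ (τ a) := by
    intro a
    calc τ (ζ a) = τ (ζ (τ (τ a))) := by rw [hττ]
      _ = (τ * ζ * τ) (τ a) := rfl
      _ = ζ⁻¹ (τ a) := by rw [hτζ]
  set N := ζ⁻¹ o with hN
  have hζN : ζ N = o := by
    rw [hN, ← Equiv.Perm.mul_apply, mul_inv_cancel, Equiv.Perm.one_apply]
  set σ : Equiv.Perm X := ζ⁻¹ * τ * ζ with hσ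
  have hσa : ∀ a, σ a = ζ⁻¹ (τ (ζ a)) := fun _ => rfl
  have hσ2 : σ * σ = 1 := by
    rw [hσ]
    calc ζ⁻¹ * τ * ζ * (ζ⁻¹ * τ * ζ) = ζ⁻¹ * (τ * τ) * ζ := by group
      _ = 1 := by rw [hτ2]; group
  have hσσ : ∀ a, σ (σ a) = a := by
    intro a
    rw [← Equiv.Perm.mul_apply, hσ2, Equiv.Perm.one_apply]
  have hσα : Rev χ σ := by
    intro a b
    rw [hσa, hσa, hζiP, hτα, hζP]
  have hσN : σ N = N := by
    rw [hσa, hζN, hτo]
  have hσo : σ o = ζ o := by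
    rw [hσa, hswap, hτo, ← Equiv.Perm.mul_apply, hζi]
  have hσz : σ (ζ o) = o := by
    rw [← hσo, hσσ]
  have hσG : ∀ k ∈ G2 (PG χ) o (ζ o), σ * k * σ ∈ G2 (PG χ) o (ζ o) := by
    rintro k ⟨hk, hko, hkz⟩
    refine ⟨?_, ?_, ?_⟩
    · intro a b
      show χ (σ (k (σ a))) (σ (k (σ b))) = χ a b
      rw [hσα, mem_PG.1 hk, hσα, neg_neg]
    · show σ (k (σ o)) = o
      rw [hσo, hkz, hσz]
    · show σ (k (σ (ζ o))) = ζ o
      rw [hσz, hko, hσo]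
  have hcard : Nat.card (MulAction.orbit (G2 (PG χ) o (ζ o)) N) = 1 := by
    by_contra hne
    obtain ⟨s, hs, hsd⟩ := Nat.exists_prime_and_dvd hne
    by_cases hs3 : s = 3
    · subst hs3
      exact h3 hsd
    · exact h5 (G2 (PG χ) o (ζ o)) σ N s (fun k hk => mem_PG.1 hk.1) hσ2 hσα hσN hσG hs hs3 hsd
  have hgP : Pres χ g := by
    rcases hg with hg | hg
    · exact hg
    · exfalso
      have h1 := hg o (ζ o)
      rw [hgo, hgz] at h1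
      rcases hTo.val o (ζ o) (Ne.symm hζo) with h2 | h2 <;> omega
  rw [Nat.card_eq_one_iff_unique] at hcard
  obtain ⟨hsub, -⟩ := hcard
  let g' : G2 (PG χ) o (ζ o) := ⟨g, mem_PG.2 hgP, hgo, hgz⟩
  have h4 : (⟨g' • N, MulAction.mem_orbit N g'⟩ : MulAction.orbit (G2 (PG χ) o (ζ o)) N) =
      ⟨N, MulAction.mem_orbit_self N⟩ := Subsingleton.elim _ _
  exact congrArg Subtype.val h4

end Pool.Agent.TP3
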