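import Pool.Agent.Lib.MP_a1e562_co.OT.StmG

/-! # [OT G9] of MP_a1e562_co: the translations of a tournament -/

set_option autoImplicit false

namespace Pool.Agent.TP3

open Configuration

private theorem pres_mul {X : Type} {χ : X → X → ℤ} {g h : Equiv.Perm X} (hg : Pres χ g)
    (hh : Pres χ h) : Pres χ (g * h) := by
  intro a b
  rw [Equiv.Perm.mul_apply, Equiv.Perm.mul_apply, hg, hh]

private theorem pres_inv {X : Type} {χ : X → X → ℤ} {g : Equiv.Perm X} (hg : Pres χ g) :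
    Pres χ g⁻¹ := (PG χ).inv_mem hg

private theorem rev_mul {X : Type} {χ : X → X → ℤ} {g h : Equiv.Perm X} (hg : Pres χ g)
    (hh : Rev χ h) : Rev χ (g * h) := by
  intro a b
  rw [Equiv.Perm.mul_apply, Equiv.Perm.mul_apply, hg, hh]

private theorem rev_mul' {X : Type} {χ : X → X → ℤ} {g h : Equiv.Perm X} (hg : Rev χ g)
    (hh : Pres χ h) : Rev χ (g * h) := by
  intro a b
  rw [Equiv.Perm.mul_apply, Equiv.Perm.mul_apply, hg, hh]

private theorem rev_rev {X : Type} {χ : X → X → ℤ} {g h : Equiv.Perm X} (hg : Rev χ g)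
    (hh : Rev χ h) : Pres χ (g * h) := by
  intro a b
  rw [Equiv.Perm.mul_apply, Equiv.Perm.mul_apply, hg, hh, neg_neg]

private theorem rev_inv {X : Type} {χ : X → X → ℤ} {g : Equiv.Perm X} (hg : Rev χ g) :
    Rev χ g⁻¹ := by
  intro a b
  have h := hg (g⁻¹ a) (g⁻¹ b)
  have h1 : ∀ c, g (g⁻¹ c) = c := fun c => by
    rw [← Equiv.Perm.mul_apply, mul_inv_cancel, Equiv.Perm.one_apply]
  rw [h1, h1] at h
  rw [h, neg_neg]

private theorem conj_rev {X : Type} {χ : X → X → ℤ} {h σ : Equiv.Perm X}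
    (hh : Pres χ h ∨ Rev χ h) (hσ : Rev χ σ) : Rev χ (h * σ * h⁻¹) := by
  rcases hh with hh | hh
  · exact rev_mul' (rev_mul hh hσ) (pres_inv hh)
  · exact rev_mul (rev_rev hh hσ) (rev_inv hh)

private theorem conj_pres {X : Type} {χ : X → X → ℤ} {h σ : Equiv.Perm X}
    (hh : Pres χ h ∨ Rev χ h) (hσ : Pres χ σ) : Pres χ (h * σ * h⁻¹) := by
  rcases hh with hh | hh
  · exact pres_mul (pres_mul hh hσ) (pres_inv hh)
  · exact rev_rev (rev_mul' hh hσ) (rev_inv hh)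

private theorem conj_inv {G : Type} [Group G] {h σ : G} (hσ : σ * σ = 1) :
    (h * σ * h⁻¹) * (h * σ * h⁻¹) = 1 := by
  have : (h * σ * h⁻¹) * (h * σ * h⁻¹) = h * (σ * σ) * h⁻¹ := by group
  rw [this, hσ]
  group

private theorem inv_or {X : Type} {χ : X → X → ℤ} {h : Equiv.Perm X}
    (hh : Pres χ h ∨ Rev χ h) : Pres χ h⁻¹ ∨ Rev χ h⁻¹ :=
  hh.imp pres_inv rev_inv

private theorem trn_one {X : Type} (χ : X → X → ℤ) : (1 : Equiv.Perm X) ∈ Trn χ := by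
  refine ⟨fun _ _ => rfl, fun τ ht _ => ?_⟩
  rw [mul_one, ht, inv_one]

private theorem trn_inv {X : Type} {χ : X → X → ℤ} {g : Equiv.Perm X} (hg : g ∈ Trn χ) :
    g⁻¹ ∈ Trn χ := by
  refine ⟨pres_inv hg.1, fun τ ht hr => ?_⟩
  have h1 := hg.2 τ ht hr
  have hti : τ⁻¹ = τ := inv_eq_of_mul_eq_one_left ht
  calc τ * g⁻¹ * τ = (τ⁻¹ * g * τ⁻¹)⁻¹ := by group
    _ = (τ * g * τ)⁻¹ := by rw [hti]
    _ = g⁻¹⁻¹ := by rw [h1]

private theorem trn_conj {X : Type} {χ : X → X → ℤ} {g h : Equiv.Perm X} (hg : g ∈ Trn χ)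
    (hh : Pres χ h ∨ Rev χ h) : h * g * h⁻¹ ∈ Trn χ := by
  refine ⟨conj_pres hh hg.1, fun σ hs hr => ?_⟩
  have hs' : (h⁻¹ * σ * h) * (h⁻¹ * σ * h) = 1 := by
    have := conj_inv (h := h⁻¹) hs
    rwa [inv_inv] at this
  have hr' : Rev χ (h⁻¹ * σ * h) := by
    have := conj_rev (inv_or hh) hr
    rwa [inv_inv] at this
  have h1 := hg.2 _ hs' hr'
  calc σ * (h * g * h⁻¹) * σ = h * ((h⁻¹ * σ * h) * g * (h⁻¹ * σ * h)) * h⁻¹ := by group
    _ = h * g⁻¹ * h⁻¹ := by rw [h1]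
    _ = (h * g * h⁻¹)⁻¹ := by group

private theorem trn_comm {X : Type} {χ : X → X → ℤ} {τ : Equiv.Perm X} (ht : τ * τ = 1)
    (hr : Rev χ τ) {g h : Equiv.Perm X} (hg : g ∈ Trn χ) (hh : h ∈ Trn χ) :
    g * h = h * g := by
  have hgt : τ * g * τ = g⁻¹ := hg.2 τ ht hr
  have hht : τ * h * τ = h⁻¹ := hh.2 τ ht hr
  have h1 : (g * τ) * (g * τ) = 1 := by
    calc (g * τ) * (g * τ) = g * (τ * g * τ) := by group
      _ = 1 := by rw [hgt, mul_inv_cancel]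
  have h2 := hh.2 (g * τ) h1 (rev_mul hg.1 hr)
  have h3 : (g * τ) * h * (g * τ) = g * (τ * h * τ) * (τ⁻¹ * g * τ) := by group
  have hti : τ⁻¹ = τ := inv_eq_of_mul_eq_one_left ht
  rw [h3, hti, hgt, hht] at h2
  have h4 : g * h⁻¹ = h⁻¹ * g := by
    calc g * h⁻¹ = (g * h⁻¹ * g⁻¹) * g := by group
      _ = h⁻¹ * g := by rw [h2]
  calc g * h = h * (h⁻¹ * g) * h := by group
    _ = h * (g * h⁻¹) * h := by rw [h4]
    _ = h * g := by group

private theorem trn_mul {X : Type} {χ : X → X → ℤ} {τ : Equiv.Perm X} (ht : τ * τ = 1)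
    (hr : Rev χ τ) {g h : Equiv.Perm X} (hg : g ∈ Trn χ) (hh : h ∈ Trn χ) :
    g * h ∈ Trn χ := by
  refine ⟨pres_mul hg.1 hh.1, fun σ hs hrs => ?_⟩
  have hsi : σ⁻¹ = σ := inv_eq_of_mul_eq_one_left hs
  calc σ * (g * h) * σ = (σ * g * σ) * (σ⁻¹ * h * σ) := by group
    _ = (σ * g * σ) * (σ * h * σ) := by rw [hsi]
    _ = g⁻¹ * h⁻¹ := by rw [hg.2 σ hs hrs, hh.2 σ hs hrs]
    _ = (h * g)⁻¹ := by group
    _ = (g * h)⁻¹ := by rw [trn_comm ht hr hg hh]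

theorem s_OTG9 : S_OTG9 := by
  intro X χ _ hTT hfix huni τ o ht hr hto ζ hζ hζ3 hζo htz hcen
  -- ζ is a translation
  have hz : ζ ∈ Trn χ := by
    refine ⟨hζ, fun σ hs hrs => ?_⟩
    obtain ⟨a, ha, -⟩ := hfix σ hs hrs
    obtain ⟨p, hp, hpz, hpo⟩ := hcen a
    have hpi : p⁻¹ a = o := by rw [Equiv.Perm.inv_eq_iff_eq, hpo]
    have hσ : σ = p * τ * p⁻¹ := by
      refine huni σ (p * τ * p⁻¹) a hs hrs (conj_rev (Or.inl hp) hr) (conj_inv ht) ha ?_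
      rw [Equiv.Perm.mul_apply, Equiv.Perm.mul_apply, hpi, hto, hpo]
    have hpz' : p⁻¹ * ζ * p = ζ := by
      rw [mul_assoc, ← hpz, ← mul_assoc, inv_mul_cancel, one_mul]
    have hpz2 : p * ζ⁻¹ * p⁻¹ = ζ⁻¹ := by
      calc p * ζ⁻¹ * p⁻¹ = (p * ζ * p⁻¹)⁻¹ := by group
        _ = (ζ * p * p⁻¹)⁻¹ := by rw [hpz]
        _ = ζ⁻¹ := by group
    rw [hσ]
    calc p * τ * p⁻¹ * ζ * (p * τ * p⁻¹) = p * (τ * (p⁻¹ * ζ * p) * τ) * p⁻¹ := by group
      _ = p * (τ * ζ * τ) * p⁻¹ := by rw [hpz']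
      _ = p * ζ⁻¹ * p⁻¹ := by rw [htz]
      _ = ζ⁻¹ := hpz2
  have htr : ∀ a b, ∃ g ∈ Trn χ, g a = b := by
    intro a b
    by_cases hab : a = b
    · exact ⟨1, trn_one χ, by rw [hab]; rfl⟩
    · obtain ⟨h, hh, h1, h2⟩ := hTT o (ζ o) a b (fun e => hζo e.symm) hab
      refine ⟨h * ζ * h⁻¹, trn_conj hz hh, ?_⟩
      have hi : h⁻¹ a = o := by rw [Equiv.Perm.inv_eq_iff_eq, h1]
      rw [Equiv.Perm.mul_apply, Equiv.Perm.mul_apply, hi, h2]
  have hfree : ∀ g ∈ Trn χ, ∀ a, g a = a → g = 1 := by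
    intro g hg a hga
    ext b
    obtain ⟨t, htt, hta⟩ := htr a b
    have hc := trn_comm ht hr hg htt
    have : g (t a) = t (g a) := by
      rw [← Equiv.Perm.mul_apply, hc, Equiv.Perm.mul_apply]
    rw [hga, hta] at this
    rw [this, Equiv.Perm.one_apply]
  refine ⟨fun g hg h hh => ⟨trn_mul ht hr hg hh, trn_comm ht hr hg hh⟩, ?_, htr, hfree⟩
  intro g hg
  by_cases hgo : g o = o
  · rw [hfree g hg o hgo, one_mul, one_mul]
  · obtain ⟨h, hh, h1, h2⟩ := hTT o (ζ o) o (g o) (fun e => hζo e.symm) (fun e => hgo e.symm)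
    have hk := trn_conj hz hh
    have hi : h⁻¹ o = o := by rw [Equiv.Perm.inv_eq_iff_eq, h1]
    have hko : (h * ζ * h⁻¹) o = g o := by
      rw [Equiv.Perm.mul_apply, Equiv.Perm.mul_apply, hi, h2]
    have h3 : g⁻¹ * (h * ζ * h⁻¹) = 1 := by
      refine hfree _ (trn_mul ht hr (trn_inv hg) hk) o ?_
      rw [Equiv.Perm.mul_apply, hko, ← Equiv.Perm.mul_apply, inv_mul_cancel,
        Equiv.Perm.one_apply]
    have h4 : g = h * ζ * h⁻¹ := (inv_mul_eq_one.1 h3)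
    rw [h4]
    calc h * ζ * h⁻¹ * (h * ζ * h⁻¹) * (h * ζ * h⁻¹) = h * (ζ * ζ * ζ) * h⁻¹ := by group
      _ = 1 := by rw [hζ3]; group

end Pool.Agent.TP3
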