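import Pool.Agent.Lib.MP_a1e562_co.OT.StmG

/-!
# [OT N1]: primes for 3-elements
-/

set_option autoImplicit false

namespace Pool.Agent.TP3

open scoped NumberTheorySymbols

private theorem otn1_nr {p a' b ℓ : ℕ} (hp : p.Prime) (hpo : Odd p) (ha' : Odd a') (hb : Odd b)
    (hℓ : ℓ.Prime) (hℓ4 : ℓ % 4 = 1) (h1 : ℓ ≡ 1 [MOD a']) (hcop : Nat.Coprime ℓ b)
    (hns : ¬ IsSquare ((ℓ : ℤ) : ZMod p)) : NR (b ^ 2 * (p * a')) ℓ := by
  have hf : Fact ℓ.Prime := ⟨hℓ⟩
  have hfp : Fact p.Prime := ⟨hp⟩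
  have hb0 : NeZero b := ⟨by rintro rfl; simp at hb⟩
  have ha0 : NeZero a' := ⟨by rintro rfl; simp at ha'⟩
  have hp0 : NeZero p := ⟨hp.ne_zero⟩
  have hodd : Odd (b ^ 2 * (p * a')) := (hb.pow).mul (hpo.mul ha')
  have hℓo : Odd ℓ := Nat.odd_iff.2 (by omega)
  have e1 : J(ℓ | b ^ 2 * (p * a')) = -1 := by
    rw [jacobiSym.mul_right, jacobiSym.mul_right, jacobiSym.pow_right]
    have e2 : J(ℓ | b) ^ 2 = 1 := by
      apply jacobiSym.sq_one
      rw [Int.gcd_natCast_natCast]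
      exact hcop
    have e3 : J(ℓ | p) = -1 := by
      rw [← jacobiSym.legendreSym.to_jacobiSym, legendreSym.eq_neg_one_iff]
      exact hns
    have e4 : J(ℓ | a') = 1 := by
      have e5 : J(ℓ | a') = J(1 | a') := by
        apply jacobiSym.mod_left'
        have := h1
        exact_mod_cast this
      rw [e5, jacobiSym.one_left]
    rw [e2, e3, e4]
    norm_num
  have e6 : J(-((b ^ 2 * (p * a') : ℕ) : ℤ) | ℓ) = -1 := by
    rw [jacobiSym.neg _ hℓo, ZMod.χ₄_nat_one_mod_four hℓ4, one_mul,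
      ← jacobiSym.quadratic_reciprocity_one_mod_four hℓ4 hodd, e1]
  rw [← jacobiSym.legendreSym.to_jacobiSym] at e6
  have e7 := legendreSym.eq_pow ℓ (-((b ^ 2 * (p * a') : ℕ) : ℤ))
  rw [e6] at e7
  unfold NR
  push_cast at e7 ⊢
  exact e7.symm

theorem s_OTN1 : S_OTN1 := by
  intro q hq4 hq3 hq j
  obtain ⟨a, b, hab, ha⟩ := Nat.sq_mul_squarefree q
  have hqo : Odd q := Nat.odd_iff.2 (by omega)
  rw [← hab] at hqo
  obtain ⟨hb2, hao⟩ := Nat.odd_mul.1 hqo
  have hbo : Odd b := by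
    rw [Nat.odd_pow_iff (by norm_num)] at hb2
    exact hb2
  have hb4 : b ^ 2 % 4 = 1 := by
    obtain ⟨m, rfl⟩ := hbo
    have : (2 * m + 1) ^ 2 = 4 * (m ^ 2 + m) + 1 := by ring
    omega
  obtain ⟨p, hp, hpa, hp3⟩ : ∃ p, p.Prime ∧ p ∣ a ∧ p ≠ 3 := by
    by_contra hcon
    push Not at hcon
    have ha1 : a ≠ 1 := by
      rintro rfl
      omega
    obtain ⟨p, hp, hpa⟩ := Nat.exists_prime_and_dvd ha1
    have := hcon p hp hpa
    subst this
    obtain ⟨c, rfl⟩ := hpa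
    by_cases hc : c = 1
    · subst hc
      exact hq ⟨b, by rw [← hab]; ring⟩
    · obtain ⟨p, hp', hpc⟩ := Nat.exists_prime_and_dvd hc
      have := hcon p hp' (hpc.mul_left 3)
      subst this
      obtain ⟨c', rfl⟩ := hpc
      have h3 := ha 3 ⟨c', by ring⟩
      exact absurd (Nat.isUnit_iff.1 h3) (by norm_num)
  obtain ⟨a', rfl⟩ := hpa
  obtain ⟨hpo, ha'o⟩ := Nat.odd_mul.1 hao
  have hpa' : Nat.Coprime p a' := (Nat.squarefree_mul_iff.1 ha).1
  have hfp : Fact p.Prime := ⟨hp⟩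
  have ha'0 : a' ≠ 0 := by rintro rfl; simp at ha'o
  have hMp : Nat.Coprime (4 * 3 ^ (j + 1) * a') p := by
    apply Nat.Coprime.mul_left
    · apply Nat.Coprime.mul_left
      · have h2 : Nat.Coprime 2 p := by
          rw [Nat.coprime_two_left]
          exact hpo
        have : (4 : ℕ) = 2 ^ 2 := by norm_num
        rw [this]
        exact h2.pow_left 2
      · apply Nat.Coprime.pow_left
        rw [Nat.coprime_primes Nat.prime_three hp]
        exact hp3.symm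
    · exact hpa'.symm
  obtain ⟨x, hx⟩ := FiniteField.exists_nonsquare (F := ZMod p) (by
    rw [ZMod.ringChar_zmod_n]
    intro h
    rw [h] at hpo
    exact absurd hpo (by decide))
  obtain ⟨k, hk1, hk2⟩ := Nat.chineseRemainder hMp 1 x.val
  have hx0 : x ≠ 0 := by
    rintro rfl
    exact hx (IsSquare.zero)
  have hkx : ((k : ℕ) : ZMod p) = x := by
    rw [(ZMod.natCast_eq_natCast_iff k x.val p).2 hk2, ZMod.natCast_zmod_val]
  have hkc : Nat.Coprime k (4 * 3 ^ (j + 1) * a' * p) := by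
    apply Nat.Coprime.mul_right
    · have h4 := hk1.gcd_eq
      rw [Nat.gcd_one_left] at h4
      exact h4
    · rw [Nat.coprime_comm, hp.coprime_iff_not_dvd]
      intro h5
      rw [← ZMod.natCast_eq_zero_iff, hkx] at h5
      exact hx0 h5
  have hne : 4 * 3 ^ (j + 1) * a' * p ≠ 0 := by
    have := hp.ne_zero
    positivity
  obtain ⟨ℓ, hℓq, hℓ, hℓk⟩ := Nat.forall_exists_prime_gt_and_modEq q hne hkc
  have hℓM : ℓ ≡ 1 [MOD 4 * 3 ^ (j + 1) * a'] :=
    (hℓk.of_mul_right p).trans hk1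
  have hℓp : ℓ ≡ x.val [MOD p] := (hℓk.of_mul_left _).trans hk2
  have hℓ4 : ℓ % 4 = 1 := by
    have h6 : ℓ ≡ 1 [MOD 4] := by
      have : 4 * 3 ^ (j + 1) * a' = 4 * (3 ^ (j + 1) * a') := by ring
      rw [this] at hℓM
      exact hℓM.of_mul_right _
    exact h6
  have hℓa : ℓ ≡ 1 [MOD a'] := hℓM.of_mul_left _
  refine ⟨ℓ, hℓ, hℓq, ?_, ?_⟩
  · have h7 : 4 * 3 ^ (j + 1) * a' ∣ ℓ - 1 := (Nat.modEq_iff_dvd' hℓ.one_le).1 hℓM.symm
    refine Dvd.dvd.trans ?_ h7
    refine Dvd.dvd.trans (pow_dvd_pow 3 (Nat.le_succ j)) ?_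
    exact Dvd.intro_left 4 rfl |>.mul_right a'
  · rw [← hab]
    apply otn1_nr hp hpo ha'o hbo hℓ hℓ4 hℓa
    · rw [hℓ.coprime_iff_not_dvd]
      intro h8
      have hb0 : 0 < b := hbo.pos
      have h9 := Nat.le_of_dvd hb0 h8
      have h10 : b ≤ q := by
        rw [← hab]
        have h11 : 0 < p * a' := Nat.mul_pos hp.pos (Nat.pos_of_ne_zero ha'0)
        calc b ≤ b * (b * (p * a')) := Nat.le_mul_of_pos_right b (Nat.mul_pos hb0 h11)
          _ = b ^ 2 * (p * a') := by ring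
      omega
    · have h12 : ((ℓ : ℤ) : ZMod p) = x := by
        rw [Int.cast_natCast, (ZMod.natCast_eq_natCast_iff ℓ x.val p).2 hℓp,
          ZMod.natCast_zmod_val]
      rw [h12]
      exact hx

end Pool.Agent.TP3
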