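import Pool.Agent.Lib.MP_a1e562_co.OT.StmG

/-!
# [OT N2]: primes for elements of order prime to 3 (helper68)
-/

set_option autoImplicit false

namespace Pool.Agent.TP3

/-- if `-3` is a square modulo the prime `ℓ > 3` then `3 ∣ ℓ - 1` -/
private theorem otn2_three {ℓ : ℕ} [hf : Fact ℓ.Prime] (h2 : (2 : ZMod ℓ) ≠ 0)
    (h3 : (3 : ZMod ℓ) ≠ 0) (x : ZMod ℓ) (hx : x * x = -3) : 3 ∣ ℓ - 1 := by
  set y : ZMod ℓ := (-1 + x) / 2 with hy
  have hy2 : 2 * y = -1 + x := by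
    rw [hy]
    field_simp
  have hy1 : y * y + y + 1 = 0 := by
    have h4 : (2 * 2) * (y * y + y + 1) = 0 := by
      have : (2 * 2) * (y * y + y + 1) = (2 * y) * (2 * y) + 2 * (2 * y) + 4 := by ring
      rw [this, hy2]
      have : (-1 + x) * (-1 + x) + 2 * (-1 + x) + 4 = x * x + 3 := by ring
      rw [this, hx]
      ring
    rcases mul_eq_zero.1 h4 with h5 | h5
    · exact absurd h5 (mul_ne_zero h2 h2)
    · exact h5
  have hyne : y ≠ 1 := by
    intro h4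
    rw [h4] at hy1
    apply h3
    rw [← hy1]
    ring
  have hy3 : y ^ 3 = 1 := by
    have : y ^ 3 = (y - 1) * (y * y + y + 1) + 1 := by ring
    rw [this, hy1]
    ring
  have hy0 : y ≠ 0 := by
    intro h4
    rw [h4] at hy3
    simp at hy3
  have hf3 : Fact (Nat.Prime 3) := ⟨Nat.prime_three⟩
  have ho : orderOf y = 3 := orderOf_eq_prime hy3 hyne
  rw [← ho]
  exact ZMod.orderOf_dvd_card_sub_one hy0

theorem s_OTN2 : S_OTN2 := by
  intro k hk t ht htc
  obtain ⟨c, hc1, hc2⟩ := Nat.chineseRemainder htc 1 2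
  have hcc : Nat.Coprime c (t * 3) := by
    apply Nat.Coprime.mul_right
    · have h4 := hc1.gcd_eq
      rw [Nat.gcd_one_left] at h4
      exact h4
    · have h4 := hc2.gcd_eq
      have h5 : Nat.gcd 2 3 = 1 := by norm_num
      rw [h5] at h4
      exact h4
  have hne : t * 3 ≠ 0 := by positivity
  obtain ⟨ℓ, hℓq, hℓ, hℓc⟩ := Nat.forall_exists_prime_gt_and_modEq (3 * k ^ 2 + 3) hne hcc
  have hf : Fact ℓ.Prime := ⟨hℓ⟩
  have hℓt : ℓ ≡ 1 [MOD t] := (hℓc.of_mul_right 3).trans hc1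
  have hℓ3 : ℓ ≡ 2 [MOD 3] := (hℓc.of_mul_left t).trans hc2
  have hmod : ℓ % 3 = 2 := hℓ3
  refine ⟨ℓ, hℓ, by omega, (Nat.modEq_iff_dvd' hℓ.one_le).1 hℓt.symm, ?_⟩
  have hkpos : 0 < k := Nat.pos_of_ne_zero hk
  have hkk : k ≤ k ^ 2 := Nat.le_self_pow (by norm_num) k
  have hk0 : (k : ZMod ℓ) ≠ 0 := by
    intro h
    rw [ZMod.natCast_eq_zero_iff] at h
    have := Nat.le_of_dvd hkpos h
    omega
  have h30 : (3 : ZMod ℓ) ≠ 0 := by
    intro h
    have h' : ((3 : ℕ) : ZMod ℓ) = 0 := by exact_mod_cast h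
    rw [ZMod.natCast_eq_zero_iff] at h'
    have := Nat.le_of_dvd (by norm_num) h'
    omega
  have h20 : (2 : ZMod ℓ) ≠ 0 := by
    intro h
    have h' : ((2 : ℕ) : ZMod ℓ) = 0 := by exact_mod_cast h
    rw [ZMod.natCast_eq_zero_iff] at h'
    have := Nat.le_of_dvd (by norm_num) h'
    omega
  unfold NR
  have ha : (-((3 * k ^ 2 : ℕ) : ZMod ℓ)) ≠ 0 := by
    rw [neg_ne_zero]
    push_cast
    exact mul_ne_zero h30 (pow_ne_zero 2 hk0)
  rcases ZMod.pow_div_two_eq_neg_one_or_one ℓ ha with h | h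
  · exfalso
    have hsq := (ZMod.euler_criterion ℓ ha).2 h
    obtain ⟨z, hz⟩ := hsq
    have hx : (z / k) * (z / k) = (-3 : ZMod ℓ) := by
      rw [div_mul_div_comm, ← hz]
      push_cast
      field_simp
    have := otn2_three h20 h30 (z / k) hx
    omega
  · exact h

end Pool.Agent.TP3
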