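import Pool.Agent.Lib.MP_a1e562_co.OT.Asm
import Pool.Agent.Lib.MP_a1e562_co.SF.Short
import Pool.Agent.Lib.MP_a1e562_co.A1
import Pool.Agent.Lib.MP_a1e562_co.A2
import Pool.Agent.Lib.MP_a1e562_co.SF.PSYL
import Pool.Agent.Lib.MP_a1e562_co.IH.PGO
import Pool.Agent.Lib.MP_a1e562_co.IH.PGB
import Pool.Agent.Lib.MP_a1e562_co.OT.PA1
import Pool.Agent.Lib.MP_a1e562_co.OT.PA2
import Pool.Agent.Lib.MP_a1e562_co.OT.PA3
import Pool.Agent.Lib.MP_a1e562_co.OT.PA4
import Pool.Agent.Lib.MP_a1e562_co.OT.PA5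
import Pool.Agent.Lib.MP_a1e562_co.OT.PA6
import Pool.Agent.Lib.MP_a1e562_co.OT.PB1
import Pool.Agent.Lib.MP_a1e562_co.OT.PB2
import Pool.Agent.Lib.MP_a1e562_co.OT.PB3
import Pool.Agent.Lib.MP_a1e562_co.OT.PB4
import Pool.Agent.Lib.MP_a1e562_co.OT.PB5
import Pool.Agent.Lib.MP_a1e562_co.OT.PB6
import Pool.Agent.Lib.MP_a1e562_co.OT.PB7
import Pool.Agent.Lib.MP_a1e562_co.OT.PD1
import Pool.Agent.Lib.MP_a1e562_co.OT.PD2
import Pool.Agent.Lib.MP_a1e562_co.OT.PD3
import Pool.Agent.Lib.MP_a1e562_co.OT.PD4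
import Pool.Agent.Lib.MP_a1e562_co.OT.PD5
import Pool.Agent.Lib.MP_a1e562_co.OT.PD6
import Pool.Agent.Lib.MP_a1e562_co.OT.PN1
import Pool.Agent.Lib.MP_a1e562_co.OT.PN2
import Pool.Agent.Lib.MP_a1e562_co.OT.PG1
import Pool.Agent.Lib.MP_a1e562_co.OT.PG2
import Pool.Agent.Lib.MP_a1e562_co.OT.PG3
import Pool.Agent.Lib.MP_a1e562_co.OT.PG4
import Pool.Agent.Lib.MP_a1e562_co.OT.PG5
import Pool.Agent.Lib.MP_a1e562_co.OT.PG6
import Pool.Agent.Lib.MP_a1e562_co.OT.PG7
import Pool.Agent.Lib.MP_a1e562_co.OT.PG8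
import Pool.Agent.Lib.MP_a1e562_co.OT.PG9

/-! # Planes of characteristic three whose order is 3 mod 4 are desarguesian -/

set_option autoImplicit false

namespace Pool.Agent.TP3

open Configuration

/-- the set of lines of a plane with finitely many points is finite -/
theorem ot_finite_lines (P L : Type) [Membership P L] [ProjectivePlane P L] [Finite P] :
    Finite L := by
  have hinj : Function.Injective (fun l : L => {p : P | p ∈ l}) := by
    intro l m hlm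
    have hlm' : ∀ p : P, p ∈ l ↔ p ∈ m := fun p => by
      have := congrArg (fun s : Set P => p ∈ s) hlm
      simpa using this
    by_contra hne
    have hr := HasPoints.mkPoint_ax (P := P) (L := L) hne
    set r := HasPoints.mkPoint (P := P) hne with hrdef
    have huni : ∀ p : P, p ∈ l → p = r := by
      intro p hp
      by_contra hpr
      rcases Nondegenerate.eq_or_eq hp hr.1 ((hlm' p).1 hp) hr.2 with h | h
      · exact hpr h
      · exact hne h
    obtain ⟨k, hk⟩ := Nondegenerate.exists_line (P := P) (L := L) r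
    have hkl : k ≠ l := by
      rintro rfl
      exact hk hr.1
    have h2 := HasPoints.mkPoint_ax (P := P) (L := L) hkl
    apply hk
    rw [← huni _ h2.2]
    exact h2.1
  exact Finite.of_injective _ hinj

theorem ot_TT : S_OTTT :=
  OTAsm_TT s_SFSYL s_IHGO s_IHGB s_OTN1 s_OTN2 s_OTG1 s_OTG2 s_OTG3 s_OTG4 s_OTG5 s_OTG6 s_OTG7
    s_OTG8 s_OTG9

theorem order_three_mod_four (P L : Type) [Membership P L] [ProjectivePlane P L] [Finite P]
    (hc : CharThree P L) (ho : ProjectivePlane.order P L % 4 = 3) : IsDesarguesian P L := by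
  haveI : Finite L := ot_finite_lines P L
  have hQ : Quad4 P L := s_A1 P L hc
  have hI : Inc P L := s_A2 P L hQ
  obtain ⟨R, hR⟩ := OTAsm_harm s_OTA1 s_OTA2 s_OTA3 s_OTA4 s_OTA5 s_OTA6 s_OTB1 s_OTB2 s_OTB3
    s_OTB4 s_OTB5 s_OTB6 s_OTB7 ot_TT P L hQ hI ho
  exact semifield_short P L hc (s_OTD6 s_OTD1 s_OTD2 s_OTD3 s_OTD4 s_OTD5 P L R hR)

end Pool.Agent.TP3
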