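import Pool.Agent.Lib.MP_a1e562_co.OT.StmG

/-! # Assembly of the project OT -/

set_option autoImplicit false

namespace Pool.Agent.TP3

open Configuration

/-- the signs of a plane of characteristic three -/
theorem OTAsm_signs (hA1 : S_OTA1) (hA2 : S_OTA2) (hA3 : S_OTA3) (hA4 : S_OTA4) (hA5 : S_OTA5)
    (P L : Type) [Membership P L] [ProjectivePlane P L] [Finite P] [Finite L]
    (hQ : Quad4 P L) (hI : Inc P L) (hord : ProjectivePlane.order P L % 4 = 3) :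
    ∃ s : P → L → ℤ, Sg P L s := by
  obtain ⟨s, hv, h4, h6⟩ := hA2 hA1 P L
  have hsq : ∀ A l, s A l * s A l = 1 := by
    intro A l
    rcases hv A l with h | h <;> rw [h] <;> norm_num
  refine ⟨s, hv, ?_, ?_⟩
  · intro A B Z l m k hAl hAm hBl hBm hZl hZm hAk hBk hZk
    by_cases hAB : A = B
    · rw [hAB]
    by_cases hlm : l = m
    · rw [hlm, hsq, hsq]
    obtain ⟨g, hg, hg3, _⟩ := hA3 hA1 P L hI A B Z l m k hAB hlm hAl hAm hBl hBm hZl hZm hAk hBk hZk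
    have h := h4 A B l m g hAl hAm hBl hBm hg hg3
    have h1 := hsq B m
    have h2 := hsq B l
    calc s A l * s A m = s A l * s A m * (s B m * s B m) * (s B l * s B l) := by
          rw [h1, h2]; ring
      _ = (s A l * s A m * s B m * s B l) * (s B l * s B m) := by ring
      _ = s B l * s B m := by rw [h, one_mul]
  · intro A B C Q k a b c hAB hBC hAC hAk hBk hCk hQk hQa hAa hQb hBb hQc hCc
    have hne : ∀ (X Y : P) (g : L), X ∈ k → Y ∈ k → X ≠ Y → Q ∈ g → X ∈ g → Y ∉ g := by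
      intro X Y g hX hY hXY hQg hXg hYg
      rcases Nondegenerate.eq_or_eq hX hY hXg hYg with h | h
      · exact hXY h
      · rw [h] at hQk
        exact hQk hQg
    obtain ⟨g, hg, hg2, hfix⟩ := hA5 hA1 hA4 P L hQ A B C Q k a b c hAB hBC hAC hAk hBk hCk hQk
      hQa hAa hQb hBb hQc hCc
    have h := h6 A B C a b c g (hne B A b hBk hAk (Ne.symm hAB) hQb hBb)
      (hne C A c hCk hAk (Ne.symm hAC) hQc hCc) (hne A B a hAk hBk hAB hQa hAa)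
      (hne C B c hCk hBk (Ne.symm hBC) hQc hCc) (hne A C a hAk hCk hAC hQa hAa)
      (hne B C b hBk hCk hBC hQb hBb) hg hg2 hfix hord
    rw [← h]
    ring

/-- the tournament theorem -/
theorem OTAsm_TT (hSYL : S_SFSYL) (hO : S_IHGO) (hB : S_IHGB) (hN1 : S_OTN1) (hN2 : S_OTN2)
    (hG1 : S_OTG1) (hG2 : S_OTG2) (hG3 : S_OTG3) (hG4 : S_OTG4) (hG5 : S_OTG5) (hG6 : S_OTG6)
    (hG7 : S_OTG7) (hG8 : S_OTG8) (hG9 : S_OTG9) : S_OTTT := by
  intro X _ χ hT hTT hc h3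
  have hodd : Odd (Nat.card X) := by
    rw [Nat.odd_iff]; omega
  have h2 : 2 ≤ Nat.card X := by omega
  obtain ⟨h4a, h4b, h4c, h4d⟩ := hG4 hO X χ hT hTT hodd h2
  obtain ⟨⟨n, hn⟩, h5⟩ := hG5 hSYL hO hB hN1 hN2 hG1 hG2 hG3 hG4 X χ hT hTT hc h3
  haveI : Nonempty X := (Nat.card_pos_iff.1 (by omega)).1
  obtain ⟨o⟩ : Nonempty X := inferInstance
  obtain ⟨τ, hτ1, hτ2, hτo⟩ := h4b o
  obtain ⟨ζ, hζ, hζ3, hζo, hζτ, hζp, hζ5⟩ := hG6 hSYL hO hG4 X χ hT hTT n hn h2 τ o hτ1 hτ2 hτo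
  have hz := hG7 X χ hT h5 τ o hτ1 hτ2 hτo ζ hζ hζ3 hζo hζτ hζ5
  have huni := hG8 X χ hT hTT h4a τ o hτ1 hτ2 hτo ζ hζ hζ3 hζo hζτ hz
  exact hG9 X χ hT hTT h4a huni τ o hτ1 hτ2 hτo ζ hζ hζ3 hζo hζτ hζp

/-- the affine structures on the lines -/
theorem OTAsm_harm (hA1 : S_OTA1) (hA2 : S_OTA2) (hA3 : S_OTA3) (hA4 : S_OTA4) (hA5 : S_OTA5)
    (hA6 : S_OTA6) (hB1 : S_OTB1) (hB2 : S_OTB2) (hB3 : S_OTB3) (hB4 : S_OTB4) (hB5 : S_OTB5)
    (hB6 : S_OTB6) (hB7 : S_OTB7) (hTT : S_OTTT)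
    (P L : Type) [Membership P L] [ProjectivePlane P L] [Finite P] [Finite L]
    (hQ : Quad4 P L) (hI : Inc P L) (hord : ProjectivePlane.order P L % 4 = 3) :
    ∃ R : ∀ (Z : P) (m : L), Aff P L Z m → Aff P L Z m → Aff P L Z m → Prop, Harm P L R := by
  obtain ⟨s, hs⟩ := OTAsm_signs hA1 hA2 hA3 hA4 hA5 P L hQ hI hord
  exact hB7 hB1 hB2 hB3 hB4 hB5 hB6 hTT P L s hs hord (hA6 (hA3 hA1) P L hI)

end Pool.Agent.TP3
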