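import Pool.Agent.Lib.MP_a1e562_co.IH.Stm

/-!
# Planes of characteristic three whose order is 3 mod 4: definitions

`s A l` is the sign of the bijection between the pencil of `A` and the points of `l`.
-/

set_option autoImplicit false

namespace Pool.Agent.TP3

open Configuration

/-! ## tournaments -/

/-- `g` preserves `χ` -/
def Pres {X : Type} (χ : X → X → ℤ) (g : Equiv.Perm X) : Prop :=
  ∀ a b, χ (g a) (g b) = χ a b

/-- `g` reverses `χ` -/
def Rev {X : Type} (χ : X → X → ℤ) (g : Equiv.Perm X) : Prop :=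
  ∀ a b, χ (g a) (g b) = -χ a b

/-- the permutations that preserve or reverse `χ` are 2-transitive -/
def TwoTr {X : Type} (χ : X → X → ℤ) : Prop :=
  ∀ a b c d : X, a ≠ b → c ≠ d → ∃ g : Equiv.Perm X, (Pres χ g ∨ Rev χ g) ∧ g a = c ∧ g b = d

/-- the translations of `χ`: preserve `χ`, inverted by every involution that reverses `χ` -/
def Trn {X : Type} (χ : X → X → ℤ) : Set (Equiv.Perm X) :=
  {g | Pres χ g ∧ ∀ τ : Equiv.Perm X, τ * τ = 1 → Rev χ τ → τ * g * τ = g⁻¹}

/-- the group of the permutations that preserve `χ` -/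
def PG {X : Type} (χ : X → X → ℤ) : Subgroup (Equiv.Perm X) where
  carrier := {g | Pres χ g}
  one_mem' := fun _ _ => rfl
  mul_mem' := by
    intro g h hg hh a b
    rw [Equiv.Perm.mul_apply, Equiv.Perm.mul_apply, hg, hh]
  inv_mem' := by
    intro g hg a b
    have := hg (g⁻¹ a) (g⁻¹ b)
    simpa using this.symm

theorem mem_PG {X : Type} {χ : X → X → ℤ} {g : Equiv.Perm X} : g ∈ PG χ ↔ Pres χ g := Iff.rfl

/-- `-q` is not a square modulo `ℓ` (Euler's form) -/
def NR (q ℓ : ℕ) : Prop := (-(q : ZMod ℓ)) ^ (ℓ / 2) = -1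

/-! ## signs of antiflags -/

/-- a sign for every antiflag, with the two sign laws of planes of characteristic three and order
3 mod 4 -/
structure Sg (P L : Type) [Membership P L] (s : P → L → ℤ) : Prop where
  val : ∀ A l, s A l = 1 ∨ s A l = -1
  s1 : ∀ (A B Z : P) (l m k : L), A ∉ l → A ∉ m → B ∉ l → B ∉ m → Z ∈ l → Z ∈ m →
    A ∈ k → B ∈ k → Z ∈ k → s A l * s A m = s B l * s B m
  s2 : ∀ (A B C Q : P) (k a b c : L), A ≠ B → B ≠ C → A ≠ C → A ∈ k → B ∈ k → C ∈ k → Q ∉ k →
    Q ∈ a → A ∈ a → Q ∈ b → B ∈ b → Q ∈ c → C ∈ c →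
    s A b * s A c * s B a * s B c * s C a * s C b = -1

/-- the points of `m` other than `Z` -/
abbrev Aff (P L : Type) [Membership P L] (Z : P) (m : L) : Type := {X : P // X ∈ m ∧ X ≠ Z}

/-- `Q, X, Y` are on a line -/
def Al (P L : Type) [Membership P L] (Q X Y : P) : Prop := ∃ g : L, Q ∈ g ∧ X ∈ g ∧ Y ∈ g

/-- `g` is the projectivity `l → m → l` with centres `A`, `B` -/
def Ch4 {P L : Type} [Membership P L] (A B : P) (l m : L) (g : Equiv.Perm {X : P // X ∈ l}) :
    Prop :=
  ∀ X : {X : P // X ∈ l}, ∃ Y : P, Y ∈ m ∧ Al P L A X Y ∧ Al P L B Y (g X)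

/-- `g` is the projectivity `c → b → a → c` with centres `A`, `C`, `B` -/
def Ch6 {P L : Type} [Membership P L] (A B C : P) (a b c : L)
    (g : Equiv.Perm {X : P // X ∈ c}) : Prop :=
  ∀ X : {X : P // X ∈ c}, ∃ Y W : P, Y ∈ b ∧ W ∈ a ∧ Al P L A X Y ∧ Al P L C Y W ∧
    Al P L B W (g X)

/-- tournament of a flag -/
def IsT {P L : Type} [Membership P L] (s : P → L → ℤ) (Z : P) (m : L)
    (χ : Aff P L Z m → Aff P L Z m → ℤ) : Prop :=
  Tour (Aff P L Z m) χ ∧ ∀ A B C : Aff P L Z m, A ≠ C → B ≠ C → ∀ l z : L, (C : P) ∈ l → l ≠ m →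
    Z ∈ z → z ≠ m → χ A C * χ B C = s A l * s B l * s A z * s B z

/-! ## affine structures -/

/-- `R Z m A B C` is the relation `A + B + C = 0` of an affine space over the field with three
elements on the points of `m` other than `Z`; all perspectivities are affine. -/
structure Harm (P L : Type) [Membership P L]
    (R : ∀ (Z : P) (m : L), Aff P L Z m → Aff P L Z m → Aff P L Z m → Prop) : Prop where
  grp : ∀ (Z : P) (m : L), Z ∈ m → ∃ (V : Type) (_ : AddCommGroup V) (e : Aff P L Z m ≃ V),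
    (∀ v : V, v + v + v = 0) ∧ ∀ A B C, R Z m A B C ↔ e A + e B + e C = 0
  persp : ∀ (Q Z Z' : P) (m x : L), Q ∉ m → Q ∉ x → Z ∈ m → Z' ∈ x → Al P L Q Z Z' →
    ∀ (A B C : Aff P L Z m) (A' B' C' : Aff P L Z' x), Al P L Q A A' → Al P L Q B B' →
      Al P L Q C C' → R Z m A B C → R Z' x A' B' C'

/-- `f` preserves `a + b + c = 0` -/
def Af {V W : Type} [AddCommGroup V] [AddCommGroup W] (f : V → W) : Prop :=
  ∀ a b c : V, a + b + c = 0 → f a + f b + f c = 0

/-- planar ternary ring of a plane: `m` is the line `x = 0`, `Z` its point at infinity on `inf`,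
`E` the point at infinity of the `x`-axis `h` -/
structure Frm (P L : Type) [Membership P L] (Z E O : P) (inf m h : L) : Prop where
  Zi : Z ∈ inf
  Zm : Z ∈ m
  Ei : E ∈ inf
  Eh : E ∈ h
  Om : O ∈ m
  Oh : O ∈ h
  im : inf ≠ m
  EZ : E ≠ Z
  OZ : O ≠ Z

/-- `y` is the value of the ternary operation: there is a point `X` on the vertical line of `c`, on
the line of slope `A` and intercept `b`, and on the line `E y` -/
def Tern {P L : Type} [Membership P L] (Z E : P) (c A b y : P) : Prop :=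
  ∃ X : P, Al P L Z c X ∧ Al P L A b X ∧ Al P L E X y

end Pool.Agent.TP3
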