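import Pool.Agent.Lib.MP_a1e562_co.OT.Stm

/-! # [OT A5] The involution `c → b → a → c` -/

set_option autoImplicit false

namespace Pool.Agent.TP3

open Configuration

namespace OTA5

variable {P L : Type} [Membership P L] [ProjectivePlane P L]

theorem ln {p q : P} {l m : L} (h : p ≠ q) (h1 : p ∈ l) (h2 : q ∈ l) (h3 : p ∈ m)
    (h4 : q ∈ m) : l = m :=
  (Nondegenerate.eq_or_eq h1 h2 h3 h4).resolve_left h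

theorem pt {p q : P} {l m : L} (h : l ≠ m) (h1 : p ∈ l) (h2 : q ∈ l) (h3 : p ∈ m)
    (h4 : q ∈ m) : p = q :=
  (Nondegenerate.eq_or_eq h1 h2 h3 h4).resolve_right h

/-- the perspectivity from `l` to `m` with centre `A` -/
theorem persp (h1 : S_OTA1) (A : P) (l m : L) (hl : A ∉ l) (hm : A ∉ m) :
    ∃ φ : {X : P // X ∈ l} ≃ {X : P // X ∈ m}, ∀ X : {X : P // X ∈ l}, Al P L A (X : P) (φ X : P) := by
  obtain ⟨f, hf⟩ := h1 P L A l hl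
  obtain ⟨f', hf'⟩ := h1 P L A m hm
  refine ⟨f.symm.trans f', fun X => ⟨(f.symm X : {g : L // A ∈ g}), (f.symm X).2, ?_, hf' _⟩⟩
  have := hf (f.symm X)
  rwa [Equiv.apply_symm_apply] at this

/-- the figure: `A, B, C` on `k`, `Q` off `k`, `a = AQ`, `b = BQ`, `c = CQ` -/
structure Fig (A B C Q : P) (k a b c : L) : Prop where
  AB : A ≠ B
  BC : B ≠ C
  AC : A ≠ C
  Ak : A ∈ k
  Bk : B ∈ k
  Ck : C ∈ k
  Qk : Q ∉ k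
  Qa : Q ∈ a
  Aa : A ∈ a
  Qb : Q ∈ b
  Bb : B ∈ b
  Qc : Q ∈ c
  Cc : C ∈ c

theorem Fig.off {A B : P} {Q : P} {k b : L} (AB : A ≠ B) (Ak : A ∈ k) (Bk : B ∈ k) (Qk : Q ∉ k)
    (Qb : Q ∈ b) (Bb : B ∈ b) : A ∉ b := fun h => by
  have := ln AB h Bb Ak Bk
  rw [this] at Qb
  exact Qk Qb

/-- the chain `X, Y, W, X'` -/
structure Chn (A B C : P) (a b c : L) (X Y W X' : P) : Prop where
  Xc : X ∈ c
  Yb : Y ∈ b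
  Wa : W ∈ a
  X'c : X' ∈ c
  h1 : Al P L A X Y
  h2 : Al P L C Y W
  h3 : Al P L B W X'

variable {A B C Q : P} {k a b c : L}

/-- `A, B, Q, X` is a quadrangle -/
theorem quadr (F : Fig A B C Q k a b c) {X : P} (Xc : X ∈ c) (XQ : X ≠ Q) (XC : X ≠ C) :
    ¬ Al P L A B Q ∧ ¬ Al P L A B X ∧ ¬ Al P L A Q X ∧ ¬ Al P L B Q X := by
  have Ac : A ∉ c := Fig.off F.AC F.Ak F.Ck F.Qk F.Qc F.Cc
  have Bc : B ∉ c := Fig.off F.BC F.Bk F.Ck F.Qk F.Qc F.Cc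
  refine ⟨?_, ?_, ?_, ?_⟩
  · rintro ⟨g, hA, hB, hQ⟩
    have := ln F.AB hA hB F.Ak F.Bk
    rw [this] at hQ
    exact F.Qk hQ
  · rintro ⟨g, hA, hB, hX⟩
    have := ln F.AB hA hB F.Ak F.Bk
    rw [this] at hX
    have kc : k ≠ c := fun h => Ac (h ▸ F.Ak)
    exact XC (pt kc hX F.Ck Xc F.Cc)
  · rintro ⟨g, hA, hQ, hX⟩
    have := ln XQ hX hQ Xc F.Qc
    rw [this] at hA
    exact Ac hA
  · rintro ⟨g, hB, hQ, hX⟩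
    have := ln XQ hX hQ Xc F.Qc
    rw [this] at hB
    exact Bc hB

theorem memD (F : Fig A B C Q k a b c) {D : Set P} (hD : Sub4 P L D) (AD : A ∈ D) (BD : B ∈ D)
    (QD : Q ∈ D) {X Y W X' : P} (H : Chn A B C a b c X Y W X') (XD : X ∈ D) (XQ : X ≠ Q)
    (_ : X ≠ C) : C ∈ D ∧ X' ∈ D := by
  have Ac : A ∉ c := Fig.off F.AC F.Ak F.Ck F.Qk F.Qc F.Cc
  have Bc : B ∉ c := Fig.off F.BC F.Bk F.Ck F.Qk F.Qc F.Cc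
  have Ab : A ∉ b := Fig.off F.AB F.Ak F.Bk F.Qk F.Qb F.Bb
  have Cb : C ∉ b := Fig.off F.BC.symm F.Ck F.Bk F.Qk F.Qb F.Bb
  have Ba : B ∉ a := Fig.off F.AB.symm F.Bk F.Ak F.Qk F.Qa F.Aa
  have Ca : C ∉ a := Fig.off F.AC.symm F.Ck F.Ak F.Qk F.Qa F.Aa
  have kc : k ≠ c := fun h => Ac (h ▸ F.Ak)
  obtain ⟨u, Au, Xu, Yu⟩ := H.h1
  obtain ⟨v, Cv, Yv, Wv⟩ := H.h2
  obtain ⟨w, Bw, Ww, X'w⟩ := H.h3
  have CD : C ∈ D := hD.meet A AD B BD F.AB Q QD X XD XQ.symm k c kc F.Ak F.Bk F.Qc H.Xc C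
    F.Ck F.Cc
  have BQ : B ≠ Q := fun h => Bc (h ▸ F.Qc)
  have AQ : A ≠ Q := fun h => Ac (h ▸ F.Qc)
  have AX : A ≠ X := fun h => Ac (h ▸ H.Xc)
  have ub : u ≠ b := fun h => Ab (h ▸ Au)
  have YD : Y ∈ D := hD.meet A AD X XD AX B BD Q QD BQ u b ub Au Xu F.Bb F.Qb Y Yu H.Yb
  have CY : C ≠ Y := fun h => Cb (h ▸ H.Yb)
  have va : v ≠ a := fun h => Ca (h ▸ Cv)
  have WD : W ∈ D := hD.meet C CD Y YD CY A AD Q QD AQ v a va Cv Yv F.Aa F.Qa W Wv H.Wa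
  have BW : B ≠ W := fun h => Ba (h ▸ H.Wa)
  have wc : w ≠ c := fun h => Bc (h ▸ Bw)
  exact ⟨CD, hD.meet B BD W WD BW Q QD X XD XQ.symm w c wc Bw Ww F.Qc H.Xc X' X'w H.X'c⟩

theorem moved (F : Fig A B C Q k a b c) (h4 : S_OTA4) {D : Set P} (hD : Sub4 P L D)
    (AD : A ∈ D) (BD : B ∈ D) (QD : Q ∈ D) {X Y W X' : P} (H : Chn A B C a b c X Y W X')
    (XD : X ∈ D) (XQ : X ≠ Q) (XC : X ≠ C) : X' ≠ X := by
  rintro rfl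
  obtain ⟨n1, n2, n3, n4⟩ := quadr F H.Xc XQ XC
  obtain ⟨v, Cv, Yv, Wv⟩ := H.h2
  have Al' : Al P L B X' W := by
    obtain ⟨w, Bw, Ww, X'w⟩ := H.h3
    exact ⟨w, Bw, X'w, Ww⟩
  exact h4 P L D hD A B Q X' C Y W v AD BD QD XD n1 n2 n3 n4 ⟨k, F.Ak, F.Bk, F.Ck⟩
    ⟨c, F.Qc, H.Xc, F.Cc⟩ H.h1 ⟨b, F.Bb, F.Qb, H.Yb⟩ ⟨a, F.Aa, F.Qa, H.Wa⟩ Al' Cv Yv Wv

omit [ProjectivePlane P L] in
theorem four_eq {D : Set P} (hD : Sub4 P L D) {Q C X X' X'' : P} {c : L} (QD : Q ∈ D)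
    (CD : C ∈ D) (XD : X ∈ D) (X'D : X' ∈ D) (X''D : X'' ∈ D) (Qc : Q ∈ c) (Cc : C ∈ c)
    (Xc : X ∈ c) (X'c : X' ∈ c) (X''c : X'' ∈ c) (QC : Q ≠ C) (XQ : X ≠ Q) (XC : X ≠ C)
    (X'Q : X' ≠ Q) (X'C : X' ≠ C) (X''Q : X'' ≠ Q) (X''C : X'' ≠ C) (XX' : X' ≠ X)
    (X'X'' : X'' ≠ X') : X'' = X := by
  classical
  by_contra hne
  have h4 := hD.four Q QD C CD QC c Qc Cc
  have hfin : {x : P | x ∈ D ∧ x ∈ c}.Finite := Set.finite_of_ncard_ne_zero (by rw [h4]; decide)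
  have hsub : (({Q, C, X, X', X''} : Finset P) : Set P) ⊆ {x : P | x ∈ D ∧ x ∈ c} := by
    intro x hx
    simp only [Finset.coe_insert, Finset.coe_singleton, Set.mem_insert_iff,
      Set.mem_singleton_iff] at hx
    rcases hx with rfl | rfl | rfl | rfl | rfl
    · exact ⟨QD, Qc⟩
    · exact ⟨CD, Cc⟩
    · exact ⟨XD, Xc⟩
    · exact ⟨X'D, X'c⟩
    · exact ⟨X''D, X''c⟩
  have hcard := Set.ncard_le_ncard hsub hfin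
  rw [h4, Set.ncard_coe_finset] at hcard
  have h5 : ({Q, C, X, X', X''} : Finset P).card = 5 := by
    rw [Finset.card_insert_of_notMem, Finset.card_insert_of_notMem,
      Finset.card_insert_of_notMem, Finset.card_insert_of_notMem, Finset.card_singleton]
    · simp [X'X''.symm]
    · simp [XX'.symm, Ne.symm hne]
    · simp [XC.symm, X'C.symm, X''C.symm]
    · simp [QC, XQ.symm, X'Q.symm, X''Q.symm]
  rw [h5] at hcard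
  omega

theorem uniq {A X Y Y' : P} {m : L} (hA : A ∉ m) (hX : A ≠ X) (hY : Y ∈ m) (hY' : Y' ∈ m)
    (h : Al P L A X Y) (h' : Al P L A X Y') : Y = Y' := by
  obtain ⟨u, Au, Xu, Yu⟩ := h
  obtain ⟨u', Au', Xu', Yu'⟩ := h'
  have := ln hX Au Xu Au' Xu'
  subst this
  have hum : u ≠ m := fun hh => hA (hh ▸ Au)
  exact pt hum Yu Yu' hY hY'

end OTA5

open OTA5 in
theorem s_OTA5 : S_OTA5 := by
  intro h1 h4 P L _ _ hq A B C Q k a b c hAB hBC hAC hAk hBk hCk hQk hQa hAa hQb hBb hQc hCc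
  have F : Fig A B C Q k a b c :=
    ⟨hAB, hBC, hAC, hAk, hBk, hCk, hQk, hQa, hAa, hQb, hBb, hQc, hCc⟩
  have Ac : A ∉ c := Fig.off F.AC F.Ak F.Ck F.Qk F.Qc F.Cc
  have Bc : B ∉ c := Fig.off F.BC F.Bk F.Ck F.Qk F.Qc F.Cc
  have Ab : A ∉ b := Fig.off F.AB F.Ak F.Bk F.Qk F.Qb F.Bb
  have Cb : C ∉ b := Fig.off F.BC.symm F.Ck F.Bk F.Qk F.Qb F.Bb
  have Ba : B ∉ a := Fig.off F.AB.symm F.Bk F.Ak F.Qk F.Qa F.Aa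
  have Ca : C ∉ a := Fig.off F.AC.symm F.Ck F.Ak F.Qk F.Qa F.Aa
  obtain ⟨φ1, hφ1⟩ := persp h1 A c b Ac Ab
  obtain ⟨φ2, hφ2⟩ := persp h1 C b a Cb Ca
  obtain ⟨φ3, hφ3⟩ := persp h1 B a c Ba Bc
  have BQ : B ≠ Q := fun h => Bc (h ▸ F.Qc)
  have AQ : A ≠ Q := fun h => Ac (h ▸ F.Qc)
  have CQ : C ≠ Q := fun h => Cb (h ▸ F.Qb)
  let g : Equiv.Perm {X : P // X ∈ c} := φ1.trans (φ2.trans φ3)
  have hch : ∀ X : {X : P // X ∈ c},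
      Chn A B C a b c (X : P) (φ1 X : P) (φ2 (φ1 X) : P) (g X : P) := fun X =>
    ⟨X.2, (φ1 X).2, (φ2 (φ1 X)).2, (g X).2, hφ1 X, hφ2 (φ1 X), hφ3 (φ2 (φ1 X))⟩
  -- fixed points
  have e1 : (φ1 ⟨Q, hQc⟩ : P) = Q :=
    uniq Ab AQ (φ1 ⟨Q, hQc⟩).2 hQb (hφ1 ⟨Q, hQc⟩) ⟨a, hAa, hQa, hQa⟩
  have e1' : φ1 ⟨Q, hQc⟩ = ⟨Q, hQb⟩ := Subtype.ext e1
  have e2 : (φ2 ⟨Q, hQb⟩ : P) = Q :=
    uniq Ca CQ (φ2 ⟨Q, hQb⟩).2 hQa (hφ2 ⟨Q, hQb⟩) ⟨c, hCc, hQc, hQc⟩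
  have e2' : φ2 ⟨Q, hQb⟩ = ⟨Q, hQa⟩ := Subtype.ext e2
  have e3 : (φ3 ⟨Q, hQa⟩ : P) = Q :=
    uniq Bc BQ (φ3 ⟨Q, hQa⟩).2 hQc (hφ3 ⟨Q, hQa⟩) ⟨b, hBb, hQb, hQb⟩
  have e3' : φ3 ⟨Q, hQa⟩ = ⟨Q, hQc⟩ := Subtype.ext e3
  have gQ : g ⟨Q, hQc⟩ = ⟨Q, hQc⟩ := by
    change φ3 (φ2 (φ1 ⟨Q, hQc⟩)) = _
    rw [e1', e2', e3']
  have f1 : (φ1 ⟨C, hCc⟩ : P) = B :=
    uniq Ab hAC (φ1 ⟨C, hCc⟩).2 hBb (hφ1 ⟨C, hCc⟩) ⟨k, hAk, hCk, hBk⟩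
  have f1' : φ1 ⟨C, hCc⟩ = ⟨B, hBb⟩ := Subtype.ext f1
  have f2 : (φ2 ⟨B, hBb⟩ : P) = A :=
    uniq Ca hBC.symm (φ2 ⟨B, hBb⟩).2 hAa (hφ2 ⟨B, hBb⟩) ⟨k, hCk, hBk, hAk⟩
  have f2' : φ2 ⟨B, hBb⟩ = ⟨A, hAa⟩ := Subtype.ext f2
  have f3 : (φ3 ⟨A, hAa⟩ : P) = C :=
    uniq Bc hAB.symm (φ3 ⟨A, hAa⟩).2 hCc (hφ3 ⟨A, hAa⟩) ⟨k, hBk, hAk, hCk⟩
  have f3' : φ3 ⟨A, hAa⟩ = ⟨C, hCc⟩ := Subtype.ext f3
  have gC : g ⟨C, hCc⟩ = ⟨C, hCc⟩ := by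
    change φ3 (φ2 (φ1 ⟨C, hCc⟩)) = _
    rw [f1', f2', f3']
  have gQ' : ∀ X : {X : P // X ∈ c}, (X : P) ≠ Q → (g X : P) ≠ Q := by
    intro X hX h
    apply hX
    have : g X = g ⟨Q, hQc⟩ := by rw [gQ]; exact Subtype.ext h
    have := g.injective this
    rw [this]
  have gC' : ∀ X : {X : P // X ∈ c}, (X : P) ≠ C → (g X : P) ≠ C := by
    intro X hX h
    apply hX
    have : g X = g ⟨C, hCc⟩ := by rw [gC]; exact Subtype.ext h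
    have := g.injective this
    rw [this]
  -- the generic points
  have key : ∀ X : {X : P // X ∈ c}, (X : P) ≠ Q → (X : P) ≠ C → g X ≠ X ∧ g (g X) = X := by
    intro X XQ XC
    obtain ⟨n1, n2, n3, n4⟩ := quadr F X.2 XQ XC
    obtain ⟨D, AD, BD, QD, XD, hD⟩ := hq A B Q X n1 n2 n3 n4
    obtain ⟨CD, X'D⟩ := memD F hD AD BD QD (hch X) XD XQ XC
    have X'Q := gQ' X XQ
    have X'C := gC' X XC
    obtain ⟨_, X''D⟩ := memD F hD AD BD QD (hch (g X)) X'D X'Q X'C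
    have m1 := moved F h4 hD AD BD QD (hch X) XD XQ XC
    have m2 := moved F h4 hD AD BD QD (hch (g X)) X'D X'Q X'C
    refine ⟨fun h => m1 (congrArg Subtype.val h), Subtype.ext ?_⟩
    exact four_eq hD QD CD XD X'D X''D hQc hCc X.2 (g X).2 (g (g X)).2 CQ.symm XQ XC X'Q X'C
      (gQ' _ X'Q) (gC' _ X'C) m1 m2
  refine ⟨g, fun X => ⟨φ1 X, φ2 (φ1 X), (φ1 X).2, (φ2 (φ1 X)).2, (hch X).h1, (hch X).h2,
    (hch X).h3⟩, ?_, ⟨Q, hQc⟩, ⟨C, hCc⟩, ?_, ?_⟩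
  · apply Equiv.ext
    intro X
    change g (g X) = X
    by_cases hXQ : (X : P) = Q
    · have : X = ⟨Q, hQc⟩ := Subtype.ext hXQ
      rw [this, gQ, gQ]
    · by_cases hXC : (X : P) = C
      · have : X = ⟨C, hCc⟩ := Subtype.ext hXC
        rw [this, gC, gC]
      · exact (key X hXQ hXC).2
  · intro h
    exact CQ (congrArg Subtype.val h).symm
  · intro X
    constructor
    · intro h
      by_cases hXQ : (X : P) = Q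
      · exact Or.inl (Subtype.ext hXQ)
      · by_cases hXC : (X : P) = C
        · exact Or.inr (Subtype.ext hXC)
        · exact absurd h (key X hXQ hXC).1
    · rintro (rfl | rfl)
      · exact gQ
      · exact gC

end Pool.Agent.TP3
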