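import Pool.Agent.Lib.MP_a1e562_co.OT.Stm

set_option autoImplicit false

namespace Pool.Agent.TP3

private theorem otd4_af {V W : Type} [AddCommGroup V] [AddCommGroup W] {f : V → W} (hf : Af f)
    (a b : V) : f (a + b) = f a + f b - f 0 := by
  have h1 := hf a b (-(a + b)) (by abel)
  have h2 := hf (a + b) (-(a + b)) 0 (by abel)
  have h3 : f (a + b) + f 0 = f a + f b := by
    have : f (a + b) + f 0 - (f a + f b) =
        (f (a + b) + f (-(a + b)) + f 0) - (f a + f b + f (-(a + b))) := by abel
    rw [h1, h2, sub_zero] at this
    exact sub_eq_zero.1 this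
  exact eq_sub_of_add_eq h3

theorem s_OTD4 : S_OTD4 := by
  intro C S Y _ _ _ F hC hS hY h0 hz hsol hc hA hb hG
  have Mc : ∀ c c' A, F (c + c') A 0 = F c A 0 + F c' A 0 := by
    intro c c' A
    have := otd4_af (hc A 0) c c'
    simp only [h0, sub_zero] at this
    exact this
  have MA : ∀ c A A', F c (A + A') 0 = F c A 0 + F c A' 0 := by
    intro c A A'
    have := otd4_af (hA c 0) A A'
    simp only [hz, sub_zero] at this
    exact this
  have Mneg : ∀ c A, F (-c) A 0 = -F c A 0 := by
    intro c A
    have := Mc c (-c) A
    rw [add_neg_cancel, h0] at this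
    exact (neg_eq_of_add_eq_zero_right this.symm).symm
  -- the defect
  set B : C → S → Y → Y := fun c A b => F c A b - b - F c A 0 with hB
  have Bb : ∀ c A b b', B c A (b + b') = B c A b + B c A b' := by
    intro c A b b'
    have := otd4_af (hb c A) b b'
    simp only [hB, this]
    abel
  have Bc : ∀ c c' A b, B (c + c') A b = B c A b + B c' A b := by
    intro c c' A b
    have := otd4_af (hc A b) c c'
    simp only [h0] at this
    simp only [hB, this, Mc]
    abel
  have B0 : ∀ c A, B c A 0 = 0 := by
    intro c A
    simp only [hB]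
    abel
  have B0' : ∀ A b, B 0 A b = 0 := by
    intro A b
    simp only [hB, h0]
    abel
  have Bnb : ∀ c A b, B c A (-b) = -B c A b := by
    intro c A b
    have := Bb c A b (-b)
    rw [add_neg_cancel, B0] at this
    exact (neg_eq_of_add_eq_zero_right this.symm).symm
  have Bnc : ∀ c A b, B (-c) A b = -B c A b := by
    intro c A b
    have := Bc c (-c) A b
    rw [add_neg_cancel, B0'] at this
    exact (neg_eq_of_add_eq_zero_right this.symm).symm
  have key : ∀ c A A', A ≠ A' → B c A (F c A' 0 - F c A 0) = 0 := by
    intro c A A' hne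
    obtain ⟨G, hG1, hG2⟩ := hG A A' hne
    have G0 : G 0 = 0 := by
      have := hG1 0
      rwa [h0, h0] at this
    have Gn : G (-c) = -G c := by
      have := otd4_af hG2 c (-c)
      rw [add_neg_cancel, G0, sub_zero] at this
      exact (neg_eq_of_add_eq_zero_right this.symm).symm
    have e1 : B c A (G c) = F c A' 0 - F c A 0 - G c := by
      simp only [hB, hG1]
      abel
    have e2 : B (-c) A (G (-c)) = F (-c) A' 0 - F (-c) A 0 - G (-c) := by
      simp only [hB, hG1]
      abel
    rw [Gn, Bnc, Bnb, neg_neg, Mneg, Mneg] at e2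
    have e3 : B c A (G c) + B c A (G c) = 0 := by
      nth_rw 1 [e1]
      rw [e2]
      abel
    have e4 : B c A (G c) = 0 := by
      have := hY (B c A (G c))
      rwa [e3, zero_add] at this
    have e5 : G c = F c A' 0 - F c A 0 := by
      rw [e4] at e1
      exact (sub_eq_zero.1 e1.symm).symm
    rw [← e5]
    exact e4
  have Bz : ∀ c A y, B c A y = 0 := by
    intro c A y
    by_cases hc0 : c = 0
    · rw [hc0]
      exact B0' A y
    · obtain ⟨D, hD⟩ := hsol c hc0 y
      by_cases hD0 : D = 0
      · rw [hD0, hz] at hD
        rw [← hD]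
        exact B0 c A
      · have hne : A ≠ A + D := by
          intro h
          exact hD0 (left_eq_add.1 h)
        have := key c A (A + D) hne
        rwa [MA, add_sub_cancel_left, hD] at this
  refine ⟨fun c A => F c A 0, Mc, MA, fun c A b => ?_⟩
  have := Bz c A b
  simp only [hB] at this
  have h2 := sub_eq_zero.1 this
  show F c A b = b + F c A 0
  rw [← h2]
  abel

end Pool.Agent.TP3
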