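import Pool.Agent.Lib.MP_a1e562_co.OT.StmG

/-!
# [OT G8] of MP_a1e562_co: uniqueness of the reversing involutions
-/

set_option autoImplicit false

namespace Pool.Agent.TP3

open Configuration

private lemma otg8_mul {X : Type} {χ : X → X → ℤ} {g h : Equiv.Perm X}
    (hg : Pres χ g ∨ Rev χ g) (hh : Pres χ h ∨ Rev χ h) : Pres χ (g * h) ∨ Rev χ (g * h) := by
  rcases hg with hg | hg <;> rcases hh with hh | hh
  · left; intro a b; rw [Equiv.Perm.mul_apply, Equiv.Perm.mul_apply, hg, hh]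
  · right; intro a b; rw [Equiv.Perm.mul_apply, Equiv.Perm.mul_apply, hg, hh]
  · right; intro a b; rw [Equiv.Perm.mul_apply, Equiv.Perm.mul_apply, hg, hh]
  · left; intro a b; rw [Equiv.Perm.mul_apply, Equiv.Perm.mul_apply, hg, hh, neg_neg]

private lemma otg8_inv {X : Type} {χ : X → X → ℤ} {g : Equiv.Perm X}
    (hg : Pres χ g ∨ Rev χ g) : Pres χ g⁻¹ ∨ Rev χ g⁻¹ := by
  rcases hg with hg | hg
  · left; intro a b
    have := hg (g⁻¹ a) (g⁻¹ b)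
    simpa using this.symm
  · right; intro a b
    have := hg (g⁻¹ a) (g⁻¹ b)
    have e : ∀ x, g (g⁻¹ x) = x := fun x => by
      rw [← Equiv.Perm.mul_apply, mul_inv_cancel, Equiv.Perm.one_apply]
    rw [e, e] at this
    rw [this, neg_neg]

theorem s_OTG8 : S_OTG8 := by
  intro X χ hT h2 hfix τ o hτ2 hτr hτo ζ hζp hζ3 hζo hτζ hz
  have hinv3 : ζ⁻¹ * ζ⁻¹ = ζ := by
    have h1 : ζ⁻¹ * ζ⁻¹ * (ζ * ζ * ζ) = ζ := by group
    rw [hζ3, mul_one] at h1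
    exact h1
  have hτz : τ * ζ = ζ⁻¹ * τ := by
    have h1 : τ * ζ * τ * τ = ζ⁻¹ * τ := by rw [hτζ]
    rw [mul_assoc (τ * ζ) τ τ, hτ2, mul_one] at h1
    exact h1
  have hτz' : τ * ζ⁻¹ = ζ * τ := by
    have h1 : τ * ζ⁻¹ * (ζ * τ)⁻¹ = 1 := by
      have h3 : τ⁻¹ = τ := by
        rw [inv_eq_iff_mul_eq_one, hτ2]
      rw [mul_inv_rev, h3, ← mul_assoc, mul_assoc τ ζ⁻¹ τ, ← hτz, ← mul_assoc, hτ2, one_mul,
        mul_inv_cancel]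
    exact mul_inv_eq_one.1 h1
  -- values of `ζ * τ`
  have v1 : (ζ * τ) o = ζ o := by rw [Equiv.Perm.mul_apply, hτo]
  have v2 : (ζ * τ) (ζ o) = o := by
    rw [← Equiv.Perm.mul_apply, mul_assoc, hτz, ← mul_assoc, mul_inv_cancel, one_mul, hτo]
  have v3 : (ζ * τ) (ζ⁻¹ o) = ζ⁻¹ o := by
    rw [← Equiv.Perm.mul_apply, mul_assoc, hτz', ← mul_assoc, Equiv.Perm.mul_apply, hτo]
    have h1 : ζ * ζ = ζ⁻¹ := by
      rw [← inv_inj, mul_inv_rev, hinv3, inv_inv]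
    rw [h1]
  have hPζ : Pres χ ζ ∨ Rev χ ζ := Or.inl hζp
  have hPτ : Pres χ τ ∨ Rev χ τ := Or.inr hτr
  -- the basic statement
  have key : ∀ (σ : Equiv.Perm X) (N Y : X), σ * σ = 1 → Rev χ σ → σ N = N → Y ≠ N →
      ∃ k : Equiv.Perm X, (Pres χ k ∨ Rev χ k) ∧ k o = N ∧ k (ζ o) = Y ∧ k (ζ⁻¹ o) = σ Y := by
    intro σ N Y hσ2 hσr hσN hY
    have hσY : σ Y ≠ Y := by
      intro h
      obtain ⟨M, _, hM⟩ := hfix σ hσ2 hσr
      exact hY ((hM Y h).trans (hM N hσN).symm)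
    obtain ⟨h, hh, h1, h3⟩ := h2 o (ζ o) Y (σ Y) (Ne.symm hζo) (Ne.symm hσY)
    have hσσ : ∀ x, σ (σ x) = x := by
      intro x
      rw [← Equiv.Perm.mul_apply, hσ2, Equiv.Perm.one_apply]
    have hPσ : Pres χ σ ∨ Rev χ σ := Or.inr hσr
    have hsh : Pres χ (σ * h) ∨ Rev χ (σ * h) := otg8_mul hPσ hh
    have hq := otg8_mul (otg8_inv hsh) (otg8_mul hh (otg8_mul hPζ hPτ))
    have q1 : ((σ * h)⁻¹ * (h * (ζ * τ))) o = o := by
      rw [Equiv.Perm.mul_apply, Equiv.Perm.mul_apply h, v1, Equiv.Perm.inv_eq_iff_eq,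
        Equiv.Perm.mul_apply, h1, h3]
    have q2 : ((σ * h)⁻¹ * (h * (ζ * τ))) (ζ o) = ζ o := by
      rw [Equiv.Perm.mul_apply, Equiv.Perm.mul_apply h, v2, Equiv.Perm.inv_eq_iff_eq,
        Equiv.Perm.mul_apply, h1, h3, hσσ]
    have q3 := hz _ hq q1 q2
    rw [Equiv.Perm.mul_apply, Equiv.Perm.mul_apply h, v3, Equiv.Perm.inv_eq_iff_eq,
      Equiv.Perm.mul_apply] at q3
    have q4 : h (ζ⁻¹ o) = N := by
      obtain ⟨M, _, hM⟩ := hfix σ hσ2 hσr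
      exact (hM _ q3.symm).trans (hM N hσN).symm
    refine ⟨h * ζ⁻¹, otg8_mul hh (otg8_inv hPζ), ?_, ?_, ?_⟩
    · rw [Equiv.Perm.mul_apply, q4]
    · rw [← Equiv.Perm.mul_apply, mul_assoc, inv_mul_cancel, mul_one, h1]
    · rw [Equiv.Perm.mul_apply, ← Equiv.Perm.mul_apply ζ⁻¹, hinv3, h3]
  intro σ σ' N hσ2 hσr hσ'r hσ'2 hσN hσ'N
  ext Y
  by_cases hY : Y = N
  · rw [hY, hσN, hσ'N]
  obtain ⟨k, hk, k1, k2, k3⟩ := key σ N Y hσ2 hσr hσN hY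
  obtain ⟨k', hk', k1', k2', k3'⟩ := key σ' N Y hσ'2 hσ'r hσ'N hY
  have hq := otg8_mul (otg8_inv hk) hk'
  have q1 : (k⁻¹ * k') o = o := by
    rw [Equiv.Perm.mul_apply, Equiv.Perm.inv_eq_iff_eq, k1, k1']
  have q2 : (k⁻¹ * k') (ζ o) = ζ o := by
    rw [Equiv.Perm.mul_apply, Equiv.Perm.inv_eq_iff_eq, k2, k2']
  have q3 := hz _ hq q1 q2
  rw [Equiv.Perm.mul_apply, Equiv.Perm.inv_eq_iff_eq] at q3
  rw [← k3, ← k3', q3]

end Pool.Agent.TP3
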