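import Pool.Agent.Lib.MP_a1e562_co.OT.Defs

/-!
# Statements of the pieces [OT ..] of MP_a1e562_co

THEOREM. Every finite projective plane of characteristic 3 (every quadrangle generates a subplane
with 13 points) whose order is 3 mod 4 is desarguesian.

Every `def S_OTxx : Prop` below is one independent piece; its docstring contains the complete
proof.  Put the proof of `S_OTxx` in `OT/Pxx.lean` as `theorem s_OTxx : S_OTxx`.
Definitions are in `OT/Defs.lean` (`Tour`, `G2`, .. in `IH/Defs.lean`, `Sub4`, `Quad4`, `Inc` in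
`Defs.lean`). `mkLine`, `mkPoint`, `mkLine_ax`, `mkPoint_ax`, `eq_or_eq` of Mathlib's
`Configuration` give joins and intersections.
-/

set_option autoImplicit false

namespace Pool.Agent.TP3

open Configuration

/-! ## A. signs of perspectivities -/

/-- [OT A1] (about 40 lines) A pencil and a line.

Proof. `f g = g ∩ l` (`mkPoint`, `g ≠ l` since `A ∉ l`), inverse `X ↦ A X` (`mkLine`, `A ≠ X`). Two
different lines have at most one common point (`Nondegenerate.eq_or_eq`). -/
def S_OTA1 : Prop :=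
  ∀ (P L : Type) [Membership P L] [ProjectivePlane P L] (A : P) (l : L), A ∉ l →
    ∃ f : {g : L // A ∈ g} ≃ {X : P // X ∈ l}, ∀ g : {g : L // A ∈ g}, (f g : P) ∈ (g : L)

/-- [OT A2] (about 150 lines) The signs.

Proof. Let `n = order P L`. Every line has `n + 1` points and every point is on `n + 1` lines
(`ProjectivePlane.pointCount_eq`, `lineCount_eq`), so there are bijections
`e l : {X // X ∈ l} ≃ Fin (n + 1)`, `e' A : {g // A ∈ g} ≃ Fin (n + 1)`. For `A ∉ l` let `f A l` be the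
bijection of `h1` and `s A l` the sign (as an integer) of `(e' A).symm.trans ((f A l).trans (e l))`
(a permutation of `Fin (n + 1)`); otherwise `s A l = 1`. For `A ∉ l`, `A ∉ m` let
`φ = (f A l).symm.trans (f A m)` (perspectivity from `l` to `m` with centre `A`); then
`sign ((e l).symm.trans (φ.trans (e m))) = s A l * s A m`. If `X ∈ l`, `Y ∈ m`, `Al A X Y` then
`φ X = Y` (the line of `Al` is the line `A X`, and meets `m` in one point only). So the `g` of the
first claim is the composition of the two perspectivities `l → m` (centre `A`), `m → l`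
(centre `B`), and `sign g = s A l * s A m * s B m * s B l` (`Equiv.Perm.sign_symm_trans_trans` and
`sign_mul`); `g ^ 3 = 1` gives `sign g = 1` (`sign g` is `1` or `-1` and its cube is `1`). For the
second claim `g` is a composition of three perspectivities, `sign g` is the product of the six signs,
and an involution with exactly 2 fixed points on `n + 1` points is a product of `(n - 1) / 2`
transpositions, `(n - 1) / 2` odd, so its sign is `-1` (e.g. `Equiv.Perm.sign_of_cycleType`, all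
cycles have length 2, `g.support.card = n - 1`; or `Equiv.Perm.card_fixedPoints`). -/
def S_OTA2 : Prop :=
  S_OTA1 → ∀ (P L : Type) [Membership P L] [ProjectivePlane P L] [Finite P] [Finite L],
    ∃ s : P → L → ℤ, (∀ A l, s A l = 1 ∨ s A l = -1) ∧
      (∀ (A B : P) (l m : L) (g : Equiv.Perm {X : P // X ∈ l}), A ∉ l → A ∉ m → B ∉ l → B ∉ m →
        Ch4 A B l m g → g * g * g = 1 → s A l * s A m * s B m * s B l = 1) ∧
      (∀ (A B C : P) (a b c : L) (g : Equiv.Perm {X : P // X ∈ c}), A ∉ b → A ∉ c → B ∉ a →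
        B ∉ c → C ∉ a → C ∉ b → Ch6 A B C a b c g → g * g = 1 →
        (∃ U V : {X : P // X ∈ c}, U ≠ V ∧ ∀ X, g X = X ↔ X = U ∨ X = V) →
        ProjectivePlane.order P L % 4 = 3 →
        s A c * s A b * s C b * s C a * s B a * s B c = -1)

/-- [OT A3] (about 120 lines) The projectivity of order 3.

Proof. `g` is the composition of the perspectivities `l → m` with centre `A` and `m → l` with centre
`B` (`h1`: `l ≃ pencil A ≃ m ≃ pencil B ≃ l`). `Ch4` is clear.
Fixed points: `Z ∈ l, m` is fixed (`Y = Z`). Let `X ∈ l`, `g X = X`, `X ≠ Z`: `Y ∈ m` is on the lines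
`A X` and `B X`; these are different, since otherwise `X ∈ A B = k` and `X = k ∩ l = Z`; so `Y = X`
and `X ∈ l ∩ m = {Z}`.
Cube: for `X = Z` clear. For `X ≠ Z` use `Inc` with `Z`, lines `k, l, m` (for its `l, m, r`), `C0 = B`,
`C1 = A`, `A0 = X`, `y0 = A X`, `B1 = y0 ∩ m`, `x1 = B B1`, `A1 = x1 ∩ l = g X`, `y1 = A A1`,
`B2 = y1 ∩ m`, `x2 = B B2`, `A2 = x2 ∩ l = g (g X)`, `y2 = A A2`, `x0 = B X`, `B0 = x0 ∩ m`, and `D0, D1,
D2` any common points of the pairs of lines (`mkPoint` if they are different, otherwise any point on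
it, e.g. a centre). It says `B0 ∈ y2`, so `g A2 = X`. -/
def S_OTA3 : Prop :=
  S_OTA1 → ∀ (P L : Type) [Membership P L] [ProjectivePlane P L], Inc P L →
    ∀ (A B Z : P) (l m k : L), A ≠ B → l ≠ m → A ∉ l → A ∉ m → B ∉ l → B ∉ m → Z ∈ l → Z ∈ m →
      A ∈ k → B ∈ k → Z ∈ k →
      ∃ g : Equiv.Perm {X : P // X ∈ l}, Ch4 A B l m g ∧ g * g * g = 1 ∧
        ∀ X : {X : P // X ∈ l}, g X = X ↔ (X : P) = Z

/-- [OT A4] (about 120 lines) The diagonal points of a quadrangle are not collinear.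

Proof. `C = AB ∩ QX`, `Y = AX ∩ BQ`, `W = AQ ∩ BX` are in `D` (`Sub4.meet`). They are different from
each other and from `A, B, Q, X` (quadrangle). The line `AX` meets `D` in four points `A, X, Y` and a
fourth one `p` (`Sub4.four`, `Set.ncard = 4`). `C ∉ AX`, so `C ≠ p`; let `n = C p`. `n` meets `AX` only
in `p`, so `A, X, Y ∉ n`; `n ≠ AB`, `n ≠ QX`, `n ≠ g` (they contain `A`, `X`, `Y`), so also
`B, Q, W ∉ n` (`n ∩ AB = C`, `n ∩ QX = C`, `n ∩ g = C`). The points `p2 = n ∩ AQ`, `p3 = n ∩ BX`,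
`p4 = n ∩ BQ` are in `D` (`Sub4.meet`, `n` meets `D` in `C ≠ p`). `C, p, p2, p3, p4` are five different
points of `n ∩ D`: `C` is not on `AX, AQ, BX, BQ`; two of the lines `AX, AQ, BX, BQ` meet in one of
the points `A, X, Y, Q, W, B`, none of which is on `n`. This contradicts `Sub4.four` for `n`. -/
def S_OTA4 : Prop :=
  ∀ (P L : Type) [Membership P L] [ProjectivePlane P L] (D : Set P), Sub4 P L D →
    ∀ (A B Q X C Y W : P) (g : L), A ∈ D → B ∈ D → Q ∈ D → X ∈ D →
      ¬ Al P L A B Q → ¬ Al P L A B X → ¬ Al P L A Q X → ¬ Al P L B Q X →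
      Al P L A B C → Al P L Q X C → Al P L A X Y → Al P L B Q Y → Al P L A Q W → Al P L B X W →
      C ∈ g → Y ∈ g → W ∉ g

/-- [OT A5] (about 200 lines) The involution.

Proof. `g` = composition of the perspectivities `c → b` (centre `A`), `b → a` (centre `C`), `a → c`
(centre `B`) (`h1`). `A ∉ b, c` etc. since `Q ∉ k`. `g Q = Q` (`Y = W = Q`). `g C = C` (`Y = B`, `W = A`).
Let `X ∈ c`, `X ≠ Q, C`, with `Y, W` as in `Ch6`, `X' = g X`. `A, B, Q, X` is a quadrangle (`X ∉ k`, and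
`c ∩ QA = Q`, ..). Let `D ∋ A, B, Q, X` with `Sub4 P L D` (`Quad4`). Then `C = k ∩ c ∈ D`,
`Y = AX ∩ b ∈ D`, `W = CY ∩ a ∈ D`, `X' = BW ∩ c ∈ D` (`Sub4.meet`; `C ≠ Y`, `B ≠ W`, ..). `X' ≠ Q, C`
since `g` is injective. `X' ≠ X`: otherwise `W` is on `BX` and `AQ`, `Y` on `AX` and `BQ`, and
`C, Y, W` are on a line, against `h4`. `c ∩ D` has four points, `Q, C, X, X'`. The same argument with
the same `D ∋ A, B, Q, X'` (start with `X'`): `X'' = g X' ∈ D ∩ c`, `X'' ≠ Q, C, X'`, so `X'' = X`.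
So `g * g = 1`, fixed points exactly `Q` and `C`. -/
def S_OTA5 : Prop :=
  S_OTA1 → S_OTA4 → ∀ (P L : Type) [Membership P L] [ProjectivePlane P L], Quad4 P L →
    ∀ (A B C Q : P) (k a b c : L), A ≠ B → B ≠ C → A ≠ C → A ∈ k → B ∈ k → C ∈ k → Q ∉ k →
      Q ∈ a → A ∈ a → Q ∈ b → B ∈ b → Q ∈ c → C ∈ c →
      ∃ g : Equiv.Perm {X : P // X ∈ c}, Ch6 A B C a b c g ∧ g * g = 1 ∧
        ∃ U V : {X : P // X ∈ c}, U ≠ V ∧ ∀ X, g X = X ↔ X = U ∨ X = V

/-- [OT A6] (about 80 lines) The order is divisible by 3.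

Proof. Let `Z` be a point, `k, l, m` three different lines on `Z`, `A ≠ B` two points of `k` other than
`Z` (every line has at least 3 points, every point is on at least 3 lines:
`ProjectivePlane.two_lt_pointCount`, `two_lt_lineCount`, or `exists_config`). Take `g` from `h3` (`A3`).
`g ^ 3 = 1` and `g` has exactly one fixed point on the `n + 1` points of `l`, so `n + 1 ≡ 1` mod 3
(`Equiv.Perm.card_fixedPoints_modEq` for `p = 3`). -/
def S_OTA6 : Prop :=
  (∀ (P L : Type) [Membership P L] [ProjectivePlane P L], Inc P L →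
    ∀ (A B Z : P) (l m k : L), A ≠ B → l ≠ m → A ∉ l → A ∉ m → B ∉ l → B ∉ m → Z ∈ l → Z ∈ m →
      A ∈ k → B ∈ k → Z ∈ k →
      ∃ g : Equiv.Perm {X : P // X ∈ l}, Ch4 A B l m g ∧ g * g * g = 1 ∧
        ∀ X : {X : P // X ∈ l}, g X = X ↔ (X : P) = Z) →
  ∀ (P L : Type) [Membership P L] [ProjectivePlane P L] [Finite P] [Finite L], Inc P L →
    3 ∣ ProjectivePlane.order P L

/-! ## B. tournaments of flags -/

/-- [OT B1] (about 80 lines) Perspectivities of flags.

Proof. `f X = (Q X) ∩ x`; inverse in the same way. `f X ≠ Z'`: otherwise the line `Q Z'` (`Z' ∈ x`,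
`Q ∉ x`, so `Q ≠ Z'`) contains `X` and `Z` (by `Al Q Z Z'`), both on `m`, so `X = Z` (`Q ∉ m`). -/
def S_OTB1 : Prop :=
  ∀ (P L : Type) [Membership P L] [ProjectivePlane P L] (Q Z Z' : P) (m x : L), Q ∉ m → Q ∉ x →
    Z ∈ m → Z' ∈ x → Al P L Q Z Z' →
    ∃ f : Aff P L Z m ≃ Aff P L Z' x, ∀ A : Aff P L Z m, Al P L Q A (f A)

/-- [OT B2] (about 150 lines) Existence of the tournament.

Proof. Take a point `Q ∉ m` and a point `O` of `m` other than `Z`. For `X ∈ m` let `ln X` be the line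
`Q X`. For `A, C ∈ m \ Z` let `u A C = s A (ln C) * s A (ln Z)` and `w A B = u A B * u B A`. By `s2`
(`k = m`, `a, b, c = ln A, ln B, ln C`) and `(s _ _)² = 1`: `w A B * w B C * w A C = -1` for different
`A, B, C`. Let `f O = 1`, `f A = - w O A` for `A ≠ O`, and `χ A C = u A C * f C` for `A ≠ C`, `χ A A = 0`.
Antisymmetric: `χ A B * χ B A = w A B * f A * f B = -1` (if `A, B ≠ O` it is
`w A B * w O A * w O B = -1`; if `B = O` it is `- w A O * w O A = -1`), so `χ A B = - χ B A` (values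
`± 1`). Product: let `l ∋ C`, `l ≠ m`, `z ∋ Z`, `z ≠ m`. `χ A C * χ B C = u A C * u B C =
s A (ln C) * s B (ln C) * s A (ln Z) * s B (ln Z)` for `A, B ≠ C`. By `s1` for `A, B`, the lines
`l, ln C` (common point `C`) and `k = m`: `s A l * s A (ln C) = s B l * s B (ln C)`, so
`s A (ln C) * s B (ln C) = s A l * s B l`; in the same way `s A (ln Z) * s B (ln Z) = s A z * s B z`. -/
def S_OTB2 : Prop :=
  ∀ (P L : Type) [Membership P L] [ProjectivePlane P L] (s : P → L → ℤ), Sg P L s →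
    ∀ (Z : P) (m : L), Z ∈ m → ∃ χ : Aff P L Z m → Aff P L Z m → ℤ, IsT s Z m χ

/-- [OT B3] (about 120 lines) Perspectivities preserve the tournaments up to the sign.

Proof. Let `A, B ≠ C` in `m \ Z`, `A' = f A`, .. Let `l, z` be the lines `Q C C'`, `Q Z Z'` (`C' = f C`).
They are different from `m` and `x` (`Q ∉ m, x`). `χ A C * χ B C = s A l * s B l * s A z * s B z` and
`χ' A' C' * χ' B' C' = s A' l * s B' l * s A' z * s B' z`. By `s1` for `A, A'` (`k` = the line `Q A A'`;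
`l, z` have the common point `Q`; `A ∉ l` since otherwise `A, C ∈ m ∩ l`, `A = C`; `A ∉ z`; same for
`A'`): `s A l * s A z = s A' l * s A' z`, and the same for `B`. So the two products are equal. Let
`r A C = χ A C * χ' A' C'` for `A ≠ C` (`± 1`). Then `r A C = r B C` for `A, B ≠ C`, and `r A C = r C A`
(both are antisymmetric), so `r` is constant: if `C ≠ C1`, `r A C = r C1 C = r C C1 = r A1 C1`. If there
are no two different points the claim is clear (all values are 0). -/
def S_OTB3 : Prop :=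
  ∀ (P L : Type) [Membership P L] [ProjectivePlane P L] (s : P → L → ℤ), Sg P L s →
    ∀ (Q Z Z' : P) (m x : L), Q ∉ m → Q ∉ x → Z ∈ m → Z' ∈ x → Al P L Q Z Z' →
    ∀ f : Aff P L Z m ≃ Aff P L Z' x, (∀ A : Aff P L Z m, Al P L Q A (f A)) →
    ∀ (χ : Aff P L Z m → Aff P L Z m → ℤ) (χ' : Aff P L Z' x → Aff P L Z' x → ℤ),
      IsT s Z m χ → IsT s Z' x χ' →
      (∀ A C, χ' (f A) (f C) = χ A C) ∨ ∀ A C, χ' (f A) (f C) = -χ A C

/-- [OT B4] (about 120 lines) 2-transitivity.

Proof. Let `a ≠ b`, `c ≠ d` in `m \ Z`. Take a line `x ∋ Z`, `x ≠ m`, and two points `X ≠ Y` of `x` other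
than `Z` (a line has at least 3 points). `Q1 = aX ∩ bY` (these lines are different: otherwise it is `m`,
and `X ∈ m ∩ x`, `X = Z`). `Q1 ∉ m` (otherwise `Q1 = a` and `Q1 = b`), `Q1 ∉ x` (otherwise `Q1 = X = Y`).
Let `f1 : m \ Z ≃ x \ Z` be the perspectivity of centre `Q1` (`h1`, `Z' = Z`); `f1 a = X`, `f1 b = Y`.
In the same way `Q2 = cX ∩ dY`, `f2 : m \ Z ≃ x \ Z`, `f2 c = X`, `f2 d = Y`. Let `χ'` be a tournament
for `(Z, x)` (`h2`). By `h3`, `f1` and `f2` preserve the tournaments up to the sign, so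
`g = f1.trans f2.symm` preserves or reverses `χ`, and `g a = c`, `g b = d`. -/
def S_OTB4 : Prop :=
  S_OTB1 → S_OTB2 → S_OTB3 →
  ∀ (P L : Type) [Membership P L] [ProjectivePlane P L] (s : P → L → ℤ), Sg P L s →
    ∀ (Z : P) (m : L), Z ∈ m → ∀ χ : Aff P L Z m → Aff P L Z m → ℤ, IsT s Z m χ → TwoTr χ

/-- [OT B5] (about 20 lines)

Proof. A line has `order + 1` points (`ProjectivePlane.pointCount_eq`), remove `Z`. -/
def S_OTB5 : Prop :=
  ∀ (P L : Type) [Membership P L] [ProjectivePlane P L] [Finite P] [Finite L] (Z : P) (m : L),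
    Z ∈ m → Nat.card (Aff P L Z m) = ProjectivePlane.order P L

/-- [OT B6] (about 80 lines) The affine structure of a regular elementary abelian group.

Proof. `Trn χ` contains `1` and is closed under products and inverses (`g⁻¹ = g * g`), so it is a
commutative group `T`; let `V = Additive T`. Fix `O : X`. For `A : X` let `e A` be the `g ∈ T` with
`g O = A` (unique: `g O = g' O` gives `(g⁻¹ g') O = O`, `g⁻¹ g' = 1`); `e` is a bijection. If `t ∈ T`,
`t A = B` then `e B = t + e A`. `e A + e B + e C = 0` iff `e B - e A = e C - e B` (exponent 3), iff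
the `t ∈ T` with `t A = B` satisfies `t B = C`. -/
def S_OTB6 : Prop :=
  ∀ (X : Type) (χ : X → X → ℤ) (_ : X),
    (∀ g ∈ Trn χ, ∀ h ∈ Trn χ, g * h ∈ Trn χ ∧ g * h = h * g) →
    (∀ g ∈ Trn χ, g * g * g = 1) → (∀ a b, ∃ g ∈ Trn χ, g a = b) →
    (∀ g ∈ Trn χ, ∀ a, g a = a → g = 1) →
    ∃ (V : Type) (_ : AddCommGroup V) (e : X ≃ V), (∀ v : V, v + v + v = 0) ∧
      ∀ A B C, (∃ t ∈ Trn χ, t A = B ∧ t B = C) ↔ e A + e B + e C = 0

/-- conclusion of part G (assembled elsewhere) -/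
def S_OTTT : Prop :=
  ∀ (X : Type) [Finite X] (χ : X → X → ℤ), Tour X χ → TwoTr χ → Nat.card X % 4 = 3 →
    3 ∣ Nat.card X →
    (∀ g ∈ Trn χ, ∀ h ∈ Trn χ, g * h ∈ Trn χ ∧ g * h = h * g) ∧
    (∀ g ∈ Trn χ, g * g * g = 1) ∧ (∀ a b, ∃ g ∈ Trn χ, g a = b) ∧
    ∀ g ∈ Trn χ, ∀ a, g a = a → g = 1

/-- [OT B7] (about 120 lines) The affine structures.

Proof. `R Z m A B C` is the relation: there are `χ`, `IsT s Z m χ` and `t ∈ Trn χ` with `t A = B`,
`t B = C`.
(i) If `χ, χ'` are two tournaments of flags `(Z, m)`, `(Z', x)` and `f : m \ Z ≃ x \ Z'` satisfies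
`χ' (f A) (f C) = χ A C` for all `A, C`, or `= - χ A C` for all `A, C`, then for `t ∈ Trn χ` the
permutation `f.symm.trans (t.trans f)` is in `Trn χ'` (it preserves `χ'`; if `τ` is an involution that
reverses `χ'` then `f.trans (τ.trans f.symm)` is one that reverses `χ`).
(ii) `persp`: `f` from `h1`, `f A = A'`, `f B = B'`, `f C = C'` (the line `Q A` meets `x` in one point);
given `χ`, `t` take `χ'` from `h2`; by `h3` and (i) `t' = f.symm.trans (t.trans f) ∈ Trn χ'`,
`t' A' = B'`, `t' B' = C'`.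
(iii) `grp`: take one `χ0` from `h2`. `Trn χ = Trn χ0` for every other `χ` with `IsT s Z m χ`: by `h3`
with `Q` any point not on `m`, `x = m`, `Z' = Z`, `f = refl`. So `R Z m A B C` iff
`∃ t ∈ Trn χ0, t A = B ∧ t B = C`, and `h6` with the conclusion of `hT` for `χ0` (`TwoTr` from `h4`,
the cardinality from `h5`; `m \ Z` is nonempty) gives the claim. -/
def S_OTB7 : Prop :=
  S_OTB1 → S_OTB2 → S_OTB3 → S_OTB4 → S_OTB5 → S_OTB6 → S_OTTT →
  ∀ (P L : Type) [Membership P L] [ProjectivePlane P L] [Finite P] [Finite L] (s : P → L → ℤ),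
    Sg P L s → ProjectivePlane.order P L % 4 = 3 → 3 ∣ ProjectivePlane.order P L →
    ∃ R : ∀ (Z : P) (m : L), Aff P L Z m → Aff P L Z m → Aff P L Z m → Prop, Harm P L R

/-! ## D. coordinates -/

/-- [OT D1] (about 150 lines) The ternary operation.

Proof. Let `c ∈ h`, `c ≠ E`, `A ∈ inf`, `A ≠ Z`, `b ∈ m`, `b ≠ Z`. `Z ≠ c` and `A ≠ b` (`inf ∩ m = Z`,
`Z ∉ h`). Let `v = Z c`, `g = A b`; `v ≠ g` (otherwise `A, Z ∈ g`, `g = inf`, `b ∈ inf ∩ m = Z`), `X = v ∩ g`.
`v ≠ inf` (`c ∉ inf`: `h ∩ inf = E`), so `X ∈ inf` would give `X = Z ∈ g`, impossible as before. So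
`X ∉ inf`, `X ≠ E`, the line `E X` is not `inf` and meets `m` in a point `y ≠ Z`. This shows existence,
and uniqueness is clear since `X` and the line `E X` are unique. `c = O`: `v = m`, `X = b`, `y = b`.
`A = E`: the lines `g` and `E X` are equal (`g = E b ∋ X`), so `y = b`. Sixth claim: for `c ≠ O` let
`u = E y` and `X = Z c ∩ u`; `X ≠ O`, let `A = O X ∩ inf`; `A ≠ Z` since otherwise `O X = m`, `X ∈ m ∩ Zc`,
`X = Z`, but `Z ∉ u` (`u ≠ inf` as `y ∉ inf`; if `Z ∈ u` then `u ∋ E, Z`, `u = inf`). -/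
def S_OTD1 : Prop :=
  ∀ (P L : Type) [Membership P L] [ProjectivePlane P L] (Z E O : P) (inf m h : L),
    Frm P L Z E O inf m h →
    ∃ F : Aff P L E h → Aff P L Z inf → Aff P L Z m → Aff P L Z m,
      (∀ (c : Aff P L E h) (A : Aff P L Z inf) (b y : Aff P L Z m),
        Tern (L := L) Z E (c : P) (A : P) (b : P) (y : P) ↔ y = F c A b) ∧
      (∀ (c : Aff P L E h) A b, (c : P) = O → F c A b = b) ∧
      (∀ c (A : Aff P L Z inf) b, (A : P) = E → F c A b = b) ∧
      ∀ c : Aff P L E h, (c : P) ≠ O → ∀ b y : Aff P L Z m, (b : P) = O → ∃ A, F c A b = y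

/-- [OT D2] (about 120 lines) The ternary operation is affine in the intercept and in the slope.

Proof. `h.persp` is used for perspectivities. Let `v` be the line `Z c` (`c ≠ Z` as `Z ∉ h`; `E, A ∉ v`:
otherwise `v = inf ∋ c`, `c = E`).
Intercept: let `b1, b2, b3` be given, `X1, X2, X3` the points of `Tern` (`hF`); they are on `v` and
different from `Z` (if `X_i = Z` then the line `A b_i` contains `Z`, is `inf`, and `b_i ∈ inf ∩ m`). The
perspectivity with centre `A` (`A ∉ m`, `A ∉ v`) maps `(Z, m)` to `(Z, v)` and `b_i` to `X_i`; the one with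
centre `E` maps `(Z, v)` to `(Z, m)` and `X_i` to `F c A b_i` (`hF`).
Slope: if `c = O` then `F c A_i b = b` and `R Z m b b b` holds by `h.grp` (`3 e b = 0`). Let `c ≠ O`;
then `v ≠ m`, `b ∉ v` (`v ∩ m = Z`), `b ∉ inf`. The perspectivity with centre `b` maps `(Z, inf)` to
`(Z, v)` and `A_i` to `X_i`, the one with centre `E` maps `X_i` to `F c A_i b`. -/
def S_OTD2 : Prop :=
  ∀ (P L : Type) [Membership P L] [ProjectivePlane P L]
    (R : ∀ (Z : P) (m : L), Aff P L Z m → Aff P L Z m → Aff P L Z m → Prop), Harm P L R →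
    ∀ (Z E O : P) (inf m h : L), Frm P L Z E O inf m h →
    ∀ F : Aff P L E h → Aff P L Z inf → Aff P L Z m → Aff P L Z m,
      (∀ (c : Aff P L E h) (A : Aff P L Z inf) (b y : Aff P L Z m),
        Tern (L := L) Z E (c : P) (A : P) (b : P) (y : P) ↔ y = F c A b) →
      (∀ (c : Aff P L E h) A b, (c : P) = O → F c A b = b) →
      (∀ c A b1 b2 b3, R Z m b1 b2 b3 → R Z m (F c A b1) (F c A b2) (F c A b3)) ∧
      ∀ c b A1 A2 A3, R Z inf A1 A2 A3 → R Z m (F c A1 b) (F c A2 b) (F c A3 b)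

/-- [OT D3] (about 150 lines) The ternary operation is affine in the abscissa.

Proof. First claim: if `A = E` then `F c_i A b = b` and `R Z m b b b` by `h.grp`. Let `A ≠ E`, `g` = the
line `A b` (`Z ∉ g`, `E ∉ g`). The perspectivity with centre `Z` maps `(E, h)` to `(A, g)` (`Z ∉ h`; `Z, E, A`
are on `inf`) and `c_i` to `X_i` (the points of `Tern`; `X_i ≠ A` since `X_i ∉ inf`: `X_i ∈ inf` gives
`X_i = Z ∈ g`). The perspectivity with centre `E` maps `(A, g)` to `(Z, m)` (`E, A, Z` on `inf`) and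
`X_i` to `F c_i A b`.
Second claim: let `A ≠ A'`, `b' ∈ m` with `(b' : P) = O`, `g'` = the line `A' O`. For `c` let
`X_c = Z c ∩ g'` (the point of `Tern` for `c, A', b'`) and `G c` = the intersection of the line `A X_c`
with `m` (`A ≠ X_c` since `X_c ∉ inf`; `G c ≠ Z` since otherwise `A X_c = inf`). `F c A (G c) = F c A' b'`
because the line of slope `A` and intercept `G c` contains `X_c` (`hF`). `(E, h) → (A', g')` with centre
`Z` and `(A', g') → (Z, m)` with centre `A` (`A ∉ g'` since `A ≠ A'`, `A ∉ m`) map `c_i` to `G c_i`. -/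
def S_OTD3 : Prop :=
  ∀ (P L : Type) [Membership P L] [ProjectivePlane P L]
    (R : ∀ (Z : P) (m : L), Aff P L Z m → Aff P L Z m → Aff P L Z m → Prop), Harm P L R →
    ∀ (Z E O : P) (inf m h : L), Frm P L Z E O inf m h →
    ∀ F : Aff P L E h → Aff P L Z inf → Aff P L Z m → Aff P L Z m,
      (∀ (c : Aff P L E h) (A : Aff P L Z inf) (b y : Aff P L Z m),
        Tern (L := L) Z E (c : P) (A : P) (b : P) (y : P) ↔ y = F c A b) →
      (∀ c (A : Aff P L Z inf) b, (A : P) = E → F c A b = b) →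
      (∀ A b c1 c2 c3, R E h c1 c2 c3 → R Z m (F c1 A b) (F c2 A b) (F c3 A b)) ∧
      ∀ (A A' : Aff P L Z inf) (b' : Aff P L Z m), A ≠ A' → (b' : P) = O → ∃ G : Aff P L E h → Aff P L Z m,
        (∀ c, F c A (G c) = F c A' b') ∧
        ∀ c1 c2 c3, R E h c1 c2 c3 → R Z m (G c1) (G c2) (G c3)

/-- [OT D4] (about 120 lines) Algebra: the ternary operation is linear.

Proof. (0) If `f : V → W` is `Af` and `W` has exponent 3 then `f (-a) = - f a - f 0` and
`f (a + b) = f a + f b - f 0` (`a + b + (-(a + b)) = 0`, `a + 0 + (-a) = 0`, `3 f 0 = 0`). So `f - f 0` is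
additive.
(1) Let `M c A = F c A 0` and `B c A b = F c A b - b - M c A`. `M 0 A = 0`, `M c 0 = 0`; `M` is affine, so
by (0) additive, in `c` and in `A`. `B` is additive in `b` (`F c A b - F c A 0` is additive in `b`, `B`
subtracts the identity), and it is a difference of functions that are affine in `c`, with
`B 0 A b = b - b - 0 = 0`, so it is additive in `c`.
(2) Let `A ≠ A'`, `G` as in the hypothesis. For `c = 0`: `G 0 = F 0 A (G 0) = F 0 A' 0 = 0`, so `G` is
additive. `G c + M c A + B c A (G c) = M c A'`. Replace `c` by `-c`: since everything is odd except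
`B (-c) A (G (-c)) = B c A (G c)`, we get `2 B c A (G c) = 0`, `B c A (G c) = 0` (exponent 3), so
`G c = M c A' - M c A = M c (A' - A)` and `B c A (M c (A' - A)) = 0`.
(3) For `c ≠ 0` every `y` is `M c D` for some `D`; if `D ≠ 0` use `A' = A + D`; so `B c A y = 0` for all
`y` (also `y = M c 0 = 0`). For `c = 0`, `B = 0` as well. So `F c A b = b + M c A`. -/
def S_OTD4 : Prop :=
  ∀ (C S Y : Type) [AddCommGroup C] [AddCommGroup S] [AddCommGroup Y] (F : C → S → Y → Y),
    (∀ v : C, v + v + v = 0) → (∀ v : S, v + v + v = 0) → (∀ v : Y, v + v + v = 0) →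
    (∀ A b, F 0 A b = b) → (∀ c b, F c 0 b = b) →
    (∀ c, c ≠ 0 → ∀ y, ∃ A, F c A 0 = y) →
    (∀ A b, Af fun c => F c A b) → (∀ c b, Af fun A => F c A b) → (∀ c A, Af fun b => F c A b) →
    (∀ A A', A ≠ A' → ∃ G : C → Y, (∀ c, F c A (G c) = F c A' 0) ∧ Af G) →
    ∃ M : C → S → Y, (∀ c c' A, M (c + c') A = M c A + M c' A) ∧
      (∀ c A A', M c (A + A') = M c A + M c A') ∧ ∀ c A b, F c A b = b + M c A

/-- [OT D5] (about 200 lines) Assembly: the plane is a semifield plane.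

Proof. Groups `C, S, Y` and bijections `eC, eS, eY` are given; `eC c0 = 0` etc. for the origins.
`M c A = 0` implies `c = 0` or `A = 0`: if `c ≠ 0`, `M c` is an additive map `S → Y` which is surjective
(`hsol`), and `|S| = |Y|` (both lines have the same number of points), so it is injective. In
particular for `c1 ≠ 0`, `A1 ≠ 0` the maps `M c1 : S ≃+ Y` and `c ↦ M c A1 : C ≃+ Y` (injective, same
cardinality) are additive bijections `ψ`, `φ`. `V = Y`, `mul x k = M (φ⁻¹ x) (ψ⁻¹ k)`, `ℓ = inf`. The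
bijection of the points `X` off `inf` with `V × V`: `x = φ (eC (Z X ∩ h))`, `y = eY (E X ∩ m)`; inverse:
`X = Z c ∩ E y`. Lines: the line `x = c` is `Z c`. For `k, b` the line `y = mul x k + b` is the line
joining `A` and `b'`, `eS A = ψ⁻¹ k`, `eY b' = b`: a point `X ∉ inf` with `c = Z X ∩ h`, `y = E X ∩ m` is
on it iff `Tern Z E c A b' y` (`X` is the point of `Tern`, which is unique), iff `y = F c A b'`, iff
`eY y = eY b' + M (eC c) (eS A)`. Every line other than `inf` is of one of these forms: if `Z` is on it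
it is `Z c` with `c` its intersection with `h`; otherwise it meets `inf` in `A ≠ Z` and `m` in
`b ≠ Z`. -/
def S_OTD5 : Prop :=
  ∀ (P L : Type) [Membership P L] [ProjectivePlane P L] [Finite P] (Z E O : P) (inf m h : L),
    Frm P L Z E O inf m h →
    ∀ F : Aff P L E h → Aff P L Z inf → Aff P L Z m → Aff P L Z m,
      (∀ (c : Aff P L E h) (A : Aff P L Z inf) (b y : Aff P L Z m),
        Tern (L := L) Z E (c : P) (A : P) (b : P) (y : P) ↔ y = F c A b) →
      (∀ c : Aff P L E h, (c : P) ≠ O → ∀ b y : Aff P L Z m, (b : P) = O → ∃ A, F c A b = y) →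
    ∀ (C S Y : Type) [AddCommGroup C] [AddCommGroup S] [AddCommGroup Y]
      (eC : Aff P L E h ≃ C) (eS : Aff P L Z inf ≃ S) (eY : Aff P L Z m ≃ Y) (M : C → S → Y),
      (∀ c : Aff P L E h, (c : P) = O → eC c = 0) → (∀ A : Aff P L Z inf, (A : P) = E → eS A = 0) →
      (∀ b : Aff P L Z m, (b : P) = O → eY b = 0) →
      (∀ c c' A, M (c + c') A = M c A + M c' A) → (∀ c A A', M c (A + A') = M c A + M c A') →
      (∀ c A b, eY (F c A b) = eY b + M (eC c) (eS A)) →
      ∃ (V : Type) (_ : AddCommGroup V) (mul : V → V → V) (ℓ : L)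
        (φ : {x : P // x ∉ ℓ} ≃ V × V),
        (∀ x y k : V, mul (x + y) k = mul x k + mul y k) ∧
        (∀ x k l : V, mul x (k + l) = mul x k + mul x l) ∧
        (∀ x k : V, mul x k = 0 → x = 0 ∨ k = 0) ∧
        (∀ m : L, m ≠ ℓ →
          (∃ c : V, ∀ p : {x : P // x ∉ ℓ}, (p : P) ∈ m ↔ (φ p).1 = c) ∨
          ∃ k b : V, ∀ p : {x : P // x ∉ ℓ}, (p : P) ∈ m ↔ (φ p).2 = mul (φ p).1 k + b) ∧
        (∀ c : V, ∃ m : L, m ≠ ℓ ∧ ∀ p : {x : P // x ∉ ℓ}, (p : P) ∈ m ↔ (φ p).1 = c) ∧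
        (∀ k b : V, ∃ m : L, m ≠ ℓ ∧
          ∀ p : {x : P // x ∉ ℓ}, (p : P) ∈ m ↔ (φ p).2 = mul (φ p).1 k + b)

/-- [OT D6] (about 120 lines) From `Harm` to the coordinates.

Proof. A frame exists: `ProjectivePlane.exists_config` or directly: two lines `inf ≠ m` with the common
point `Z`, points `E ∈ inf`, `O ∈ m` other than `Z`, `h = E O`. `F` from `h1`. Groups from `Harm.grp` for
`(E, h)`, `(Z, inf)`, `(Z, m)`; replace the bijection `e` by `X ↦ e X - e X0`, `X0` the origin (`O`,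
`E`, `O`); the relation `R` is still `e A + e B + e C = 0` because `3 e X0 = 0`. Transport `F` to
`F' : C → S → Y → Y`, `F' c A b = eY (F (eC.symm c) (eS.symm A) (eY.symm b))`. `h2`, `h3` give the `Af`
conditions, `h1` the others. `h4` gives `M`, and `h5` finishes. -/
def S_OTD6 : Prop :=
  S_OTD1 → S_OTD2 → S_OTD3 → S_OTD4 → S_OTD5 →
  ∀ (P L : Type) [Membership P L] [ProjectivePlane P L] [Finite P]
    (R : ∀ (Z : P) (m : L), Aff P L Z m → Aff P L Z m → Aff P L Z m → Prop), Harm P L R →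
      ∃ (V : Type) (_ : AddCommGroup V) (mul : V → V → V) (ℓ : L)
        (φ : {x : P // x ∉ ℓ} ≃ V × V),
        (∀ x y k : V, mul (x + y) k = mul x k + mul y k) ∧
        (∀ x k l : V, mul x (k + l) = mul x k + mul x l) ∧
        (∀ x k : V, mul x k = 0 → x = 0 ∨ k = 0) ∧
        (∀ m : L, m ≠ ℓ →
          (∃ c : V, ∀ p : {x : P // x ∉ ℓ}, (p : P) ∈ m ↔ (φ p).1 = c) ∨
          ∃ k b : V, ∀ p : {x : P // x ∉ ℓ}, (p : P) ∈ m ↔ (φ p).2 = mul (φ p).1 k + b) ∧
        (∀ c : V, ∃ m : L, m ≠ ℓ ∧ ∀ p : {x : P // x ∉ ℓ}, (p : P) ∈ m ↔ (φ p).1 = c) ∧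
        (∀ k b : V, ∃ m : L, m ≠ ℓ ∧
          ∀ p : {x : P // x ∉ ℓ}, (p : P) ∈ m ↔ (φ p).2 = mul (φ p).1 k + b)

end Pool.Agent.TP3
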