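import Pool.Agent.Lib.MP_a1e562_co.OT.Stm

/-!
# Statements of the pieces [OT N.], [OT G.] of MP_a1e562_co: the tournament theorem

See the header of `OT/Stm.lean`. `PG χ` is the group of the permutations that preserve `χ`,
`Rev χ g`: `g` reverses `χ`.
-/

set_option autoImplicit false

namespace Pool.Agent.TP3

open Configuration

/-! ## N. number theory -/

/-- [OT N1] (about 150 lines) Primes for 3-elements.

Proof. `q` is odd, `q % 4 = 3`. Write `q = 3 ^ v * r` with `¬ 3 ∣ r`, `v ≥ 1`. `r` is not a square: if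
`r = k ^ 2` then `r ≡ 1` mod 4, so `3 ^ v ≡ 3` mod 4, `v` is odd, and `q = 3 * (3 ^ ((v - 1) / 2) * k) ^ 2`,
excluded. So some prime `p` divides `r` to an odd power, `p ≠ 2, 3`; `r = p ^ w * r'`, `w` odd,
`¬ p ∣ r'`. Choose by the Chinese remainder theorem `a` with `a ≡ 1` mod `4 * 3 ^ (j + 1) * r'` and
`a` a nonsquare mod `p` (exists for odd `p`), `a` is coprime to `N = 4 * 3 ^ (j + 1) * r' * p`. Dirichlet
(`Nat.forall_exists_prime_gt_and_eq_mod`) gives a prime `ℓ > q`, `ℓ ≡ a` mod `N`. Then `ℓ ≡ 1` mod `3 ^ j`,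
`ℓ ≡ 1` mod 4. `(-q / ℓ) = (q / ℓ) = (ℓ / q)` (Jacobi symbols, `ℓ ≡ 1` mod 4,
`jacobiSym.quadratic_reciprocity_one_mod_four`), and `(ℓ / q) = (ℓ / 3) ^ v * (ℓ / p) ^ w * (ℓ / r')
= 1 * (-1) * 1 = -1` (`jacobiSym.mul_right`, `jacobiSym.mod_left`; `ℓ ≡ 1` mod 3 and mod `r'`). Euler's
criterion (`legendreSym.eq_pow`, `jacobiSym.legendreSym.to_jacobiSym`) turns it into
`(-q) ^ (ℓ / 2) = -1` in `ZMod ℓ`. -/
def S_OTN1 : Prop :=
  ∀ q : ℕ, q % 4 = 3 → 3 ∣ q → (¬ ∃ k : ℕ, q = 3 * k ^ 2) → ∀ j : ℕ,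
    ∃ ℓ : ℕ, ℓ.Prime ∧ q < ℓ ∧ 3 ^ j ∣ ℓ - 1 ∧ NR q ℓ

/-- [OT N2] (about 80 lines) Primes for elements of order prime to 3.

Proof. By Dirichlet (modulus `3 * t`, Chinese remainder, `t` coprime to 3) there is a prime
`ℓ > 3 * k ^ 2 + 3` with `ℓ ≡ 1` mod `t`, `ℓ ≡ 2` mod 3. `-3 k² = -3` times a nonzero square mod `ℓ`
(`ℓ > k`, `k ≠ 0` because the first hypothesis excludes `k = 0`), and `-3` is not a square mod `ℓ`: if
`x² = -3` then `y = (-1 + x) / 2` satisfies `y² + y + 1 = 0`, `y ≠ 1` (`3 ≠ 0`), `y³ = 1`, so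
`3 ∣ ℓ - 1`, contradiction. Then Euler's criterion (`ZMod.euler_criterion`,
`ZMod.pow_div_two_eq_neg_one_or_one`). -/
def S_OTN2 : Prop :=
  ∀ k : ℕ, k ≠ 0 → ∀ t : ℕ, 0 < t → Nat.Coprime t 3 →
    ∃ ℓ : ℕ, ℓ.Prime ∧ 3 * k ^ 2 < ℓ ∧ t ∣ ℓ - 1 ∧ NR (3 * k ^ 2) ℓ

/-! ## G. the tournament theorem -/

/-- [OT G1] (about 120 lines) The tournament is doubly regular.

Proof. `R a = Σ_c χ a c`. For `a ≠ b` take `g` with `g a = b`, `g b = a` (`TwoTr`); `g` reverses `χ`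
(preserving is impossible: `χ b a = - χ a b ≠ χ a b`). `R b = Σ_c χ (g a) (g c) = - R a`. With three
different points `a, b, c`: `R b = - R a`, `R c = - R a`, `R c = - R b`, so `R a = 0`. As the set has at
least 3 points all `R a = 0`. `S a b = Σ_c χ a c * χ c b` satisfies `S (g a) (g b) = S a b` if `g`
preserves or reverses `χ`. So `S a b` is a constant `s` for `a ≠ b`. `S a a = - (|X| - 1)`
(`χ a c * χ c a = -1` for `c ≠ a`). `0 = Σ_c χ a c * R c = Σ_b S a b = - (|X| - 1) + (|X| - 1) s`, so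
`s = 1`. -/
def S_OTG1 : Prop :=
  ∀ (X : Type) [Fintype X] (χ : X → X → ℤ), Tour X χ → TwoTr χ → 3 ≤ Fintype.card X →
    (∀ a, ∑ c, χ a c = 0) ∧ ∀ a b, a ≠ b → ∑ c, χ a c * χ c b = 1

/-- [OT G2] (about 150 lines) The trace lemma. (Compare `IH/PGA.lean`.)

Proof. Let `q = |X|`. Work with matrices over `ZMod ℓ` indexed by `X`: `A a b = χ a b`, `J a b = 1`.
`A * A = J - q • 1` (`hS`; the diagonal entries are `-(q - 1)`), `A * J = 0`, `J * A = 0` (`hR`,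
antisymmetry). So `A * A * A = -q • A` and `A ^ (2 k + 1) = (-q) ^ k • A`; `ℓ` is odd (`ℓ > q ≥ 3`;
if `X` is empty the claim is trivial, if `|X| ≤ 2`, `ℓ = 2`: treat it separately or note that
`NR` is false for `ℓ = 2`? - `hcard : 3 ≤ |X|` is given). So `A ^ ℓ = (-q) ^ (ℓ / 2) • A = -A`. Let
`Q a b = 1` if `b = g a`, else `0`. `Q ^ ℓ = Q` since `g ^ ℓ = g` (`Equiv.Perm.permMatrix` or
directly), `Q * A = A * Q` as `g` preserves `χ`. `N = Q * A`: `N ^ ℓ = Q ^ ℓ * A ^ ℓ = - N`.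
`ZMod.trace_pow_card`: `trace (N ^ ℓ) = (trace N) ^ ℓ = trace N`, so `2 trace N = 0`, `trace N = 0`.
`trace N = Σ_a χ (g a) a = - Σ_a χ a (g a)`. So `ℓ` divides the integer `Σ_a χ a (g a)`, of absolute
value `≤ q < ℓ`, and it is `0`. -/
def S_OTG2 : Prop :=
  ∀ (X : Type) [Fintype X] (χ : X → X → ℤ), Tour X χ → 3 ≤ Fintype.card X →
    (∀ a, ∑ c, χ a c = 0) → (∀ a b, a ≠ b → ∑ c, χ a c * χ c b = 1) →
    ∀ ℓ : ℕ, ℓ.Prime → Fintype.card X < ℓ → NR (Fintype.card X) ℓ →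
    ∀ g : Equiv.Perm X, Pres χ g → g ^ ℓ = g → ∑ a, χ a (g a) = 0

/-- [OT G3] (about 100 lines) (Copy of `IH/PGC.lean` with another hypothesis on the orders.)

Proof. `G` is finite of odd order (`hO`). Conjugation by `τ` is an automorphism `t` of `G` with
`t (t g) = g`. `hS` (`S_SFSYL`) for `Z = ⊥` gives `P : Subgroup G`, an `s`-group, `¬ s ∣ P.index`,
invariant under `t`. Every `r ∈ P` fixes `N`: let `u = r * t r⁻¹ ∈ P`; `t u = u⁻¹`. The order `m` of `u`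
is odd; `k = u ^ ((m + 1) / 2) ∈ P`, `k * k = u`, `t k = k⁻¹`; `k` has order a power of `s`, so
`k N = N` by hypothesis. `c = k⁻¹ * r` satisfies `t c = c`, so `τ (c N) = c N`, and `c N = N` because `τ` has
only one fixed point. So `r N = N`, `P ≤ stabilizer`, and the orbit length divides `P.index`. -/
def S_OTG3 : Prop :=
  S_SFSYL → S_IHGO → ∀ (X : Type) [Finite X] (χ : X → X → ℤ), Tour X χ →
    ∀ (G : Subgroup (Equiv.Perm X)) (τ : Equiv.Perm X) (N : X) (s : ℕ),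
      (∀ g ∈ G, Pres χ g) → τ * τ = 1 → Rev χ τ → τ N = N → (∀ g ∈ G, τ * g * τ ∈ G) →
      (∀ g ∈ G, (∃ j : ℕ, g ^ s ^ j = 1) → τ * g * τ = g⁻¹ → g N = N) →
      s.Prime → ¬ s ∣ Nat.card (MulAction.orbit G N)

/-- [OT G4] (about 100 lines) Involutions that reverse `χ`.

Proof. (1) Take `a ≠ b` and `g` with `g a = b`, `g b = a` (`TwoTr`), so `g` reverses `χ` (not
preserves). `g * g` preserves `χ`, its order `o` is odd (`hO` for `zpowers (g * g)` or `PG χ`).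
`τ = g ^ o` reverses `χ` (`o` odd) and `τ * τ = (g * g) ^ o = 1`. (2) An involution on a set of odd
cardinality has a fixed point; two fixed points `N ≠ N'` of a reversing `τ` would give
`χ N N' = - χ N N'`. (3) conjugation: if `g` preserves or reverses `χ`, and `τ` is a reversing involution
then `g * τ * g⁻¹` is one. (4) `PG χ` is transitive: let `a, b`; if `a = b` take `1`; otherwise take `g`
with `g a = b`, `g b = a`; `g` reverses `χ`; by (1), (2), (3) and `TwoTr` there is a reversing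
involution `τ` fixing `b` (conjugate that of (1), with fixed point `N`, by an element that maps `N` to
`b`); `τ * g` preserves `χ` and maps `a` to `b`. -/
def S_OTG4 : Prop :=
  S_IHGO → ∀ (X : Type) [Finite X] (χ : X → X → ℤ), Tour X χ → TwoTr χ → Odd (Nat.card X) →
    2 ≤ Nat.card X →
    (∀ τ : Equiv.Perm X, τ * τ = 1 → Rev χ τ → ∃! N, τ N = N) ∧
    (∀ N : X, ∃ τ : Equiv.Perm X, τ * τ = 1 ∧ Rev χ τ ∧ τ N = N) ∧
    (∀ g τ : Equiv.Perm X, (Pres χ g ∨ Rev χ g) → τ * τ = 1 → Rev χ τ →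
      (g * τ * g⁻¹) * (g * τ * g⁻¹) = 1 ∧ Rev χ (g * τ * g⁻¹)) ∧
    ∀ a b : X, ∃ g ∈ PG χ, g a = b

/-- [OT G5] (about 150 lines) The number of points is a power of 3.

`h4` is the conclusion of G4, `h1` of G1.
Proof. Let `q = |X|`, `τ` a reversing involution, `τ N = N` (`h4`), `G = PG χ`, transitive, so
`card (orbit G N) = q`. Suppose `q` is not of the form `3 k²`. Then `hN1` applies: for `g ∈ G` with
`g ^ 3 ^ j = 1` take `ℓ` from `hN1` (`g ^ ℓ = g` as `3 ^ j ∣ ℓ - 1`); `h2` gives `Σ χ a (g a) = 0`, and `hB`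
(GB) gives `g N = N` if `τ g τ = g⁻¹`. So `h3` (G3) for `s = 3` says `¬ 3 ∣ q`, contradiction. So
`q = 3 k²`, `k ≠ 0`. Let `s ≠ 3` be a prime: for `g ∈ G`, `g ^ s ^ j = 1` take `ℓ` from `hN2` for
`t = s ^ j`, and get `¬ s ∣ q` in the same way. So `q` is a power of 3
(`Nat.eq_prime_pow_of_unique_prime_dvd`). The last claim: for `G' ≤ PG χ` normalised by `τ`, and a
prime `s ≠ 3`, G3 and the same argument give `¬ s ∣ card (orbit G' N)`. -/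
def S_OTG5 : Prop :=
  S_SFSYL → S_IHGO → S_IHGB → S_OTN1 → S_OTN2 → S_OTG1 → S_OTG2 → S_OTG3 → S_OTG4 →
  ∀ (X : Type) [Finite X] (χ : X → X → ℤ), Tour X χ → TwoTr χ → Nat.card X % 4 = 3 →
    3 ∣ Nat.card X →
    (∃ n : ℕ, Nat.card X = 3 ^ n) ∧
    ∀ (G : Subgroup (Equiv.Perm X)) (τ : Equiv.Perm X) (N : X) (s : ℕ),
      (∀ g ∈ G, Pres χ g) → τ * τ = 1 → Rev χ τ → τ N = N → (∀ g ∈ G, τ * g * τ ∈ G) →
      s.Prime → s ≠ 3 → ¬ s ∣ Nat.card (MulAction.orbit G N)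

/-- [OT G6] (about 200 lines) A central element of order 3 of an invariant Sylow 3-subgroup.
(Compare `IH/PGD.lean`.)

Proof. `G = PG χ` is finite of odd order (`hO`), transitive (`h4`). `t g = τ g τ` is an automorphism of
`G`. `hS` (`S_SFSYL`, `Z = ⊥`, `ℓ = 3`) gives `P : Subgroup G`, a 3-group with `¬ 3 ∣ P.index`,
`t`-invariant. Let `G_o`, `P_o` be the stabilizers of `o`. `[G : P_o] = [G : P] [P : P_o] =
[G : G_o] [G_o : P_o]` and `[G : G_o] = |X| = 3 ^ n`. As `3 ∤ [G : P]`, `3 ^ n ∣ [P : P_o]`, the orbit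
length of `o` under `P`, which is `≤ 3 ^ n`. So `P` is transitive and `[G_o : P_o] = [G : P]` is not
divisible by 3. `P ≠ 1`, so `center P ≠ 1` (`IsPGroup.center_nontrivial`); it is `t`-invariant. If
`c ∈ center P` and `t c = c` then `τ (c o) = c o`, `c o = o` (unique fixed point), and
`c (p o) = p (c o) = p o` for all `p ∈ P`, so `c = 1`. For `z ∈ center P` the element `z * t z` is fixed by
`t`, so `t z = z⁻¹`. Let `ζ ∈ center P` of order 3 (Cauchy). `ζ o ≠ o`. Every `p ∈ P_o` fixes `ζ o` and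
`ζ⁻¹ o`. So `P_o ≤ G2 G o (ζ o) ∩ stabilizer (ζ⁻¹ o)` and the orbit length of `ζ⁻¹ o` under
`G2 G o (ζ o) ≤ G_o` divides `[G_o : P_o]`, so it is not divisible by 3. -/
def S_OTG6 : Prop :=
  S_SFSYL → S_IHGO → S_OTG4 → ∀ (X : Type) [Finite X] (χ : X → X → ℤ), Tour X χ → TwoTr χ →
    ∀ n : ℕ, Nat.card X = 3 ^ n → 2 ≤ Nat.card X →
    ∀ (τ : Equiv.Perm X) (o : X), τ * τ = 1 → Rev χ τ → τ o = o →
      ∃ ζ ∈ PG χ, ζ * ζ * ζ = 1 ∧ ζ o ≠ o ∧ τ * ζ * τ = ζ⁻¹ ∧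
        (∀ a : X, ∃ p ∈ PG χ, p * ζ = ζ * p ∧ p o = a) ∧
        ¬ 3 ∣ Nat.card (MulAction.orbit (G2 (PG χ) o (ζ o)) (ζ⁻¹ o))

/-- [OT G7] (about 80 lines) The third point.

`h5` is the last conclusion of G5 (for this `χ`), `ζ` is given as in G6.
Proof. Let `N = ζ⁻¹ o`, `τ' = ζ⁻¹ * τ * ζ`: a reversing involution, `τ' N = N`, `τ' o = ζ⁻¹ τ ζ o =
ζ⁻¹ ζ⁻¹ τ o = ζ⁻¹ (ζ⁻¹ o) = ζ o` (`τ ζ = ζ⁻¹ τ`, `ζ³ = 1`), `τ' (ζ o) = o`. Let `H = G2 (PG χ) o (ζ o)`;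
`τ' g τ' ∈ H` for `g ∈ H`. `h5` for `H, τ', N` and every prime `s ≠ 3`: `s` does not divide
`|orbit H N|`; for `s = 3` this is given. So `|orbit H N| = 1` and every `g ∈ H` fixes `N`. If `g`
reverses `χ` then `g` cannot fix `o` and `ζ o` (`χ o (ζ o) ≠ 0`), so the claim holds for all `g` that
preserve or reverse `χ`. -/
def S_OTG7 : Prop :=
  ∀ (X : Type) [Finite X] (χ : X → X → ℤ), Tour X χ →
    (∀ (G : Subgroup (Equiv.Perm X)) (τ : Equiv.Perm X) (N : X) (s : ℕ),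
      (∀ g ∈ G, Pres χ g) → τ * τ = 1 → Rev χ τ → τ N = N → (∀ g ∈ G, τ * g * τ ∈ G) →
      s.Prime → s ≠ 3 → ¬ s ∣ Nat.card (MulAction.orbit G N)) →
    ∀ (τ : Equiv.Perm X) (o : X), τ * τ = 1 → Rev χ τ → τ o = o →
    ∀ ζ : Equiv.Perm X, Pres χ ζ → ζ * ζ * ζ = 1 → ζ o ≠ o → τ * ζ * τ = ζ⁻¹ →
      ¬ 3 ∣ Nat.card (MulAction.orbit (G2 (PG χ) o (ζ o)) (ζ⁻¹ o)) →
      ∀ g : Equiv.Perm X, (Pres χ g ∨ Rev χ g) → g o = o → g (ζ o) = ζ o → g (ζ⁻¹ o) = ζ⁻¹ o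

/-- [OT G8] (about 80 lines) Uniqueness of the reversing involutions.

`hz` is the conclusion of G7, `hfix`: a reversing involution has only one fixed point.
Proof. Let `σ` be a reversing involution, `σ N = N`, `X ≠ N` a point. Let `h` preserve or reverse `χ`,
`h o = X`, `h (ζ o) = σ X` (`TwoTr`; `σ X ≠ X` by `hfix`). `h' = h * ζ * τ` satisfies `h' o = h (ζ o)`,
`h' (ζ o) = h ζ (τ ζ τ) (τ o) = h (ζ (ζ⁻¹ o)) = h o`, `h' (ζ⁻¹ o) = h ζ (τ ζ⁻¹ τ) o = h (ζ (ζ o)) =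
h (ζ⁻¹ o)`. `σ * h` maps `o` to `σ X = h (ζ o)` and `ζ o` to `X = h o`. So `(σ h)⁻¹ h'` fixes `o` and
`ζ o`, and preserves or reverses `χ`, so it fixes `ζ⁻¹ o` (`hz`): `σ (h (ζ⁻¹ o)) = h (ζ⁻¹ o)`, and
`h (ζ⁻¹ o) = N` by `hfix`. Let `k = h * ζ⁻¹`: `k o = N`, `k (ζ o) = X`, `k (ζ⁻¹ o) = h (ζ⁻² o) = h (ζ o)
= σ X`. If `k'` is any element with `k' o = N`, `k' (ζ o) = X` then `k' (ζ⁻¹ o) = k (ζ⁻¹ o) = σ X`
(`k⁻¹ k'` fixes `o, ζ o`). So `σ X` does not depend on `σ`. -/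
def S_OTG8 : Prop :=
  ∀ (X : Type) (χ : X → X → ℤ), Tour X χ → TwoTr χ →
    (∀ τ : Equiv.Perm X, τ * τ = 1 → Rev χ τ → ∃! N, τ N = N) →
    ∀ (τ : Equiv.Perm X) (o : X), τ * τ = 1 → Rev χ τ → τ o = o →
    ∀ ζ : Equiv.Perm X, Pres χ ζ → ζ * ζ * ζ = 1 → ζ o ≠ o → τ * ζ * τ = ζ⁻¹ →
      (∀ g : Equiv.Perm X, (Pres χ g ∨ Rev χ g) → g o = o → g (ζ o) = ζ o → g (ζ⁻¹ o) = ζ⁻¹ o) →
      ∀ (σ σ' : Equiv.Perm X) (N : X), σ * σ = 1 → Rev χ σ → Rev χ σ' → σ' * σ' = 1 →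
        σ N = N → σ' N = N → σ = σ'

/-- [OT G9] (about 120 lines) The translations.

`huni`: reversing involutions with the same fixed point are equal. `τ` is a reversing involution
with `τ o = o`.
Proof. (a) Let `g, h ∈ Trn χ`. `g * τ` is an involution (`g τ g τ = g g⁻¹`) that reverses `χ`, and
`g = (g τ) τ`; `h` is inverted by `g τ` and by `τ`, so `h` commutes with `g`: `g h g⁻¹ =
(g τ) (τ h τ) (g τ)⁻¹ = (g τ) h⁻¹ (g τ) = h`. For a reversing involution `σ`: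
`σ (g h) σ = g⁻¹ h⁻¹ = (g h)⁻¹`. So `g h ∈ Trn χ`.
(b) `ζ ∈ Trn χ`: let `σ` be a reversing involution with fixed point `a`; `p ∈ PG χ`, `p ζ = ζ p`,
`p o = a`. `p τ p⁻¹` is a reversing involution that fixes `a`, so it is `σ` (`huni`), and
`σ ζ σ = p τ (p⁻¹ ζ p) τ p⁻¹ = p ζ⁻¹ p⁻¹ = ζ⁻¹`.
(c) If `h` preserves or reverses `χ` then `h Trn h⁻¹ ⊆ Trn`. (d) Transitive: for `a = b` take `1`; for
`a ≠ b` take `h` with `h o = a`, `h (ζ o) = b`: `h ζ h⁻¹ ∈ Trn χ` maps `a` to `b`. (e) Free: let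
`g ∈ Trn χ`, `g a = a`; for every `b` there is `t ∈ Trn χ` with `t a = b`, and
`g b = g (t a) = t (g a) = b`. (f) Exponent 3: `g ∈ Trn χ`, `g ≠ 1`; `b = g o ≠ o`; `h` with `h o = o`,
`h (ζ o) = b`; `h ζ h⁻¹ ∈ Trn χ` maps `o` to `b`, so `g⁻¹ h ζ h⁻¹` fixes `o`, and `g = h ζ h⁻¹`, `g³ = 1`. -/
def S_OTG9 : Prop :=
  ∀ (X : Type) (χ : X → X → ℤ), Tour X χ → TwoTr χ →
    (∀ τ : Equiv.Perm X, τ * τ = 1 → Rev χ τ → ∃! N, τ N = N) →
    (∀ (σ σ' : Equiv.Perm X) (N : X), σ * σ = 1 → Rev χ σ → Rev χ σ' → σ' * σ' = 1 →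
      σ N = N → σ' N = N → σ = σ') →
    ∀ (τ : Equiv.Perm X) (o : X), τ * τ = 1 → Rev χ τ → τ o = o →
    ∀ ζ : Equiv.Perm X, Pres χ ζ → ζ * ζ * ζ = 1 → ζ o ≠ o → τ * ζ * τ = ζ⁻¹ →
      (∀ a : X, ∃ p ∈ PG χ, p * ζ = ζ * p ∧ p o = a) →
      (∀ g ∈ Trn χ, ∀ h ∈ Trn χ, g * h ∈ Trn χ ∧ g * h = h * g) ∧
      (∀ g ∈ Trn χ, g * g * g = 1) ∧ (∀ a b, ∃ g ∈ Trn χ, g a = b) ∧
      ∀ g ∈ Trn χ, ∀ a, g a = a → g = 1

end Pool.Agent.TP3
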